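import Mathlib

/-!
# Ehrenfeucht-Fraisse games on two subsets of one structure
-/

namespace Run7.h625

variable {V : Type} {K : Type}

/-- Add the pair `(u, w)` to the relation `R`. -/
def add (R : V → V → Prop) (u w : V) : V → V → Prop := fun x y => R x y ∨ (x = u ∧ y = w)

/-- `R` is a partial isomorphism for the family of binary relations `Q`. -/
def PI (Q : K → V → V → Prop) (R : V → V → Prop) : Prop :=
  ∀ u w u' w', R u w → R u' w' → ∀ κ, (Q κ u u' ↔ Q κ w w')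

/-- Duplicator wins the `k` round game on the sets `A` and `B` from position `R`. -/
def EF (Q : K → V → V → Prop) : ℕ → Set V → Set V → (V → V → Prop) → Prop
  | 0, _, _, R => PI Q R
  | k + 1, A, B, R => PI Q R ∧ (∀ u ∈ A, ∃ w ∈ B, EF Q k A B (add R u w)) ∧
      (∀ w ∈ B, ∃ u ∈ A, EF Q k A B (add R u w))

variable {Q : K → V → V → Prop}

theorem PI.anti {R R' : V → V → Prop} (h : PI Q R) (hR : ∀ x y, R' x y → R x y) : PI Q R' :=
  fun u w u' w' h1 h2 κ => h u w u' w' (hR _ _ h1) (hR _ _ h2) κ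

theorem EF.pi : ∀ {k : ℕ} {A B : Set V} {R : V → V → Prop}, EF Q k A B R → PI Q R
  | 0, _, _, _, h => h
  | _ + 1, _, _, _, h => h.1

theorem add_mono {R R' : V → V → Prop} (hR : ∀ x y, R' x y → R x y) (u w : V) :
    ∀ x y, add R' u w x y → add R u w x y := by
  intro x y h
  rcases h with h | h
  · exact Or.inl (hR _ _ h)
  · exact Or.inr h

theorem EF.anti : ∀ {k : ℕ} {A B : Set V} {R R' : V → V → Prop}, EF Q k A B R →
    (∀ x y, R' x y → R x y) → EF Q k A B R'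
  | 0, _, _, _, _, h, hR => PI.anti h hR
  | k + 1, A, B, R, R', h, hR => by
    refine ⟨PI.anti h.1 hR, ?_, ?_⟩
    · intro u hu
      obtain ⟨w, hw, hh⟩ := h.2.1 u hu
      exact ⟨w, hw, EF.anti hh (add_mono hR u w)⟩
    · intro w hw
      obtain ⟨u, hu, hh⟩ := h.2.2 w hw
      exact ⟨u, hu, EF.anti hh (add_mono hR u w)⟩

theorem EF.pred : ∀ {k : ℕ} {A B : Set V} {R : V → V → Prop}, EF Q (k + 1) A B R → EF Q k A B R
  | 0, _, _, _, h => h.1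
  | k + 1, A, B, R, h => by
    refine ⟨h.1, ?_, ?_⟩
    · intro u hu
      obtain ⟨w, hw, hh⟩ := h.2.1 u hu
      exact ⟨w, hw, EF.pred hh⟩
    · intro w hw
      obtain ⟨u, hu, hh⟩ := h.2.2 w hw
      exact ⟨u, hu, EF.pred hh⟩

theorem EF.mono {k k' : ℕ} {A B : Set V} {R : V → V → Prop} (h : EF Q k A B R) (hk : k' ≤ k) :
    EF Q k' A B R := by
  induction k, hk using Nat.le_induction with
  | base => exact h
  | succ n _ ih => exact ih (EF.pred h)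

theorem EF.congrR {k : ℕ} {A B : Set V} {R R' : V → V → Prop} (h : EF Q k A B R)
    (hR : ∀ x y, R x y ↔ R' x y) : EF Q k A B R' :=
  h.anti (fun x y h => (hR x y).2 h)

theorem EF.symm : ∀ {k : ℕ} {A B : Set V} {R : V → V → Prop}, EF Q k A B R →
    EF Q k B A (fun x y => R y x)
  | 0, _, _, _, h => fun u w u' w' h1 h2 κ => (h w u w' u' h1 h2 κ).symm
  | k + 1, A, B, R, h => by
    refine ⟨fun u w u' w' h1 h2 κ => (h.1 w u w' u' h1 h2 κ).symm, ?_, ?_⟩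
    · intro u hu
      obtain ⟨w, hw, hh⟩ := h.2.2 u hu
      refine ⟨w, hw, (EF.symm hh).anti ?_⟩
      intro x y hxy
      rcases hxy with hxy | ⟨h1, h2⟩
      · exact Or.inl hxy
      · exact Or.inr ⟨h2, h1⟩
    · intro w hw
      obtain ⟨u, hu, hh⟩ := h.2.1 w hw
      refine ⟨u, hu, (EF.symm hh).anti ?_⟩
      intro x y hxy
      rcases hxy with hxy | ⟨h1, h2⟩
      · exact Or.inl hxy
      · exact Or.inr ⟨h2, h1⟩

theorem EF.trans : ∀ {k : ℕ} {A B C : Set V} {R S T : V → V → Prop}, EF Q k A B R →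
    EF Q k B C S → (∀ x z, T x z → ∃ y, R x y ∧ S y z) → EF Q k A C T
  | 0, _, _, _, R, S, T, h1, h2, hT => by
    intro u w u' w' h h' κ
    obtain ⟨y, hy1, hy2⟩ := hT _ _ h
    obtain ⟨y', hy1', hy2'⟩ := hT _ _ h'
    exact (h1 _ _ _ _ hy1 hy1' κ).trans (h2 _ _ _ _ hy2 hy2' κ)
  | k + 1, A, B, C, R, S, T, h1, h2, hT => by
    refine ⟨?_, ?_, ?_⟩
    · intro u w u' w' h h' κ
      obtain ⟨y, hy1, hy2⟩ := hT _ _ h
      obtain ⟨y', hy1', hy2'⟩ := hT _ _ h'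
      exact (h1.1 _ _ _ _ hy1 hy1' κ).trans (h2.1 _ _ _ _ hy2 hy2' κ)
    · intro u hu
      obtain ⟨w, hw, hh⟩ := h1.2.1 u hu
      obtain ⟨v, hv, hh'⟩ := h2.2.1 w hw
      refine ⟨v, hv, EF.trans hh hh' ?_⟩
      intro x z hxz
      rcases hxz with hxz | ⟨rfl, rfl⟩
      · obtain ⟨y, hy1, hy2⟩ := hT _ _ hxz
        exact ⟨y, Or.inl hy1, Or.inl hy2⟩
      · exact ⟨w, Or.inr ⟨rfl, rfl⟩, Or.inr ⟨rfl, rfl⟩⟩
    · intro v hv
      obtain ⟨w, hw, hh'⟩ := h2.2.2 v hv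
      obtain ⟨u, hu, hh⟩ := h1.2.2 w hw
      refine ⟨u, hu, EF.trans hh hh' ?_⟩
      intro x z hxz
      rcases hxz with hxz | ⟨rfl, rfl⟩
      · obtain ⟨y, hy1, hy2⟩ := hT _ _ hxz
        exact ⟨y, Or.inl hy1, Or.inl hy2⟩
      · exact ⟨w, Or.inr ⟨rfl, rfl⟩, Or.inr ⟨rfl, rfl⟩⟩

/-- The identity strategy. -/
theorem EF.refl : ∀ {k : ℕ} {A : Set V} {R : V → V → Prop}, (∀ x y, R x y → x = y) →
    EF Q k A A R
  | 0, _, R, hR => by
    intro u w u' w' h1 h2 κ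
    rw [hR _ _ h1, hR _ _ h2]
  | k + 1, A, R, hR => by
    refine ⟨?_, ?_, ?_⟩
    · intro u w u' w' h1 h2 κ
      rw [hR _ _ h1, hR _ _ h2]
    · intro u hu
      refine ⟨u, hu, EF.refl ?_⟩
      intro x y h
      rcases h with h | ⟨rfl, rfl⟩
      · exact hR _ _ h
      · rfl
    · intro u hu
      refine ⟨u, hu, EF.refl ?_⟩
      intro x y h
      rcases h with h | ⟨rfl, rfl⟩
      · exact hR _ _ h
      · rfl

/-- Change of the relations outside of the relevant part. -/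
theorem EF.congrQ {Q' : K → V → V → Prop} : ∀ {k : ℕ} {A B X Y : Set V} {R : V → V → Prop},
    EF Q k A B R → A ⊆ X → B ⊆ Y → (∀ x y, R x y → x ∈ X ∧ y ∈ Y) →
    (∀ x ∈ X, ∀ y ∈ X, ∀ κ, (Q κ x y ↔ Q' κ x y)) →
    (∀ x ∈ Y, ∀ y ∈ Y, ∀ κ, (Q κ x y ↔ Q' κ x y)) → EF Q' k A B R
  | 0, _, _, X, Y, R, h, _, _, hR, hX, hY => by
    intro u w u' w' h1 h2 κ
    rw [← hX u (hR _ _ h1).1 u' (hR _ _ h2).1, ← hY w (hR _ _ h1).2 w' (hR _ _ h2).2]
    exact h _ _ _ _ h1 h2 κ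
  | k + 1, A, B, X, Y, R, h, hA, hB, hR, hX, hY => by
    refine ⟨?_, ?_, ?_⟩
    · intro u w u' w' h1 h2 κ
      rw [← hX u (hR _ _ h1).1 u' (hR _ _ h2).1, ← hY w (hR _ _ h1).2 w' (hR _ _ h2).2]
      exact h.1 _ _ _ _ h1 h2 κ
    · intro u hu
      obtain ⟨w, hw, hh⟩ := h.2.1 u hu
      refine ⟨w, hw, EF.congrQ hh hA hB ?_ hX hY⟩
      intro x y hxy
      rcases hxy with hxy | ⟨rfl, rfl⟩
      · exact hR _ _ hxy
      · exact ⟨hA hu, hB hw⟩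
    · intro w hw
      obtain ⟨u, hu, hh⟩ := h.2.2 w hw
      refine ⟨u, hu, EF.congrQ hh hA hB ?_ hX hY⟩
      intro x y hxy
      rcases hxy with hxy | ⟨rfl, rfl⟩
      · exact hR _ _ hxy
      · exact ⟨hA hu, hB hw⟩

/-- Composition of strategies. -/
theorem EF.comp : ∀ {k : ℕ} {A₁ B₁ A₂ B₂ : Set V} {R₁ R₂ : V → V → Prop},
    EF Q k A₁ B₁ R₁ → EF Q k A₂ B₂ R₂ →
    (∀ u ∈ A₁, ∀ u' ∈ A₂, ∀ w ∈ B₁, ∀ w' ∈ B₂, ∀ κ,
      (Q κ u u' ↔ Q κ w w') ∧ (Q κ u' u ↔ Q κ w' w)) →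
    (∀ u w, R₁ u w → (u ∈ A₁ ∧ w ∈ B₁) ∨ R₂ u w) →
    (∀ u w, R₂ u w → (u ∈ A₂ ∧ w ∈ B₂) ∨ R₁ u w) →
    EF Q k (A₁ ∪ A₂) (B₁ ∪ B₂) (fun x y => R₁ x y ∨ R₂ x y) := by
  have key : ∀ {A₁ B₁ A₂ B₂ : Set V} {R₁ R₂ : V → V → Prop}, PI Q R₁ → PI Q R₂ →
      (∀ u ∈ A₁, ∀ u' ∈ A₂, ∀ w ∈ B₁, ∀ w' ∈ B₂, ∀ κ,
        (Q κ u u' ↔ Q κ w w') ∧ (Q κ u' u ↔ Q κ w' w)) →
      (∀ u w, R₁ u w → (u ∈ A₁ ∧ w ∈ B₁) ∨ R₂ u w) →
      (∀ u w, R₂ u w → (u ∈ A₂ ∧ w ∈ B₂) ∨ R₁ u w) →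
      PI Q (fun x y => R₁ x y ∨ R₂ x y) := by
    intro A₁ B₁ A₂ B₂ R₁ R₂ p1 p2 hc h1 h2 u w u' w' hu hu' κ
    rcases hu with hu | hu <;> rcases hu' with hu' | hu'
    · exact p1 _ _ _ _ hu hu' κ
    · rcases h1 _ _ hu with ⟨ha, hb⟩ | hu2
      · rcases h2 _ _ hu' with ⟨ha', hb'⟩ | hu1
        · exact (hc u ha u' ha' w hb w' hb' κ).1
        · exact p1 _ _ _ _ hu hu1 κ
      · exact p2 _ _ _ _ hu2 hu' κ
    · rcases h2 _ _ hu with ⟨ha, hb⟩ | hu2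
      · rcases h1 _ _ hu' with ⟨ha', hb'⟩ | hu1
        · exact (hc u' ha' u ha w' hb' w hb κ).2
        · exact p2 _ _ _ _ hu hu1 κ
      · exact p1 _ _ _ _ hu2 hu' κ
    · exact p2 _ _ _ _ hu hu' κ
  intro k
  induction k with
  | zero =>
    intro A₁ B₁ A₂ B₂ R₁ R₂ e1 e2 hc h1 h2
    exact key e1.pi e2.pi hc h1 h2
  | succ k ih =>
    intro A₁ B₁ A₂ B₂ R₁ R₂ e1 e2 hc h1 h2
    have left : ∀ u ∈ A₁, ∀ w ∈ B₁, EF Q k A₁ B₁ (add R₁ u w) →
        EF Q k (A₁ ∪ A₂) (B₁ ∪ B₂) (add (fun x y => R₁ x y ∨ R₂ x y) u w) := by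
      intro u hu w hw hh
      have := ih (R₁ := add R₁ u w) (R₂ := R₂) hh e2.pred hc ?_ ?_
      · refine this.anti ?_
        intro x y hxy
        rcases hxy with (hxy | hxy) | hxy
        · exact Or.inl (Or.inl hxy)
        · exact Or.inr hxy
        · exact Or.inl (Or.inr hxy)
      · intro x y hxy
        rcases hxy with hxy | ⟨rfl, rfl⟩
        · exact h1 _ _ hxy
        · exact Or.inl ⟨hu, hw⟩
      · intro x y hxy
        rcases h2 _ _ hxy with h | h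
        · exact Or.inl h
        · exact Or.inr (Or.inl h)
    have right : ∀ u ∈ A₂, ∀ w ∈ B₂, EF Q k A₂ B₂ (add R₂ u w) →
        EF Q k (A₁ ∪ A₂) (B₁ ∪ B₂) (add (fun x y => R₁ x y ∨ R₂ x y) u w) := by
      intro u hu w hw hh
      have := ih (R₁ := R₁) (R₂ := add R₂ u w) e1.pred hh hc ?_ ?_
      · refine this.anti ?_
        intro x y hxy
        rcases hxy with (hxy | hxy) | hxy
        · exact Or.inl hxy
        · exact Or.inr (Or.inl hxy)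
        · exact Or.inr (Or.inr hxy)
      · intro x y hxy
        rcases h1 _ _ hxy with h | h
        · exact Or.inl h
        · exact Or.inr (Or.inl h)
      · intro x y hxy
        rcases hxy with hxy | ⟨rfl, rfl⟩
        · exact h2 _ _ hxy
        · exact Or.inl ⟨hu, hw⟩
    refine ⟨key e1.pi e2.pi hc h1 h2, ?_, ?_⟩
    · intro u hu
      rcases hu with hu | hu
      · obtain ⟨w, hw, hh⟩ := e1.2.1 u hu
        exact ⟨w, Or.inl hw, left u hu w hw hh⟩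
      · obtain ⟨w, hw, hh⟩ := e2.2.1 u hu
        exact ⟨w, Or.inr hw, right u hu w hw hh⟩
    · intro w hw
      rcases hw with hw | hw
      · obtain ⟨u, hu, hh⟩ := e1.2.2 w hw
        exact ⟨u, Or.inl hu, left u hu w hw hh⟩
      · obtain ⟨u, hu, hh⟩ := e2.2.2 w hw
        exact ⟨u, Or.inr hu, right u hu w hw hh⟩

/-- Already matched elements may be added to the two sets. -/
theorem EF.ext : ∀ {k : ℕ} {A B : Set V} {R : V → V → Prop} {x x' : V}, R x x' →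
    EF Q k A B R → EF Q k (insert x A) (insert x' B) R
  | 0, _, _, _, _, _, _, h => h
  | k + 1, A, B, R, x, x', hx, h => by
    have hadd : ∀ a b, add R x x' a b → R a b := by
      intro a b hab
      rcases hab with hab | ⟨rfl, rfl⟩
      · exact hab
      · exact hx
    refine ⟨h.1, ?_, ?_⟩
    · intro u hu
      rcases hu with rfl | hu
      · exact ⟨x', Or.inl rfl, (EF.ext hx h.pred).anti hadd⟩
      · obtain ⟨w, hw, hh⟩ := h.2.1 u hu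
        exact ⟨w, Or.inr hw, EF.ext (Or.inl hx) hh⟩
    · intro w hw
      rcases hw with rfl | hw
      · exact ⟨x, Or.inl rfl, (EF.ext hx h.pred).anti hadd⟩
      · obtain ⟨u, hu, hh⟩ := h.2.2 w hw
        exact ⟨u, Or.inr hu, EF.ext (Or.inl hx) hh⟩

end Run7.h625
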