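import Mathlib
import Pool.Agent.Run7.h625.EF

/-!
# Composition of games along linearly ordered families of blocks
-/

namespace Run7.h625

variable {V : Type} {K : Type}

/-- `lt` is a strict linear order on the finite set `s`. -/
structure SLin (lt : V → V → Prop) (s : Finset V) : Prop where
  irr : ∀ x ∈ s, ¬ lt x x
  tr : ∀ x ∈ s, ∀ y ∈ s, ∀ z ∈ s, lt x y → lt y z → lt x z
  tri : ∀ x ∈ s, ∀ y ∈ s, lt x y ∨ x = y ∨ lt y x

theorem SLin.sub {lt : V → V → Prop} {s t : Finset V} (h : SLin lt s) (ht : t ⊆ s) : SLin lt t :=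
  ⟨fun x hx => h.irr x (ht hx),
   fun x hx y hy z hz => h.tr x (ht hx) y (ht hy) z (ht hz),
   fun x hx y hy => h.tri x (ht hx) y (ht hy)⟩

open Classical in
/-- the element with a prescribed number of elements below it. -/
theorem SLin.nth {lt : V → V → Prop} {s : Finset V} (h : SLin lt s) {j : ℕ} (hj : j < s.card) :
    ∃ b ∈ s, (s.filter (fun x => lt x b)).card = j := by
  have h1 : Set.MapsTo (fun b => (s.filter (fun x => lt x b)).card) (s : Set V)
      ((Finset.range s.card : Finset ℕ) : Set ℕ) := by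
    intro b hb
    have hb' : b ∈ s := hb
    simp only [Finset.coe_range, Set.mem_Iio]
    apply Finset.card_lt_card
    rw [Finset.filter_ssubset]
    exact ⟨b, hb', h.irr b hb'⟩
  have h2 : Set.InjOn (fun b => (s.filter (fun x => lt x b)).card) (s : Set V) := by
    intro a ha b hb hab
    have ha' : a ∈ s := ha
    have hb' : b ∈ s := hb
    have key : ∀ a ∈ s, ∀ b ∈ s, lt a b →
        (s.filter (fun x => lt x a)).card < (s.filter (fun x => lt x b)).card := by
      intro a ha b hb hlt
      apply Finset.card_lt_card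
      rw [Finset.ssubset_iff_of_subset]
      · refine ⟨a, ?_, ?_⟩
        · simp [ha, hlt]
        · simp [h.irr a ha]
      · intro x hx
        simp only [Finset.mem_filter] at hx ⊢
        exact ⟨hx.1, h.tr x hx.1 a ha b hb hx.2 hlt⟩
    rcases h.tri a ha' b hb' with hlt | heq | hlt
    · exact absurd hab (key a ha' b hb' hlt).ne
    · exact heq
    · exact absurd hab (key b hb' a ha' hlt).ne'
  have h3 : Set.SurjOn (fun b => (s.filter (fun x => lt x b)).card) (s : Set V)
      ((Finset.range s.card : Finset ℕ) : Set ℕ) :=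
    Finset.surjOn_of_injOn_of_card_le _ h1 h2 (by simp)
  have h4 : j ∈ ((Finset.range s.card : Finset ℕ) : Set ℕ) := by simpa using hj
  obtain ⟨b, hb, hbj⟩ := h3 h4
  exact ⟨b, hb, hbj⟩

open Classical in
theorem SLin.split {lt : V → V → Prop} {s : Finset V} (h : SLin lt s) {a : V} (ha : a ∈ s) :
    (s.filter (fun x => lt x a)).card + 1 + (s.filter (fun x => lt a x)).card = s.card := by
  have h1 : s = (s.filter (fun x => lt x a)) ∪ ({a} ∪ (s.filter (fun x => lt a x))) := by
    ext x
    simp only [Finset.mem_union, Finset.mem_filter, Finset.mem_singleton]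
    constructor
    · intro hx
      rcases h.tri x hx a ha with h | h | h
      · exact Or.inl ⟨hx, h⟩
      · exact Or.inr (Or.inl h)
      · exact Or.inr (Or.inr ⟨hx, h⟩)
    · rintro (⟨h, _⟩ | rfl | ⟨h, _⟩)
      · exact h
      · exact ha
      · exact h
  have h2 : Disjoint ({a} : Finset V) (s.filter (fun x => lt a x)) := by
    rw [Finset.disjoint_singleton_left]
    simp only [Finset.mem_filter, not_and]
    intro _
    exact h.irr a ha
  have h3 : Disjoint (s.filter (fun x => lt x a)) ({a} ∪ (s.filter (fun x => lt a x))) := by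
    rw [Finset.disjoint_left]
    intro x hx hx'
    simp only [Finset.mem_union, Finset.mem_filter, Finset.mem_singleton] at hx hx'
    rcases hx' with rfl | ⟨_, hx'⟩
    · exact h.irr x ha hx.2
    · exact h.irr x hx.1 (h.tr x hx.1 a ha x hx.1 hx.2 hx')
  conv_rhs => rw [h1]
  rw [Finset.card_union_of_disjoint h3, Finset.card_union_of_disjoint h2, Finset.card_singleton]
  ring

/-- The numbers `p` and `q` are indistinguishable up to the threshold `m`. -/
def Thr (m p q : ℕ) : Prop := p = q ∨ (m ≤ p ∧ m ≤ q)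

theorem thr_num {m p q n : ℕ} (h : Thr (2 * m + 1) (p + 1 + q) n) :
    ∃ p' q', p' + 1 + q' = n ∧ Thr m p p' ∧ Thr m q q' := by
  unfold Thr at *
  rcases h with h | ⟨h1, h2⟩
  · exact ⟨p, q, h, Or.inl rfl, Or.inl rfl⟩
  · by_cases hp : p < m
    · exact ⟨p, n - 1 - p, by omega, Or.inl rfl, Or.inr ⟨by omega, by omega⟩⟩
    · by_cases hq : q < m
      · exact ⟨n - 1 - q, q, by omega, Or.inr ⟨by omega, by omega⟩, Or.inl rfl⟩
      · exact ⟨m, n - 1 - m, by omega, Or.inr ⟨by omega, by omega⟩,
          Or.inr ⟨by omega, by omega⟩⟩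

theorem Thr.mono {m m' p q : ℕ} (h : Thr m p q) (hm : m' ≤ m) : Thr m' p q := by
  unfold Thr at *
  omega

theorem Thr.symm {m p q : ℕ} (h : Thr m p q) : Thr m q p := by
  unfold Thr at *
  omega

/-- The threshold for `k` rounds. -/
def thr : ℕ → ℕ
  | 0 => 0
  | k + 1 => 2 * thr k + 1

theorem thr_le_succ (k : ℕ) : thr k ≤ thr (k + 1) := by
  simp only [thr]; omega

theorem thr_mono {k l : ℕ} (h : k ≤ l) : thr k ≤ thr l := monotone_nat_of_le_succ thr_le_succ h

open Classical in
/-- The hypotheses of the composition lemma for ordered sums. -/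
structure GHyp {L : Type} [LinearOrder L] (Q : K → V → V → Prop) (lt : V → V → Prop) (f : V → L)
    (k : ℕ) (I J : Finset V) (A B : V → Set V) (R : V → V → Prop) : Prop where
  linI : SLin lt I
  linJ : SLin lt J
  monI : ∀ a ∈ I, ∀ b ∈ I, lt a b → f a ≤ f b
  monJ : ∀ a ∈ J, ∀ b ∈ J, lt a b → f a ≤ f b
  pi : PI Q R
  ef : ∀ a ∈ I, ∀ b ∈ J, f a = f b → EF Q k (A a) (B b) R
  cross : ∀ a ∈ I, ∀ a' ∈ I, ∀ b ∈ J, ∀ b' ∈ J, lt a a' → lt b b' →
    ∀ u ∈ A a, ∀ u' ∈ A a', ∀ w ∈ B b, ∀ w' ∈ B b', ∀ κ,
      (Q κ u u' ↔ Q κ w w') ∧ (Q κ u' u ↔ Q κ w' w)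
  sim : ∀ l : L, Thr (thr k) (I.filter (fun a => f a = l)).card (J.filter (fun a => f a = l)).card

variable {L : Type} [LinearOrder L] {Q : K → V → V → Prop} {lt : V → V → Prop} {f : V → L}
    {k : ℕ} {I J : Finset V} {A B : V → Set V} {R : V → V → Prop}

theorem GHyp.symm (h : GHyp Q lt f k I J A B R) : GHyp Q lt f k J I B A (fun x y => R y x) where
  linI := h.linJ
  linJ := h.linI
  monI := h.monJ
  monJ := h.monI
  pi := (EF.symm (k := 0) (A := ∅) (B := ∅) h.pi)
  ef := fun a ha b hb hab => (h.ef b hb a ha hab.symm).symm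
  cross := fun a ha a' ha' b hb b' hb' h1 h2 u hu u' hu' w hw w' hw' κ =>
    ⟨(h.cross b hb b' hb' a ha a' ha' h2 h1 w hw w' hw' u hu u' hu' κ).1.symm,
      (h.cross b hb b' hb' a ha a' ha' h2 h1 w hw w' hw' u hu u' hu' κ).2.symm⟩
  sim := fun l => (h.sim l).symm

open Classical in
theorem GHyp.choose (h : GHyp Q lt f (k + 1) I J A B R) {a : V} (ha : a ∈ I) :
    ∃ b ∈ J, f b = f a ∧
      GHyp Q lt f k (I.filter (fun x => lt x a)) (J.filter (fun x => lt x b)) A B R ∧
      GHyp Q lt f k (I.filter (fun x => lt a x)) (J.filter (fun x => lt b x)) A B R := by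
  set I' := I.filter (fun x => f x = f a) with hI'
  set J' := J.filter (fun x => f x = f a) with hJ'
  have hII : I' ⊆ I := Finset.filter_subset _ _
  have hJJ : J' ⊆ J := Finset.filter_subset _ _
  have haI' : a ∈ I' := by simp [hI', ha]
  have hs := (h.linI.sub hII).split haI'
  have h0 : Thr (2 * thr k + 1) ((I'.filter (fun x => lt x a)).card + 1 +
      (I'.filter (fun x => lt a x)).card) J'.card := by
    rw [hs]
    exact h.sim (f a)
  obtain ⟨p', q', hpq, hp, hq⟩ := thr_num h0
  obtain ⟨b, hbJ', hb⟩ := (h.linJ.sub hJJ).nth (j := p') (by omega)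
  have hs' := (h.linJ.sub hJJ).split hbJ'
  have hbJ : b ∈ J := hJJ hbJ'
  have hfb : f b = f a := by
    have := hbJ'
    simp only [hJ', Finset.mem_filter] at this
    exact this.2
  have hq' : (J'.filter (fun x => lt b x)).card = q' := by omega
  refine ⟨b, hbJ, hfb, ?_, ?_⟩
  · refine ⟨h.linI.sub (Finset.filter_subset _ _), h.linJ.sub (Finset.filter_subset _ _), ?_, ?_,
      h.pi, ?_, ?_, ?_⟩
    · intro x hx y hy
      exact h.monI x (Finset.mem_of_mem_filter x hx) y (Finset.mem_of_mem_filter y hy)
    · intro x hx y hy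
      exact h.monJ x (Finset.mem_of_mem_filter x hx) y (Finset.mem_of_mem_filter y hy)
    · intro x hx y hy hxy
      exact (h.ef x (Finset.mem_of_mem_filter x hx) y (Finset.mem_of_mem_filter y hy) hxy).pred
    · intro x hx x' hx' y hy y' hy'
      exact h.cross x (Finset.mem_of_mem_filter x hx) x' (Finset.mem_of_mem_filter x' hx')
        y (Finset.mem_of_mem_filter y hy) y' (Finset.mem_of_mem_filter y' hy')
    · intro l
      rcases lt_trichotomy l (f a) with hl | hl | hl
      · have e1 : (I.filter (fun x => lt x a)).filter (fun x => f x = l) =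
            I.filter (fun x => f x = l) := by
          ext x
          simp only [Finset.mem_filter]
          constructor
          · rintro ⟨⟨h1, _⟩, h3⟩; exact ⟨h1, h3⟩
          · rintro ⟨h1, h3⟩
            refine ⟨⟨h1, ?_⟩, h3⟩
            rcases h.linI.tri x h1 a ha with h4 | h4 | h4
            · exact h4
            · subst h4; exact absurd h3 hl.ne'
            · have := h.monI a ha x h1 h4
              rw [h3] at this
              exact absurd this (not_le.2 hl)
        have e2 : (J.filter (fun x => lt x b)).filter (fun x => f x = l) =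
            J.filter (fun x => f x = l) := by
          ext x
          simp only [Finset.mem_filter]
          constructor
          · rintro ⟨⟨h1, _⟩, h3⟩; exact ⟨h1, h3⟩
          · rintro ⟨h1, h3⟩
            refine ⟨⟨h1, ?_⟩, h3⟩
            rcases h.linJ.tri x h1 b hbJ with h4 | h4 | h4
            · exact h4
            · subst h4
              rw [hfb] at h3
              exact absurd h3 hl.ne'
            · have := h.monJ b hbJ x h1 h4
              rw [h3, hfb] at this
              exact absurd this (not_le.2 hl)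
        rw [e1, e2]
        exact (h.sim l).mono (thr_le_succ k)
      · have e1 : (I.filter (fun x => lt x a)).filter (fun x => f x = l) =
            I'.filter (fun x => lt x a) := by
          ext x
          simp only [Finset.mem_filter, hI', hl]
          tauto
        have e2 : (J.filter (fun x => lt x b)).filter (fun x => f x = l) =
            J'.filter (fun x => lt x b) := by
          ext x
          simp only [Finset.mem_filter, hJ', hl]
          tauto
        rw [e1, e2, hb]
        exact hp
      · have e1 : (I.filter (fun x => lt x a)).filter (fun x => f x = l) = ∅ := by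
          ext x
          simp only [Finset.mem_filter, Finset.notMem_empty, iff_false, not_and]
          rintro ⟨h1, h2⟩ h3
          have := h.monI x h1 a ha h2
          rw [h3] at this
          exact absurd this (not_le.2 hl)
        have e2 : (J.filter (fun x => lt x b)).filter (fun x => f x = l) = ∅ := by
          ext x
          simp only [Finset.mem_filter, Finset.notMem_empty, iff_false, not_and]
          rintro ⟨h1, h2⟩ h3
          have := h.monJ x h1 b hbJ h2
          rw [h3, hfb] at this
          exact absurd this (not_le.2 hl)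
        rw [e1, e2]
        exact Or.inl rfl
  · refine ⟨h.linI.sub (Finset.filter_subset _ _), h.linJ.sub (Finset.filter_subset _ _), ?_, ?_,
      h.pi, ?_, ?_, ?_⟩
    · intro x hx y hy
      exact h.monI x (Finset.mem_of_mem_filter x hx) y (Finset.mem_of_mem_filter y hy)
    · intro x hx y hy
      exact h.monJ x (Finset.mem_of_mem_filter x hx) y (Finset.mem_of_mem_filter y hy)
    · intro x hx y hy hxy
      exact (h.ef x (Finset.mem_of_mem_filter x hx) y (Finset.mem_of_mem_filter y hy) hxy).pred
    · intro x hx x' hx' y hy y' hy'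
      exact h.cross x (Finset.mem_of_mem_filter x hx) x' (Finset.mem_of_mem_filter x' hx')
        y (Finset.mem_of_mem_filter y hy) y' (Finset.mem_of_mem_filter y' hy')
    · intro l
      rcases lt_trichotomy l (f a) with hl | hl | hl
      · have e1 : (I.filter (fun x => lt a x)).filter (fun x => f x = l) = ∅ := by
          ext x
          simp only [Finset.mem_filter, Finset.notMem_empty, iff_false, not_and]
          rintro ⟨h1, h2⟩ h3
          have := h.monI a ha x h1 h2
          rw [h3] at this
          exact absurd this (not_le.2 hl)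
        have e2 : (J.filter (fun x => lt b x)).filter (fun x => f x = l) = ∅ := by
          ext x
          simp only [Finset.mem_filter, Finset.notMem_empty, iff_false, not_and]
          rintro ⟨h1, h2⟩ h3
          have := h.monJ b hbJ x h1 h2
          rw [h3, hfb] at this
          exact absurd this (not_le.2 hl)
        rw [e1, e2]
        exact Or.inl rfl
      · have e1 : (I.filter (fun x => lt a x)).filter (fun x => f x = l) =
            I'.filter (fun x => lt a x) := by
          ext x
          simp only [Finset.mem_filter, hI', hl]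
          tauto
        have e2 : (J.filter (fun x => lt b x)).filter (fun x => f x = l) =
            J'.filter (fun x => lt b x) := by
          ext x
          simp only [Finset.mem_filter, hJ', hl]
          tauto
        rw [e1, e2, hq']
        exact hq
      · have e1 : (I.filter (fun x => lt a x)).filter (fun x => f x = l) =
            I.filter (fun x => f x = l) := by
          ext x
          simp only [Finset.mem_filter]
          constructor
          · rintro ⟨⟨h1, _⟩, h3⟩; exact ⟨h1, h3⟩
          · rintro ⟨h1, h3⟩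
            refine ⟨⟨h1, ?_⟩, h3⟩
            rcases h.linI.tri x h1 a ha with h4 | h4 | h4
            · have := h.monI x h1 a ha h4
              rw [h3] at this
              exact absurd this (not_le.2 hl)
            · subst h4; exact absurd h3 hl.ne
            · exact h4
        have e2 : (J.filter (fun x => lt b x)).filter (fun x => f x = l) =
            J.filter (fun x => f x = l) := by
          ext x
          simp only [Finset.mem_filter]
          constructor
          · rintro ⟨⟨h1, _⟩, h3⟩; exact ⟨h1, h3⟩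
          · rintro ⟨h1, h3⟩
            refine ⟨⟨h1, ?_⟩, h3⟩
            rcases h.linJ.tri x h1 b hbJ with h4 | h4 | h4
            · have := h.monJ x h1 b hbJ h4
              rw [h3, hfb] at this
              exact absurd this (not_le.2 hl)
            · subst h4
              rw [hfb] at h3
              exact absurd h3 hl.ne
            · exact h4
        rw [e1, e2]
        exact (h.sim l).mono (thr_le_succ k)

/-- The union of a family of blocks. -/
def BU (I : Finset V) (A : V → Set V) : Set V := {u | ∃ a ∈ I, u ∈ A a}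

open Classical in
theorem BU_split (hI : SLin lt I) {a : V} (ha : a ∈ I) :
    BU I A = (BU (I.filter (fun x => lt x a)) A ∪ A a) ∪ BU (I.filter (fun x => lt a x)) A := by
  ext u
  simp only [BU, Set.mem_union, Set.mem_setOf_eq, Finset.mem_filter]
  constructor
  · rintro ⟨x, hx, hu⟩
    rcases hI.tri x hx a ha with h | h | h
    · exact Or.inl (Or.inl ⟨x, ⟨hx, h⟩, hu⟩)
    · subst h; exact Or.inl (Or.inr hu)
    · exact Or.inr ⟨x, ⟨hx, h⟩, hu⟩
  · rintro ((⟨x, ⟨hx, _⟩, hu⟩ | hu) | ⟨x, ⟨hx, _⟩, hu⟩)
    · exact ⟨x, hx, hu⟩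
    · exact ⟨a, ha, hu⟩
    · exact ⟨x, hx, hu⟩

theorem cross_comm {k : ℕ} {A₁ B₁ A₂ B₂ : Set V} {R₁ R₂ R' : V → V → Prop}
    (e1 : EF Q k A₁ B₁ R₁) (e2 : EF Q k A₂ B₂ R₂)
    (hc : ∀ u ∈ A₁, ∀ u' ∈ A₂, ∀ w ∈ B₁, ∀ w' ∈ B₂, ∀ κ,
      (Q κ u u' ↔ Q κ w w') ∧ (Q κ u' u ↔ Q κ w' w))
    (h1 : ∀ u w, R₁ u w → (u ∈ A₁ ∧ w ∈ B₁) ∨ R₂ u w)
    (h2 : ∀ u w, R₂ u w → (u ∈ A₂ ∧ w ∈ B₂) ∨ R₁ u w)
    (hR : ∀ u w, R' u w → R₁ u w ∨ R₂ u w) : EF Q k (A₁ ∪ A₂) (B₁ ∪ B₂) R' :=
  (EF.comp e1 e2 hc h1 h2).anti hR

open Classical in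
theorem GHyp.forth (ih : ∀ {I J : Finset V} {A B : V → Set V} {R : V → V → Prop},
      GHyp Q lt f k I J A B R → EF Q k (BU I A) (BU J B) R)
    (h : GHyp Q lt f (k + 1) I J A B R) {u : V} (hu : u ∈ BU I A) :
    ∃ w ∈ BU J B, EF Q k (BU I A) (BU J B) (add R u w) := by
  obtain ⟨a, ha, hua⟩ := hu
  obtain ⟨b, hb, hfb, hl, hr⟩ := h.choose ha
  obtain ⟨w, hw, hh⟩ := (h.ef a ha b hb hfb.symm).2.1 u hua
  refine ⟨w, ⟨b, hb, hw⟩, ?_⟩
  rw [BU_split h.linI ha, BU_split h.linJ hb]
  have el := ih hl
  have er := ih hr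
  have e1 : EF Q k (BU (I.filter (fun x => lt x a)) A ∪ A a)
      (BU (J.filter (fun x => lt x b)) B ∪ B b) (add R u w) := by
    refine cross_comm (R₁ := R) (R₂ := add R u w) el hh ?_ ?_ ?_ ?_
    · rintro x ⟨a', ha', hx⟩ x' hx' y ⟨b', hb', hy⟩ y' hy' κ
      simp only [Finset.mem_filter] at ha' hb'
      exact h.cross a' ha'.1 a ha b' hb'.1 b hb ha'.2 hb'.2 x hx x' hx' y hy y' hy' κ
    · intro x y hxy
      exact Or.inr (Or.inl hxy)
    · intro x y hxy
      rcases hxy with hxy | ⟨rfl, rfl⟩
      · exact Or.inr hxy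
      · exact Or.inl ⟨hua, hw⟩
    · intro x y hxy
      exact Or.inr hxy
  refine cross_comm (R₁ := add R u w) (R₂ := R) e1 er ?_ ?_ ?_ ?_
  · rintro x hx x' ⟨a'', ha'', hx'⟩ y hy y' ⟨b'', hb'', hy'⟩ κ
    simp only [Finset.mem_filter] at ha'' hb''
    have fx : ∃ a' ∈ I, lt a' a'' ∧ x ∈ A a' := by
      rcases hx with ⟨a', ha', hx⟩ | hx
      · simp only [Finset.mem_filter] at ha'
        exact ⟨a', ha'.1, h.linI.tr _ ha'.1 _ ha _ ha''.1 ha'.2 ha''.2, hx⟩
      · exact ⟨a, ha, ha''.2, hx⟩
    have fy : ∃ b' ∈ J, lt b' b'' ∧ y ∈ B b' := by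
      rcases hy with ⟨b', hb', hy⟩ | hy
      · simp only [Finset.mem_filter] at hb'
        exact ⟨b', hb'.1, h.linJ.tr _ hb'.1 _ hb _ hb''.1 hb'.2 hb''.2, hy⟩
      · exact ⟨b, hb, hb''.2, hy⟩
    obtain ⟨a', ha', hlt, hx⟩ := fx
    obtain ⟨b', hb', hlt', hy⟩ := fy
    exact h.cross a' ha' a'' ha''.1 b' hb' b'' hb''.1 hlt hlt' x hx x' hx' y hy y' hy' κ
  · intro x y hxy
    rcases hxy with hxy | ⟨rfl, rfl⟩
    · exact Or.inr hxy
    · exact Or.inl ⟨Or.inr hua, Or.inr hw⟩
  · intro x y hxy
    exact Or.inr (Or.inl hxy)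
  · intro x y hxy
    exact Or.inl hxy

theorem GHyp.ef_union : ∀ {k : ℕ} {I J : Finset V} {A B : V → Set V} {R : V → V → Prop},
    GHyp Q lt f k I J A B R → EF Q k (BU I A) (BU J B) R := by
  intro k
  induction k with
  | zero => intro I J A B R h; exact h.pi
  | succ k ih =>
    intro I J A B R h
    refine ⟨h.pi, ?_, ?_⟩
    · intro u hu
      exact GHyp.forth ih h hu
    · intro w hw
      obtain ⟨u, hu, hh⟩ := GHyp.forth ih h.symm hw
      refine ⟨u, hu, hh.symm.anti ?_⟩
      intro x y hxy
      rcases hxy with hxy | ⟨h1, h2⟩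
      · exact Or.inl hxy
      · exact Or.inr ⟨h2, h1⟩

end Run7.h625
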