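import Mathlib
import Pool.Agent.Run7.h625.Sum

/-!
# Forest orders and the orders induced by orders of siblings
-/

namespace Run7.h625

variable {V : Type}

/-- A forest order. -/
structure Forest (anc : V → V → Prop) : Prop where
  refl : ∀ x, anc x x
  antisymm : ∀ x y, anc x y → anc y x → x = y
  trans : ∀ x y z, anc x y → anc y z → anc x z
  chain : ∀ x y z, anc x z → anc y z → anc x y ∨ anc y x

/-- strict ancestor -/
def sa (anc : V → V → Prop) (x y : V) : Prop := anc x y ∧ x ≠ y

/-- the same strict ancestors -/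
def sib (anc : V → V → Prop) (x y : V) : Prop := ∀ z, sa anc z x ↔ sa anc z y

/-- the subtree below `x` -/
def Tr (anc : V → V → Prop) (x : V) : Set V := {v | anc x v}

/-- the order induced by an order of the siblings -/
def less (anc L : V → V → Prop) (u v : V) : Prop :=
  sa anc u v ∨ ∃ a b, anc a u ∧ anc b v ∧ sib anc a b ∧ L a b

/-- `L` is a strict linear order on each set of siblings -/
structure SibLin (anc L : V → V → Prop) : Prop where
  irr : ∀ x, ¬ L x x
  tr : ∀ x y z, sib anc x y → sib anc y z → L x y → L y z → L x z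
  tri : ∀ x y, sib anc x y → L x y ∨ x = y ∨ L y x

variable {anc : V → V → Prop} {L : V → V → Prop}

theorem sib_refl (x : V) : sib anc x x := fun _ => Iff.rfl

theorem sib_symm {x y : V} (h : sib anc x y) : sib anc y x := fun z => (h z).symm

theorem sib_trans {x y z : V} (h : sib anc x y) (h' : sib anc y z) : sib anc x z :=
  fun t => (h t).trans (h' t)

theorem Forest.sa_or (hF : Forest anc) {x y : V} (h : anc x y) : x = y ∨ sa anc x y := by
  by_cases hxy : x = y
  · exact Or.inl hxy
  · exact Or.inr ⟨h, hxy⟩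

theorem Forest.sa_of_sa_of_anc (hF : Forest anc) {x y z : V} (h : sa anc x y) (h' : anc y z) :
    sa anc x z := by
  refine ⟨hF.trans _ _ _ h.1 h', ?_⟩
  rintro rfl
  exact h.2 (hF.antisymm _ _ h.1 h')

theorem Forest.sa_of_anc_of_sa (hF : Forest anc) {x y z : V} (h : anc x y) (h' : sa anc y z) :
    sa anc x z := by
  refine ⟨hF.trans _ _ _ h h'.1, ?_⟩
  rintro rfl
  exact h'.2 (hF.antisymm _ _ h'.1 h)

theorem sa_irr (x : V) : ¬ sa anc x x := fun h => h.2 rfl

theorem sib_eq_of_anc {a b : V} (h : sib anc a b) (hab : anc a b) : a = b := by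
  by_contra hne
  exact sa_irr a ((h a).2 ⟨hab, hne⟩)

theorem sib_eq_of_anc' {a b : V} (h : sib anc a b) (hab : anc b a) : a = b :=
  (sib_eq_of_anc (sib_symm h) hab).symm

theorem Forest.sib_eq (hF : Forest anc) {a b u : V} (h : sib anc a b) (ha : anc a u)
    (hb : anc b u) : a = b := by
  rcases hF.chain _ _ _ ha hb with h' | h'
  · exact sib_eq_of_anc h h'
  · exact sib_eq_of_anc' h h'

theorem Forest.incomp (hF : Forest anc) {a b u v : V} (h : sib anc a b) (hne : a ≠ b)
    (ha : anc a u) (hb : anc b v) : ¬ anc u v :=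
  fun huv => hne (hF.sib_eq h (hF.trans _ _ _ ha huv) hb)

theorem Forest.div_unique (hF : Forest anc) {a b a' b' u v : V} (h : sib anc a b) (hne : a ≠ b)
    (ha : anc a u) (hb : anc b v) (h' : sib anc a' b') (hne' : a' ≠ b')
    (ha' : anc a' u) (hb' : anc b' v) : a = a' ∧ b = b' := by
  have key : ∀ {a b a' b' : V}, sib anc a b → a ≠ b → anc a u → anc b v → sib anc a' b' →
      a' ≠ b' → anc a' u → anc b' v → ¬ sa anc a a' := by
    intro a b a' b' h hne ha hb h' hne' ha' hb' hs
    have h1 : sa anc a b' := (h' a).1 hs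
    exact hne (hF.sib_eq h (hF.trans _ _ _ h1.1 hb') hb)
  have haa : a = a' := by
    rcases hF.chain _ _ _ ha ha' with h1 | h1
    · rcases hF.sa_or h1 with h2 | h2
      · exact h2
      · exact absurd h2 (key h hne ha hb h' hne' ha' hb')
    · rcases hF.sa_or h1 with h2 | h2
      · exact h2.symm
      · exact absurd h2 (key h' hne' ha' hb' h hne ha hb)
  refine ⟨haa, ?_⟩
  subst haa
  exact hF.sib_eq (sib_trans (sib_symm h) h') hb hb'

/-- topmost element with a property which is inherited downwards along the ancestors -/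
theorem Forest.exists_top [Finite V] (hF : Forest anc) (p : V → Prop) {u : V}
    (hu : p u) : ∃ a, anc a u ∧ p a ∧ ∀ z, sa anc z a → ¬ p z := by
  classical
  obtain ⟨a, ha, hmin⟩ := Set.Finite.exists_minimalFor
    (fun x => Set.ncard {z | anc z x}) {a | anc a u ∧ p a} (Set.toFinite _) ⟨u, hF.refl u, hu⟩
  refine ⟨a, ha.1, ha.2, ?_⟩
  intro z hz hpz
  have h1 : ({w | anc w z} : Set V).ncard < ({w | anc w a} : Set V).ncard := by
    apply Set.ncard_lt_ncard _ (Set.toFinite _)
    refine ⟨fun w hw => hF.trans _ _ _ hw hz.1, ?_⟩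
    intro hh
    have : anc a z := hh (hF.refl a)
    exact hz.2 (hF.antisymm _ _ hz.1 this)
  have h2 := hmin (j := z) ⟨hF.trans _ _ _ hz.1 ha.1, hpz⟩ h1.le
  exact absurd h1 (not_lt.2 h2)

theorem Forest.diverge [Finite V] (hF : Forest anc) {u v : V} (h1 : ¬ anc u v) (h2 : ¬ anc v u) :
    ∃ a b, anc a u ∧ anc b v ∧ sib anc a b ∧ a ≠ b := by
  obtain ⟨a, ha, hav, hamin⟩ := hF.exists_top (fun z => ¬ anc z v) (u := u) h1
  obtain ⟨b, hb, hbu, hbmin⟩ := hF.exists_top (fun z => ¬ anc z u) (u := v) h2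
  refine ⟨a, b, ha, hb, ?_, ?_⟩
  · have key : ∀ {u v a b : V}, anc a u → anc b v → ¬ anc a v → ¬ anc b u →
        (∀ z, sa anc z a → ¬ ¬ anc z v) → ∀ z, sa anc z a → sa anc z b := by
      intro u v a b ha hb hav hbu hamin z hz
      have hzv : anc z v := not_not.1 (hamin z hz)
      rcases hF.chain _ _ _ hzv hb with h | h
      · refine ⟨h, ?_⟩
        rintro rfl
        exact hbu (hF.trans _ _ _ hz.1 ha)
      · exact absurd (hF.trans _ _ _ h (hF.trans _ _ _ hz.1 ha)) hbu
    intro z
    exact ⟨key ha hb hav hbu hamin z, key hb ha hbu hav hbmin z⟩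
  · rintro rfl
    exact hbu ha

theorem Forest.less_iff (hF : Forest anc) (hL : ∀ x, ¬ L x x) {a b u v : V}
    (h : sib anc a b) (hne : a ≠ b) (ha : anc a u) (hb : anc b v) :
    less anc L u v ↔ L a b := by
  constructor
  · rintro (h' | ⟨a', b', ha', hb', hs, hl⟩)
    · exact absurd h'.1 (hF.incomp h hne ha hb)
    · have hne' : a' ≠ b' := by rintro rfl; exact hL _ hl
      obtain ⟨rfl, rfl⟩ := hF.div_unique h hne ha hb hs hne' ha' hb'
      exact hl
  · intro hl
    exact Or.inr ⟨a, b, ha, hb, h, hl⟩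

theorem Forest.less_of_anc (hF : Forest anc) (hL : ∀ x, ¬ L x x) {u v : V} (h : anc u v) :
    less anc L u v ↔ u ≠ v := by
  constructor
  · rintro (h' | ⟨a', b', ha', hb', hs, hl⟩)
    · exact h'.2
    · have := hF.sib_eq hs (hF.trans _ _ _ ha' h) hb'
      subst this
      exact absurd hl (hL _)
  · intro hl
    exact Or.inl ⟨h, hl⟩

theorem Forest.less_of_anc' (hF : Forest anc) (hL : ∀ x, ¬ L x x) {u v : V} (h : anc v u) :
    ¬ less anc L u v := by
  rintro (h' | ⟨a', b', ha', hb', hs, hl⟩)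
  · exact h'.2 (hF.antisymm _ _ h'.1 h)
  · have := hF.sib_eq hs ha' (hF.trans _ _ _ hb' h)
    subst this
    exact absurd hl (hL _)

theorem Forest.less_irr (hF : Forest anc) (hL : ∀ x, ¬ L x x) (u : V) : ¬ less anc L u u :=
  hF.less_of_anc' hL (hF.refl u)

theorem Forest.less_trans (hF : Forest anc) (hL : SibLin anc L) {u v w : V}
    (h1 : less anc L u v) (h2 : less anc L v w) : less anc L u w := by
  rcases h1 with h1 | ⟨a, b, ha, hb, hs, hl⟩
  · rcases h2 with h2 | ⟨a, b, ha, hb, hs, hl⟩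
    · exact Or.inl (hF.sa_of_sa_of_anc h1 h2.1)
    · rcases hF.chain _ _ _ ha h1.1 with h | h
      · exact Or.inr ⟨a, b, h, hb, hs, hl⟩
      · rcases hF.sa_or h with rfl | h
        · exact Or.inr ⟨u, b, hF.refl u, hb, hs, hl⟩
        · exact Or.inl (hF.sa_of_sa_of_anc ((hs u).1 h) hb)
  · rcases h2 with h2 | ⟨c, d, hc, hd, hs', hl'⟩
    · exact Or.inr ⟨a, b, ha, hF.trans _ _ _ hb h2.1, hs, hl⟩
    · rcases hF.chain _ _ _ hb hc with h | h
      · rcases hF.sa_or h with rfl | h
        · exact Or.inr ⟨a, d, ha, hd, sib_trans hs hs', hL.tr _ _ _ hs hs' hl hl'⟩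
        · exact Or.inr ⟨a, b, ha, hF.trans _ _ _ ((hs' b).1 h).1 hd, hs, hl⟩
      · rcases hF.sa_or h with rfl | h
        · exact Or.inr ⟨a, d, ha, hd, sib_trans hs hs', hL.tr _ _ _ hs hs' hl hl'⟩
        · exact Or.inr ⟨c, d, hF.trans _ _ _ ((hs c).2 h).1 ha, hd, hs', hl'⟩

theorem Forest.less_tri [Finite V] (hF : Forest anc) (hL : SibLin anc L) (u v : V) :
    less anc L u v ∨ u = v ∨ less anc L v u := by
  by_cases h1 : anc u v
  · rcases hF.sa_or h1 with h | h
    · exact Or.inr (Or.inl h)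
    · exact Or.inl (Or.inl h)
  · by_cases h2 : anc v u
    · rcases hF.sa_or h2 with h | h
      · exact Or.inr (Or.inl h.symm)
      · exact Or.inr (Or.inr (Or.inl h))
    · obtain ⟨a, b, ha, hb, hs, hne⟩ := hF.diverge h1 h2
      rcases hL.tri a b hs with h | h | h
      · exact Or.inl (Or.inr ⟨a, b, ha, hb, hs, h⟩)
      · exact absurd h hne
      · exact Or.inr (Or.inr (Or.inr ⟨b, a, hb, ha, sib_symm hs, h⟩))

/-- The family of all relations, with equality and the order. -/
def QQ {ι : Type} (anc L : V → V → Prop) (Q : ι → V → V → Prop) :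
    Option (Option ι) → V → V → Prop
  | none => fun x y => x = y
  | some none => less anc L
  | some (some κ) => Q κ

/-- `Q` relates comparable elements only -/
def Comparable {ι : Type} (anc : V → V → Prop) (Q : ι → V → V → Prop) : Prop :=
  ∀ κ x y, Q κ x y → anc x y ∨ anc y x

theorem Forest.cross {ι : Type} {Q : ι → V → V → Prop} (hF : Forest anc)
    (hQ : Comparable anc Q) (hL : ∀ x, ¬ L x x) (hL' : ∀ x y, sib anc x y → L x y → ¬ L y x)
    {a a' b b' u u' w w' : V}
    (h : sib anc a a') (hl : L a a') (h' : sib anc b b') (hl' : L b b')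
    (hu : anc a u) (hu' : anc a' u') (hw : anc b w) (hw' : anc b' w') (κ : Option (Option ι)) :
    (QQ anc L Q κ u u' ↔ QQ anc L Q κ w w') ∧ (QQ anc L Q κ u' u ↔ QQ anc L Q κ w' w) := by
  have hne : a ≠ a' := by rintro rfl; exact hL _ hl
  have hne' : b ≠ b' := by rintro rfl; exact hL _ hl'
  have i1 := hF.incomp h hne hu hu'
  have i2 := hF.incomp (sib_symm h) hne.symm hu' hu
  have i3 := hF.incomp h' hne' hw hw'
  have i4 := hF.incomp (sib_symm h') hne'.symm hw' hw
  match κ with
  | none =>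
    refine ⟨⟨?_, ?_⟩, ⟨?_, ?_⟩⟩
    · intro h; exact absurd (h ▸ hF.refl _) i1
    · intro h; exact absurd (h ▸ hF.refl _) i3
    · intro h; exact absurd (h ▸ hF.refl _) i2
    · intro h; exact absurd (h ▸ hF.refl _) i4
  | some none =>
    show (less anc L u u' ↔ less anc L w w') ∧ (less anc L u' u ↔ less anc L w' w)
    rw [hF.less_iff hL h hne hu hu', hF.less_iff hL h' hne' hw hw',
      hF.less_iff hL (sib_symm h) hne.symm hu' hu, hF.less_iff hL (sib_symm h') hne'.symm hw' hw]
    have := hL' _ _ h hl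
    have := hL' _ _ h' hl'
    tauto
  | some (some κ) =>
    show (Q κ u u' ↔ Q κ w w') ∧ (Q κ u' u ↔ Q κ w' w)
    have e1 : ¬ Q κ u u' := fun h => by rcases hQ _ _ _ h with h | h <;> tauto
    have e2 : ¬ Q κ w w' := fun h => by rcases hQ _ _ _ h with h | h <;> tauto
    have e3 : ¬ Q κ u' u := fun h => by rcases hQ _ _ _ h with h | h <;> tauto
    have e4 : ¬ Q κ w' w := fun h => by rcases hQ _ _ _ h with h | h <;> tauto
    tauto

end Run7.h625
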