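import Mathlib
import Pool.Agent.Run7.h625.Forest

/-!
# Block decompositions of hypergraphs: a forest order in which all hyperedges are chains
-/

namespace Run7.h625

open Relation

variable {V : Type}

/-- The relation which generates the strict forest order. -/
def upR (In : V → V → Prop) (h : V → V) (pos : V → ℕ) (A : Finset V) (u v : V) : Prop :=
  u ≠ v ∧ u ∈ A ∧ v ∈ A ∧ ∃ b ∈ A, In (h v) b ∧ h u = h b ∧ (h b = h v → pos u < pos v)

/-- common hyperedge inside of `A` -/
def share (In : V → V → Prop) (A : Finset V) (x y : V) : Prop :=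
  x ∈ A ∧ y ∈ A ∧ ∃ w, In w x ∧ In w y

/-- The properties of the decomposition of `A`, in the context `B`. -/
structure Good (In : V → V → Prop) (d : ℕ) (A : Finset V) (B : Set V) (h : V → V) (pos : V → ℕ)
    (anc : V → V → Prop) : Prop where
  mem : ∀ x ∈ A, In (h x) x
  dom : ∀ x y, anc x y → x ∈ A ∧ y ∈ A
  refl : ∀ x ∈ A, anc x x
  antisymm : ∀ x y, anc x y → anc y x → x = y
  trans : ∀ x y z, anc x y → anc y z → anc x z
  chain : ∀ x y z, anc x z → anc y z → anc x y ∨ anc y x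
  hyper : ∀ w, ∀ x ∈ A, ∀ y ∈ A, In w x → In w y → anc x y ∨ anc y x
  sound : ∀ u v, upR In h pos A u v → anc u v
  complete : ∀ u v, anc u v → u ≠ v → TransGen (upR In h pos A) u v
  ctx : B.Nonempty → ∀ v ∈ A, ∃ v' ∈ A, ReflTransGen (upR In h pos A) v' v ∧ ∃ b ∈ B, In (h v') b
  poslt : ∀ u ∈ A, pos u < d + 1

theorem share_symm {In : V → V → Prop} {A : Finset V} {x y : V} (h : share In A x y) :
    share In A y x := by
  obtain ⟨h1, h2, w, h3, h4⟩ := h
  exact ⟨h2, h1, w, h4, h3⟩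

theorem conn_symm {In : V → V → Prop} {A : Finset V} {x y : V}
    (h : ReflTransGen (share In A) x y) : ReflTransGen (share In A) y x := by
  induction h with
  | refl => exact ReflTransGen.refl
  | tail _ hbc ih => exact ReflTransGen.head (share_symm hbc) ih

open Classical in
theorem exists_good [Fintype V] {In : V → V → Prop} {d : ℕ} (hrefl : ∀ x, In x x)
    (hcard : ∀ w, (Finset.univ.filter (fun x => In w x)).card ≤ d + 1) : ∀ (n : ℕ) (A : Finset V)
    (B : Set V), A.card ≤ n →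
    (B.Nonempty → ∀ x ∈ A, ∃ y ∈ A, ReflTransGen (share In A) x y ∧
      ∃ w, In w y ∧ ∃ b ∈ B, In w b) →
    ∃ h pos anc, Good In d A B h pos anc := by
  intro n
  induction n with
  | zero =>
    intro A B hA _
    have : A = ∅ := Finset.card_eq_zero.1 (by omega)
    subst this
    exact ⟨fun x => x, fun _ => 0, fun _ _ => False, by simp, by simp, by simp, by simp, by simp,
      by simp, by simp, by simp [upR], by simp, by simp, by simp⟩
  | succ n ih =>
    intro A B hA htouch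
    by_cases hAe : A = ∅
    · subst hAe
      exact ⟨fun x => x, fun _ => 0, fun _ _ => False, by simp, by simp, by simp, by simp,
        by simp, by simp, by simp, by simp [upR], by simp, by simp, by simp⟩
    obtain ⟨x0, hx0⟩ := Finset.nonempty_iff_ne_empty.2 hAe
    -- the first hyperedge
    have hchoose : ∃ u y, y ∈ A ∧ In u y ∧ (B.Nonempty → ∃ b ∈ B, In u b) := by
      by_cases hB : B.Nonempty
      · obtain ⟨y, hy, _, w, hwy, b, hb, hwb⟩ := htouch hB x0 hx0
        exact ⟨w, y, hy, hwy, fun _ => ⟨b, hb, hwb⟩⟩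
      · exact ⟨x0, x0, hx0, hrefl x0, fun h => absurd h hB⟩
    obtain ⟨u, y, hyA, huy, huB⟩ := hchoose
    set B1 : Finset V := A.filter (fun x => In u x) with hB1
    set K : Finset V := A.filter (fun z => ReflTransGen (share In A) y z) with hK
    set A1 : Finset V := K \ B1 with hA1
    set A2 : Finset V := A \ K with hA2
    have mB1 : ∀ x, x ∈ B1 ↔ x ∈ A ∧ In u x := fun x => by simp [hB1]
    have mK : ∀ x, x ∈ K ↔ x ∈ A ∧ ReflTransGen (share In A) y x := fun x => by simp [hK]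
    have mA1 : ∀ x, x ∈ A1 ↔ x ∈ K ∧ x ∉ B1 := fun x => by simp [hA1]
    have mA2 : ∀ x, x ∈ A2 ↔ x ∈ A ∧ x ∉ K := fun x => by simp [hA2]
    have hB1K : ∀ x, x ∈ B1 → x ∈ K := by
      intro x hx
      rw [mB1] at hx
      rw [mK]
      exact ⟨hx.1, ReflTransGen.single ⟨hyA, hx.1, u, huy, hx.2⟩⟩
    have hKA : ∀ x, x ∈ K → x ∈ A := fun x hx => ((mK x).1 hx).1
    have hA1A : ∀ x, x ∈ A1 → x ∈ A := fun x hx => hKA x ((mA1 x).1 hx).1
    have hA2A : ∀ x, x ∈ A2 → x ∈ A := fun x hx => ((mA2 x).1 hx).1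
    have hyB1 : y ∈ B1 := (mB1 y).2 ⟨hyA, huy⟩
    have hyK : y ∈ K := hB1K y hyB1
    have sepK : ∀ w x y', x ∈ K → y' ∈ A → In w x → In w y' → y' ∈ K := by
      intro w x y' hx hy' h1 h2
      rw [mK] at hx ⊢
      exact ⟨hy', hx.2.tail ⟨hx.1, hy', w, h1, h2⟩⟩
    have notu : ∀ x, x ∈ A → x ∉ B1 → ¬ In u x := fun x hx hxB h => hxB ((mB1 x).2 ⟨hx, h⟩)
    have hc1 : A1.card ≤ n := by
      have : A1.card < A.card := by
        apply Finset.card_lt_card
        rw [Finset.ssubset_iff_of_subset (fun x hx => hA1A x hx)]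
        exact ⟨y, hyA, fun h => ((mA1 y).1 h).2 hyB1⟩
      omega
    have hc2 : A2.card ≤ n := by
      have : A2.card < A.card := by
        apply Finset.card_lt_card
        rw [Finset.ssubset_iff_of_subset (fun x hx => hA2A x hx)]
        exact ⟨y, hyA, fun h => ((mA2 y).1 h).2 hyK⟩
      omega
    have t1 : (B1 : Set V).Nonempty → ∀ x ∈ A1, ∃ y' ∈ A1, ReflTransGen (share In A1) x y' ∧
        ∃ w, In w y' ∧ ∃ b ∈ (B1 : Set V), In w b := by
      intro _ x hx
      have hxK := ((mA1 x).1 hx).1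
      have hpath : ReflTransGen (share In A) x y := conn_symm ((mK x).1 hxK).2
      have hgen : ∀ x, ReflTransGen (share In A) x y → x ∈ A1 → ∃ y' ∈ A1,
          ReflTransGen (share In A1) x y' ∧ ∃ w, In w y' ∧ ∃ b ∈ (B1 : Set V), In w b := by
        intro x hp
        induction hp using ReflTransGen.head_induction_on with
        | refl => intro hyA1; exact absurd hyB1 ((mA1 y).1 hyA1).2
        | head hac _ ih' =>
          rename_i a c _
          intro ha
          obtain ⟨h1, h2, w, h3, h4⟩ := hac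
          have hcK : c ∈ K := sepK w a c ((mA1 a).1 ha).1 h2 h3 h4
          by_cases hcB : c ∈ B1
          · exact ⟨a, ha, ReflTransGen.refl, w, h3, c, hcB, h4⟩
          · have hcA1 : c ∈ A1 := (mA1 c).2 ⟨hcK, hcB⟩
            obtain ⟨y', hy', hp', hw'⟩ := ih' hcA1
            exact ⟨y', hy', ReflTransGen.head ⟨ha, hcA1, w, h3, h4⟩ hp', hw'⟩
      exact hgen x hpath hx
    have t2 : B.Nonempty → ∀ x ∈ A2, ∃ y' ∈ A2, ReflTransGen (share In A2) x y' ∧
        ∃ w, In w y' ∧ ∃ b ∈ B, In w b := by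
      intro hB x hx
      obtain ⟨y', hy', hp, hw⟩ := htouch hB x (hA2A x hx)
      have hgen : ∀ z, ReflTransGen (share In A) x z → z ∈ A2 ∧ ReflTransGen (share In A2) x z := by
        intro z hp
        induction hp with
        | refl => exact ⟨hx, ReflTransGen.refl⟩
        | tail _ hbc ih' =>
          obtain ⟨h1, h2, w, h3, h4⟩ := hbc
          rename_i b c _
          have hcA2 : c ∈ A2 := by
            rw [mA2]
            refine ⟨h2, fun hcK => ?_⟩
            exact ((mA2 b).1 ih'.1).2 (sepK w c b hcK h1 h4 h3)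
          exact ⟨hcA2, ih'.2.tail ⟨ih'.1, hcA2, w, h3, h4⟩⟩
      exact ⟨y', (hgen y' hp).1, (hgen y' hp).2, hw⟩
    obtain ⟨h1, pos1, anc1, g1⟩ := ih A1 (B1 : Set V) hc1 t1
    obtain ⟨h2, pos2, anc2, g2⟩ := ih A2 B hc2 t2
    -- numbering of the first block
    obtain ⟨e, he1, he2⟩ : ∃ e : V → ℕ, (∀ x ∈ B1, ∀ x' ∈ B1, e x = e x' → x = x') ∧
        ∀ x ∈ B1, e x < d + 1 := by
      have hcB : B1.card ≤ d + 1 := by
        refine (Finset.card_le_card ?_).trans (hcard u)
        intro x hx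
        simp only [Finset.mem_filter, Finset.mem_univ, true_and]
        exact ((mB1 x).1 hx).2
      refine ⟨fun x => if hx : x ∈ B1 then (B1.equivFin ⟨x, hx⟩).val else 0, ?_, ?_⟩
      · intro x hx x' hx' hxx
        simp only [hx, hx', dif_pos] at hxx
        exact congrArg Subtype.val (B1.equivFin.injective (Fin.ext hxx))
      · intro x hx
        simp only [hx, dif_pos]
        exact (B1.equivFin ⟨x, hx⟩).isLt.trans_le hcB
    set h : V → V := fun x => if x ∈ B1 then u else if x ∈ K then h1 x else h2 x with hh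
    set pos : V → ℕ := fun x => if x ∈ B1 then e x else if x ∈ K then pos1 x else pos2 x
      with hpos
    have hB : ∀ x ∈ B1, h x = u ∧ pos x = e x := fun x hx => by simp [hh, hpos, hx]
    have hA1' : ∀ x ∈ A1, h x = h1 x ∧ pos x = pos1 x := fun x hx => by
      have := (mA1 x).1 hx
      simp [hh, hpos, this.1, this.2]
    have hA2' : ∀ x ∈ A2, h x = h2 x ∧ pos x = pos2 x := fun x hx => by
      have h3 := (mA2 x).1 hx
      have h4 : x ∉ B1 := fun h => h3.2 (hB1K x h)
      simp [hh, hpos, h3.2, h4]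
    have hcases : ∀ x ∈ A, x ∈ B1 ∨ x ∈ A1 ∨ x ∈ A2 := by
      intro x hx
      by_cases h3 : x ∈ B1
      · exact Or.inl h3
      · by_cases h4 : x ∈ K
        · exact Or.inr (Or.inl ((mA1 x).2 ⟨h4, h3⟩))
        · exact Or.inr (Or.inr ((mA2 x).2 ⟨hx, h4⟩))
    have d12 : ∀ x, x ∈ B1 → x ∉ A1 := fun x hx h => ((mA1 x).1 h).2 hx
    have d13 : ∀ x, x ∈ B1 → x ∉ A2 := fun x hx h => ((mA2 x).1 h).2 (hB1K x hx)
    have d23 : ∀ x, x ∈ A1 → x ∉ A2 := fun x hx h => ((mA2 x).1 h).2 ((mA1 x).1 hx).1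
    have hmem : ∀ x ∈ A, In (h x) x := by
      intro x hx
      rcases hcases x hx with h3 | h3 | h3
      · rw [(hB x h3).1]; exact ((mB1 x).1 h3).2
      · rw [(hA1' x h3).1]; exact g1.mem x h3
      · rw [(hA2' x h3).1]; exact g2.mem x h3
    have hne_u : ∀ x ∈ A, x ∉ B1 → h x ≠ u := by
      intro x hx hxB hxu
      have := hmem x hx
      rw [hxu] at this
      exact notu x hx hxB this
    have mono1 : ∀ a b, upR In h1 pos1 A1 a b → upR In h pos A a b := by
      rintro a b ⟨k1, k2, k3, c, k4, k5, k6, k7⟩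
      refine ⟨k1, hA1A a k2, hA1A b k3, c, hA1A c k4, ?_, ?_, ?_⟩
      · rw [(hA1' b k3).1]; exact k5
      · rw [(hA1' a k2).1, (hA1' c k4).1]; exact k6
      · rw [(hA1' c k4).1, (hA1' b k3).1, (hA1' a k2).2, (hA1' b k3).2]; exact k7
    have mono2 : ∀ a b, upR In h2 pos2 A2 a b → upR In h pos A a b := by
      rintro a b ⟨k1, k2, k3, c, k4, k5, k6, k7⟩
      refine ⟨k1, hA2A a k2, hA2A b k3, c, hA2A c k4, ?_, ?_, ?_⟩
      · rw [(hA2' b k3).1]; exact k5
      · rw [(hA2' a k2).1, (hA2' c k4).1]; exact k6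
      · rw [(hA2' c k4).1, (hA2' b k3).1, (hA2' a k2).2, (hA2' b k3).2]; exact k7
    have hctx1 : ∀ v ∈ A1, ∃ v' ∈ A1, ReflTransGen (upR In h pos A) v' v ∧
        ∀ b ∈ B1, upR In h pos A b v' := by
      intro v hv
      obtain ⟨v', hv', hp, b, hb, hbv⟩ := g1.ctx ⟨y, hyB1⟩ v hv
      refine ⟨v', hv', ReflTransGen.mono mono1 _ _ hp, ?_⟩
      intro b' hb'
      have hbB : b ∈ B1 := hb
      refine ⟨?_, ((mB1 b').1 hb').1, hA1A v' hv', b, ((mB1 b).1 hbB).1, ?_, ?_, ?_⟩
      · rintro rfl; exact d12 _ hb' hv'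
      · rw [(hA1' v' hv').1]; exact hbv
      · rw [(hB b' hb').1, (hB b hbB).1]
      · intro heq
        rw [(hB b hbB).1] at heq
        exact absurd heq.symm (hne_u v' (hA1A v' hv') (fun h => d12 _ h hv'))
    refine ⟨h, pos, fun a b => (a ∈ B1 ∧ b ∈ B1 ∧ e a ≤ e b) ∨ (a ∈ B1 ∧ b ∈ A1) ∨
      anc1 a b ∨ anc2 a b, hmem, ?_, ?_, ?_, ?_, ?_, ?_, ?_, ?_, ?_, ?_⟩
    · rintro a b (⟨k1, k2, _⟩ | ⟨k1, k2⟩ | k | k)
      · exact ⟨((mB1 a).1 k1).1, ((mB1 b).1 k2).1⟩
      · exact ⟨((mB1 a).1 k1).1, hA1A b k2⟩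
      · exact ⟨hA1A a (g1.dom a b k).1, hA1A b (g1.dom a b k).2⟩
      · exact ⟨hA2A a (g2.dom a b k).1, hA2A b (g2.dom a b k).2⟩
    · intro x hx
      rcases hcases x hx with h3 | h3 | h3
      · exact Or.inl ⟨h3, h3, le_rfl⟩
      · exact Or.inr (Or.inr (Or.inl (g1.refl x h3)))
      · exact Or.inr (Or.inr (Or.inr (g2.refl x h3)))
    · rintro a b (⟨k1, k2, k3⟩ | ⟨k1, k2⟩ | k) (⟨l1, l2, l3⟩ | ⟨l1, l2⟩ | l)
      · exact he1 a k1 b k2 (le_antisymm k3 l3)
      · exact absurd l2 (d12 a k1)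
      · rcases l with l | l
        · exact absurd (g1.dom _ _ l).1 (d12 b k2)
        · exact absurd (g2.dom _ _ l).1 (d13 b k2)
      · exact absurd k2 (d12 b l1)
      · exact absurd k2 (d12 b l1)
      · rcases l with l | l
        · exact absurd (g1.dom _ _ l).2 (d12 a k1)
        · exact absurd (g2.dom _ _ l).2 (d13 a k1)
      · rcases k with k | k
        · exact absurd (g1.dom _ _ k).1 (d12 a l2)
        · exact absurd (g2.dom _ _ k).1 (d13 a l2)
      · rcases k with k | k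
        · exact absurd (g1.dom _ _ k).2 (d12 b l1)
        · exact absurd (g2.dom _ _ k).2 (d13 b l1)
      · rcases k with k | k <;> rcases l with l | l
        · exact g1.antisymm a b k l
        · exact absurd (g2.dom _ _ l).1 (d23 b (g1.dom _ _ k).2)
        · exact absurd (g2.dom _ _ k).1 (d23 a (g1.dom _ _ l).2)
        · exact g2.antisymm a b k l
    · rintro a b c (⟨k1, k2, k3⟩ | ⟨k1, k2⟩ | k | k) (⟨l1, l2, l3⟩ | ⟨l1, l2⟩ | l | l)
      · exact Or.inl ⟨k1, l2, k3.trans l3⟩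
      · exact Or.inr (Or.inl ⟨k1, l2⟩)
      · exact absurd (g1.dom _ _ l).1 (d12 b k2)
      · exact absurd (g2.dom _ _ l).1 (d13 b k2)
      · exact absurd k2 (d12 b l1)
      · exact absurd k2 (d12 b l1)
      · exact Or.inr (Or.inl ⟨k1, (g1.dom _ _ l).2⟩)
      · exact absurd (g2.dom _ _ l).1 (d23 b k2)
      · exact absurd (g1.dom _ _ k).2 (d12 b l1)
      · exact absurd (g1.dom _ _ k).2 (d12 b l1)
      · exact Or.inr (Or.inr (Or.inl (g1.trans _ _ _ k l)))
      · exact absurd (g2.dom _ _ l).1 (d23 b (g1.dom _ _ k).2)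
      · exact absurd (g2.dom _ _ k).2 (d13 b l1)
      · exact absurd (g2.dom _ _ k).2 (d13 b l1)
      · exact absurd (g2.dom _ _ k).2 (d23 b (g1.dom _ _ l).1)
      · exact Or.inr (Or.inr (Or.inr (g2.trans _ _ _ k l)))
    · rintro a b c (⟨k1, k2, k3⟩ | ⟨k1, k2⟩ | k | k) (⟨l1, l2, l3⟩ | ⟨l1, l2⟩ | l | l)
      · rcases le_total (e a) (e b) with h3 | h3
        · exact Or.inl (Or.inl ⟨k1, l1, h3⟩)
        · exact Or.inr (Or.inl ⟨l1, k1, h3⟩)
      · exact absurd l2 (d12 c k2)
      · exact absurd (g1.dom _ _ l).2 (d12 c k2)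
      · exact absurd (g2.dom _ _ l).2 (d13 c k2)
      · exact absurd k2 (d12 c l2)
      · rcases le_total (e a) (e b) with h3 | h3
        · exact Or.inl (Or.inl ⟨k1, l1, h3⟩)
        · exact Or.inr (Or.inl ⟨l1, k1, h3⟩)
      · exact Or.inl (Or.inr (Or.inl ⟨k1, (g1.dom _ _ l).1⟩))
      · exact absurd (g2.dom _ _ l).2 (d23 c k2)
      · exact absurd (g1.dom _ _ k).2 (d12 c l2)
      · exact Or.inr (Or.inr (Or.inl ⟨l1, (g1.dom _ _ k).1⟩))
      · rcases g1.chain _ _ _ k l with h3 | h3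
        · exact Or.inl (Or.inr (Or.inr (Or.inl h3)))
        · exact Or.inr (Or.inr (Or.inr (Or.inl h3)))
      · exact absurd (g2.dom _ _ l).2 (d23 c (g1.dom _ _ k).2)
      · exact absurd (g2.dom _ _ k).2 (d13 c l2)
      · exact absurd (g2.dom _ _ k).2 (d23 c l2)
      · exact absurd (g2.dom _ _ k).2 (d23 c (g1.dom _ _ l).2)
      · rcases g2.chain _ _ _ k l with h3 | h3
        · exact Or.inl (Or.inr (Or.inr (Or.inr h3)))
        · exact Or.inr (Or.inr (Or.inr (Or.inr h3)))
    · intro w a ha b hb hwa hwb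
      rcases hcases a ha with h3 | h3 | h3
      · rcases hcases b hb with h4 | h4 | h4
        · rcases le_total (e a) (e b) with h5 | h5
          · exact Or.inl (Or.inl ⟨h3, h4, h5⟩)
          · exact Or.inr (Or.inl ⟨h4, h3, h5⟩)
        · exact Or.inl (Or.inr (Or.inl ⟨h3, h4⟩))
        · exact absurd (sepK w a b (hB1K a h3) hb hwa hwb) ((mA2 b).1 h4).2
      · rcases hcases b hb with h4 | h4 | h4
        · exact Or.inr (Or.inr (Or.inl ⟨h4, h3⟩))
        · rcases g1.hyper w a h3 b h4 hwa hwb with h5 | h5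
          · exact Or.inl (Or.inr (Or.inr (Or.inl h5)))
          · exact Or.inr (Or.inr (Or.inr (Or.inl h5)))
        · exact absurd (sepK w a b ((mA1 a).1 h3).1 hb hwa hwb) ((mA2 b).1 h4).2
      · rcases hcases b hb with h4 | h4 | h4
        · exact absurd (sepK w b a (hB1K b h4) ha hwb hwa) ((mA2 a).1 h3).2
        · exact absurd (sepK w b a ((mA1 b).1 h4).1 ha hwb hwa) ((mA2 a).1 h3).2
        · rcases g2.hyper w a h3 b h4 hwa hwb with h5 | h5
          · exact Or.inl (Or.inr (Or.inr (Or.inr h5)))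
          · exact Or.inr (Or.inr (Or.inr (Or.inr h5)))
    · rintro a v ⟨k1, k2, k3, b, k4, k5, k6, k7⟩
      rcases hcases v k3 with h3 | h3 | h3
      · rw [(hB v h3).1] at k5 k7
        have hbB : b ∈ B1 := (mB1 b).2 ⟨k4, k5⟩
        rw [(hB b hbB).1] at k6 k7
        have haB : a ∈ B1 := by
          by_contra hn
          exact hne_u a k2 hn k6
        have := k7 rfl
        rw [(hB a haB).2, (hB v h3).2] at this
        exact Or.inl ⟨haB, h3, this.le⟩
      · have hbK : b ∈ K := sepK (h v) v b ((mA1 v).1 h3).1 k4 (hmem v k3) k5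
        rcases hcases b k4 with h4 | h4 | h4
        · rw [(hB b h4).1] at k6
          have haB : a ∈ B1 := by
            by_contra hn
            exact hne_u a k2 hn k6
          exact Or.inr (Or.inl ⟨haB, h3⟩)
        · rcases hcases a k2 with h5 | h5 | h5
          · rw [(hB a h5).1] at k6
            exact absurd k6.symm (hne_u b k4 (fun h => d12 b h h4))
          · refine Or.inr (Or.inr (Or.inl (g1.sound a v ⟨k1, h5, h3, b, h4, ?_, ?_, ?_⟩)))
            · rw [← (hA1' v h3).1]; exact k5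
            · rw [← (hA1' a h5).1, ← (hA1' b h4).1]; exact k6
            · rw [← (hA1' b h4).1, ← (hA1' v h3).1, ← (hA1' a h5).2, ← (hA1' v h3).2]; exact k7
          · have h6 := hmem a k2
            have h7 := hmem b k4
            rw [← k6] at h7
            exact absurd (sepK (h a) b a hbK k2 h7 h6) ((mA2 a).1 h5).2
        · exact absurd hbK ((mA2 b).1 h4).2
      · have hbK : b ∉ K := fun hbK => ((mA2 v).1 h3).2 (sepK (h v) b v hbK k3 k5 (hmem v k3))
        have h4 : b ∈ A2 := (mA2 b).2 ⟨k4, hbK⟩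
        rcases hcases a k2 with h5 | h5 | h5
        · rw [(hB a h5).1] at k6
          exact absurd k6.symm (hne_u b k4 (fun h => d13 b h h4))
        · have h6 := hmem a k2
          have h7 := hmem b k4
          rw [← k6] at h7
          exact absurd (sepK (h a) a b ((mA1 a).1 h5).1 k4 h6 h7) hbK
        · refine Or.inr (Or.inr (Or.inr (g2.sound a v ⟨k1, h5, h3, b, h4, ?_, ?_, ?_⟩)))
          · rw [← (hA2' v h3).1]; exact k5
          · rw [← (hA2' a h5).1, ← (hA2' b h4).1]; exact k6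
          · rw [← (hA2' b h4).1, ← (hA2' v h3).1, ← (hA2' a h5).2, ← (hA2' v h3).2]; exact k7
    · rintro a v (⟨k1, k2, k3⟩ | ⟨k1, k2⟩ | k | k) hne
      · refine TransGen.single ⟨hne, ((mB1 a).1 k1).1, ((mB1 v).1 k2).1, v, ((mB1 v).1 k2).1,
          hmem v ((mB1 v).1 k2).1, ?_, ?_⟩
        · rw [(hB a k1).1, (hB v k2).1]
        · intro _
          rw [(hB a k1).2, (hB v k2).2]
          exact lt_of_le_of_ne k3 (fun heq => hne (he1 a k1 v k2 heq))
      · obtain ⟨v', hv', hp, hup⟩ := hctx1 v k2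
        exact (TransGen.single (hup a k1)).trans_left hp
      · exact TransGen.mono mono1 _ _ (g1.complete a v k hne)
      · exact TransGen.mono mono2 _ _ (g2.complete a v k hne)
    · intro hBne v hv
      obtain ⟨b, hb, hub⟩ := huB hBne
      rcases hcases v hv with h3 | h3 | h3
      · exact ⟨v, hv, ReflTransGen.refl, b, hb, by rw [(hB v h3).1]; exact hub⟩
      · obtain ⟨v', hv', hp, hup⟩ := hctx1 v h3
        refine ⟨y, hyA, ReflTransGen.head (hup y hyB1) hp, b, hb, ?_⟩
        rw [(hB y hyB1).1]; exact hub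
      · obtain ⟨v', hv', hp, b', hb', hbv⟩ := g2.ctx hBne v h3
        refine ⟨v', hA2A v' hv', ReflTransGen.mono mono2 _ _ hp, b', hb', ?_⟩
        rw [(hA2' v' hv').1]; exact hbv
    · intro x hx
      rcases hcases x hx with h3 | h3 | h3
      · rw [(hB x h3).2]; exact he2 x h3
      · rw [(hA1' x h3).2]; exact g1.poslt x h3
      · rw [(hA2' x h3).2]; exact g2.poslt x h3

end Run7.h625
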