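import Mathlib

/-!
# Colourings of digraphs of bounded out-degree
-/

namespace Run7.h625

open Classical in
/-- A finite digraph with all out-degrees at most `D` has a proper colouring with `2 * D + 1`
colours. -/
theorem exists_colouring {V : Type} [Fintype V] (r : V → V → Prop) (D : ℕ)
    (hr : ∀ x, (Finset.univ.filter (fun y => r x y)).card ≤ D) :
    ∃ c : V → ℕ, (∀ x, c x < 2 * D + 1) ∧ ∀ x y, x ≠ y → r x y → c x ≠ c y := by
  have key : ∀ (n : ℕ) (s : Finset V), s.card = n → ∃ c : V → ℕ, (∀ x, c x < 2 * D + 1) ∧
      ∀ x ∈ s, ∀ y ∈ s, x ≠ y → r x y → c x ≠ c y := by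
    intro n
    induction n with
    | zero =>
      intro s hs
      rw [Finset.card_eq_zero] at hs
      subst hs
      exact ⟨fun _ => 0, fun _ => Nat.succ_pos _, fun x hx => absurd hx (Finset.notMem_empty x)⟩
    | succ n ih =>
      intro s hs
      -- a vertex of small degree
      have hex : ∃ v ∈ s, (s.filter (fun y => r v y ∨ r y v)).card ≤ 2 * D := by
        by_contra hno
        push Not at hno
        have h1 : ∑ v ∈ s, (2 * D + 1) ≤ ∑ v ∈ s, (s.filter (fun y => r v y ∨ r y v)).card :=
          Finset.sum_le_sum (fun v hv => hno v hv)
        have h2 : ∀ v, (s.filter (fun y => r v y ∨ r y v)).card ≤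
            (s.filter (fun y => r v y)).card + (s.filter (fun y => r y v)).card := by
          intro v
          rw [Finset.filter_or]
          exact Finset.card_union_le _ _
        have h3 : ∑ v ∈ s, (s.filter (fun y => r v y)).card =
            ∑ v ∈ s, (s.filter (fun y => r y v)).card := by
          simp only [Finset.card_filter]
          rw [Finset.sum_comm]
        have h4 : ∑ v ∈ s, (s.filter (fun y => r v y)).card ≤ ∑ _v ∈ s, D :=
          Finset.sum_le_sum (fun v _ => (Finset.card_le_card
            (Finset.filter_subset_filter _ (Finset.subset_univ s))).trans (hr v))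
        have h5 : ∑ v ∈ s, (s.filter (fun y => r v y ∨ r y v)).card ≤
            ∑ v ∈ s, (s.filter (fun y => r v y)).card +
              ∑ v ∈ s, (s.filter (fun y => r y v)).card := by
          rw [← Finset.sum_add_distrib]
          exact Finset.sum_le_sum (fun v _ => h2 v)
        simp only [Finset.sum_const, smul_eq_mul] at h1 h4
        rw [← h3] at h5
        rw [hs] at h1 h4
        have h6 : (n + 1) * (2 * D + 1) ≤ (n + 1) * D + (n + 1) * D := by omega
        nlinarith
      obtain ⟨v, hv, hdeg⟩ := hex
      obtain ⟨c, hc1, hc2⟩ := ih (s.erase v) (by rw [Finset.card_erase_of_mem hv, hs]; rfl)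
      -- a free colour
      have hfree : ∃ j ∈ Finset.range (2 * D + 1),
          j ∉ (s.filter (fun y => r v y ∨ r y v)).image c := by
        by_contra hno
        push Not at hno
        have h1 : Finset.range (2 * D + 1) ⊆ (s.filter (fun y => r v y ∨ r y v)).image c :=
          fun j hj => hno j hj
        have h2 := Finset.card_le_card h1
        rw [Finset.card_range] at h2
        have h3 := Finset.card_image_le (s := s.filter (fun y => r v y ∨ r y v)) (f := c)
        omega
      obtain ⟨j, hj, hjn⟩ := hfree
      rw [Finset.mem_range] at hj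
      have hjn' : ∀ y ∈ s, (r v y ∨ r y v) → c y ≠ j := by
        intro y hy hry hcy
        apply hjn
        rw [Finset.mem_image]
        exact ⟨y, by simp only [Finset.mem_filter]; exact ⟨hy, hry⟩, hcy⟩
      refine ⟨Function.update c v j, ?_, ?_⟩
      · intro x
        by_cases hx : x = v
        · subst hx; simpa using hj
        · rw [Function.update_of_ne hx]; exact hc1 x
      · intro x hx y hy hxy hrxy
        by_cases hxv : x = v
        · subst hxv
          rw [Function.update_self, Function.update_of_ne hxy.symm]
          exact (hjn' y hy (Or.inl hrxy)).symm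
        · rw [Function.update_of_ne hxv]
          by_cases hyv : y = v
          · subst hyv
            rw [Function.update_self]
            exact hjn' x hx (Or.inr hrxy)
          · rw [Function.update_of_ne hyv]
            exact hc2 x (Finset.mem_erase.2 ⟨hxv, hx⟩) y (Finset.mem_erase.2 ⟨hyv, hy⟩) hxy hrxy
  obtain ⟨c, h1, h2⟩ := key _ Finset.univ rfl
  exact ⟨c, h1, fun x y => h2 x (Finset.mem_univ x) y (Finset.mem_univ y)⟩

end Run7.h625
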