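import Mathlib
import Pool.Agent.Run7.h625.Forest

/-!
# Existence of normal spanning forests
-/

namespace Run7.h625

variable {V : Type}

/-- a parent function with its depth function -/
def ValidPF (adj : V → V → Prop) (p : V → Option V) (dep : V → ℕ) : Prop :=
  ∀ v, (p v = none → dep v = 0) ∧ ∀ u, p v = some u → adj u v ∧ dep v = dep u + 1

/-- ancestors with respect to a parent function -/
def ancP (p : V → Option V) (x y : V) : Prop := Relation.ReflTransGen (fun b a => p b = some a) y x

theorem ancP_refl (p : V → Option V) (x : V) : ancP p x x := Relation.ReflTransGen.refl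

theorem ancP_trans {p : V → Option V} {x y z : V} (h : ancP p x y) (h' : ancP p y z) :
    ancP p x z := Relation.ReflTransGen.trans h' h

theorem ancP_parent {p : V → Option V} {x y : V} (h : ancP p x y) (hne : x ≠ y) :
    ∃ z, p y = some z ∧ ancP p x z := by
  rcases Relation.ReflTransGen.cases_head h with h1 | ⟨z, h1, h2⟩
  · exact absurd h1.symm hne
  · exact ⟨z, h1, h2⟩

variable {adj : V → V → Prop} {p : V → Option V} {dep : V → ℕ}

theorem ValidPF.dep_le (h : ValidPF adj p dep) {x y : V} (hxy : ancP p x y) : dep x ≤ dep y := by
  induction hxy with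
  | refl => exact le_rfl
  | tail _ hbc ih =>
    have := ((h _).2 _ hbc).2
    omega

theorem ValidPF.dep_lt (h : ValidPF adj p dep) {x y : V} (hxy : ancP p x y) (hne : x ≠ y) :
    dep x < dep y := by
  obtain ⟨z, hz, hxz⟩ := ancP_parent hxy hne
  have h1 := ((h _).2 _ hz).2
  have h2 := h.dep_le hxz
  omega

theorem ValidPF.forest (h : ValidPF adj p dep) : Forest (ancP p) where
  refl := ancP_refl p
  trans := fun _ _ _ => ancP_trans
  antisymm := by
    intro x y h1 h2
    by_contra hne
    have h3 := h.dep_lt h1 hne
    have h4 := h.dep_le h2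
    omega
  chain := by
    intro x y z h1 h2
    have hu : Relator.RightUnique (fun b a : V => p b = some a) := by
      intro a b c hb hc
      have : some b = some c := by rw [← hb, ← hc]
      exact Option.some.inj this
    rcases Relation.ReflTransGen.total_of_right_unique hu h1 h2 with h3 | h3
    · exact Or.inr h3
    · exact Or.inl h3

theorem ValidPF.dep_surj (h : ValidPF adj p dep) : ∀ (n : ℕ) (v : V), dep v = n →
    ∀ j ≤ n, ∃ w, dep w = j := by
  intro n
  induction n with
  | zero => intro v hv j hj; exact ⟨v, by omega⟩
  | succ n ih =>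
    intro v hv j hj
    cases hp : p v with
    | none => have := (h v).1 hp; omega
    | some u =>
      have := ((h v).2 u hp).2
      by_cases hj' : j ≤ n
      · exact ih u (by omega) j hj'
      · exact ⟨v, by omega⟩

theorem ValidPF.dep_card [Fintype V] (h : ValidPF adj p dep) (v : V) : dep v < Fintype.card V := by
  classical
  have h1 : Finset.range (dep v + 1) ⊆ Finset.univ.image dep := by
    intro j hj
    rw [Finset.mem_range] at hj
    obtain ⟨w, hw⟩ := h.dep_surj (dep v) v rfl j (by omega)
    exact Finset.mem_image.2 ⟨w, Finset.mem_univ w, hw⟩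
  have h2 := Finset.card_le_card h1
  have h3 := (Finset.card_image_le (s := (Finset.univ : Finset V)) (f := dep))
  rw [Finset.card_range] at h2
  rw [Finset.card_univ] at h3
  omega

open Classical in
theorem ValidPF.rehang [Fintype V] (h : ValidPF adj p dep) {u v : V} (huv : adj u v)
    (h1 : ¬ ancP p v u) (hd : dep v ≤ dep u) :
    ∃ p' dep', ValidPF adj p' dep' ∧ ∑ x, dep x < ∑ x, dep' x := by
  refine ⟨Function.update p v (some u),
    fun w => if ancP p v w then dep w + (dep u + 1 - dep v) else dep w, ?_, ?_⟩
  · intro w
    by_cases hw : w = v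
    · subst hw
      refine ⟨?_, ?_⟩
      · intro hn
        simp at hn
      · intro x hx
        simp only [Function.update_self, Option.some.injEq] at hx
        subst hx
        refine ⟨huv, ?_⟩
        simp only [ancP_refl, if_true, h1, if_false]
        omega
    · rw [Function.update_of_ne hw]
      refine ⟨?_, ?_⟩
      · intro hn
        have hnot : ¬ ancP p v w := by
          intro hvw
          obtain ⟨z, hz, _⟩ := ancP_parent hvw (Ne.symm hw)
          rw [hn] at hz
          exact absurd hz (by simp)
        simp only [hnot, if_false]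
        exact (h w).1 hn
      · intro x hx
        obtain ⟨ha, hb⟩ := (h w).2 x hx
        refine ⟨ha, ?_⟩
        have hiff : ancP p v w ↔ ancP p v x := by
          constructor
          · intro hvw
            obtain ⟨z, hz, hvz⟩ := ancP_parent hvw (Ne.symm hw)
            rw [hx] at hz
            rw [Option.some.inj hz]
            exact hvz
          · intro hvx
            exact Relation.ReflTransGen.head hx hvx
        by_cases hvw : ancP p v w
        · simp only [hvw, hiff.1 hvw, if_true]
          omega
        · have hvx : ¬ ancP p v x := fun hh => hvw (hiff.2 hh)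
          simp only [hvw, hvx, if_false]
          exact hb
  · apply Finset.sum_lt_sum
    · intro w _
      split_ifs <;> omega
    · refine ⟨v, Finset.mem_univ v, ?_⟩
      simp only [ancP_refl, if_true]
      omega

theorem exists_normal_aux [Fintype V] (hsym : ∀ x y, adj x y → adj y x) : ∀ (n : ℕ)
    (p : V → Option V) (dep : V → ℕ), ValidPF adj p dep →
    Fintype.card V * Fintype.card V - ∑ x, dep x ≤ n →
    ∃ p' dep', ValidPF adj p' dep' ∧ ∀ x y, adj x y → ancP p' x y ∨ ancP p' y x := by
  intro n
  induction n with
  | zero =>
    intro p dep h hn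
    by_cases hall : ∀ x y, adj x y → ancP p x y ∨ ancP p y x
    · exact ⟨p, dep, h, hall⟩
    · exfalso
      push Not at hall
      obtain ⟨x, y, hxy, h1, h2⟩ := hall
      have hlt : ∑ x, dep x < Fintype.card V * Fintype.card V := by
        have hb : ∑ x, dep x < ∑ _x : V, Fintype.card V :=
          Finset.sum_lt_sum_of_nonempty ⟨x, Finset.mem_univ x⟩ (fun v _ => h.dep_card v)
        simpa using hb
      omega
  | succ n ih =>
    intro p dep h hn
    by_cases hall : ∀ x y, adj x y → ancP p x y ∨ ancP p y x
    · exact ⟨p, dep, h, hall⟩
    · push Not at hall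
      obtain ⟨x, y, hxy, h1, h2⟩ := hall
      have hre : ∃ p' dep', ValidPF adj p' dep' ∧ ∑ x, dep x < ∑ x, dep' x := by
        rcases le_total (dep y) (dep x) with hd | hd
        · exact h.rehang hxy h2 hd
        · exact h.rehang (hsym _ _ hxy) h1 hd
      obtain ⟨p', dep', h', hlt⟩ := hre
      exact ih p' dep' h' (by omega)

/-- Every finite graph has a normal spanning forest. -/
theorem exists_normal [Fintype V] (hsym : ∀ x y, adj x y → adj y x) :
    ∃ p dep, ValidPF adj p dep ∧ ∀ x y, adj x y → ancP p x y ∨ ancP p y x :=
  exists_normal_aux hsym _ (fun _ => none) (fun _ => 0)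
    (fun _ => ⟨fun _ => rfl, fun _ h => by simp at h⟩) le_rfl

end Run7.h625
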