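import Mathlib

/-!
# Coloured graphs, first-order logic with an order, monadic second-order logic
-/

namespace Run7.h625

open FirstOrder

/-- A finite graph with `k` colours: a finite set `V` of vertices, a binary edge relation `E` and
`k` unary predicates. -/
structure ColGraph (k : ℕ) where
  /-- the vertices -/
  V : Type
  /-- the graph is finite -/
  fin : Finite V
  /-- the edge relation -/
  E : V → V → Prop
  /-- the colours -/
  P : Fin k → V → Prop

/-- The relation symbols of the vocabulary of ordered graphs with `k` colours. -/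
inductive OGRel (k : ℕ) : ℕ → Type
  | edge : OGRel k 2
  | less : OGRel k 2
  | colour (c : Fin k) : OGRel k 1

/-- The first-order vocabulary of ordered graphs with `k` colours (no function symbols). -/
def OGLang (k : ℕ) : Language := ⟨fun _ => Empty, OGRel k⟩

/-- The graph `G` with the binary relation `r` as the interpretation of the order symbol. -/
def ordStr {k : ℕ} (G : ColGraph k) (r : G.V → G.V → Prop) : (OGLang k).Structure G.V where
  funMap := fun f => Empty.elim f
  RelMap := fun {n} R => match n, R with
    | _, OGRel.edge => fun v => G.E (v 0) (v 1)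
    | _, OGRel.less => fun v => r (v 0) (v 1)
    | _, OGRel.colour c => fun v => G.P c (v 0)

/-- `(G, r)` is a model of the first-order sentence `φ`. -/
def Models {k : ℕ} (G : ColGraph k) (r : G.V → G.V → Prop) (φ : (OGLang k).Sentence) : Prop :=
  @Language.Sentence.Realize (OGLang k) G.V (ordStr G r) φ

/-- The truth value of `φ` on the graph `G` is the same for all linear orders of the vertices. -/
def InvariantOn {k : ℕ} (G : ColGraph k) (φ : (OGLang k).Sentence) : Prop :=
  ∀ o₁ o₂ : LinearOrder G.V, Models G o₁.lt φ ↔ Models G o₂.lt φ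

/-- Monadic second-order formulas over binary relation symbols from `β` and unary predicate
symbols from `γ`, with the free vertex variables `Fin n` and the free set variables `Fin m`. -/
inductive MSO (β γ : Type) : ℕ → ℕ → Type
  | rel {n m : ℕ} (b : β) (x y : Fin n) : MSO β γ n m
  | pred {n m : ℕ} (c : γ) (x : Fin n) : MSO β γ n m
  | eq {n m : ℕ} (x y : Fin n) : MSO β γ n m
  | mem {n m : ℕ} (x : Fin n) (X : Fin m) : MSO β γ n m
  | neg {n m : ℕ} (φ : MSO β γ n m) : MSO β γ n m
  | and {n m : ℕ} (φ ψ : MSO β γ n m) : MSO β γ n m
  | exV {n m : ℕ} (φ : MSO β γ (n + 1) m) : MSO β γ n m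
  | exS {n m : ℕ} (φ : MSO β γ n (m + 1)) : MSO β γ n m

/-- Satisfaction of monadic second-order formulas, where `R` interprets the binary relation
symbols and `P` the unary predicate symbols. -/
def MSO.Sat {β γ V : Type} (R : β → V → V → Prop) (P : γ → V → Prop) :
    ∀ {n m : ℕ}, MSO β γ n m → (Fin n → V) → (Fin m → Set V) → Prop
  | _, _, .rel b x y, e, _ => R b (e x) (e y)
  | _, _, .pred c x, e, _ => P c (e x)
  | _, _, .eq x y, e, _ => e x = e y
  | _, _, .mem x X, e, s => e x ∈ s X
  | _, _, .neg φ, e, s => ¬ φ.Sat R P e s
  | _, _, .and φ ψ, e, s => φ.Sat R P e s ∧ ψ.Sat R P e s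
  | _, _, .exV φ, e, s => ∃ x : V, φ.Sat R P (Fin.cons x e : Fin _ → V) s
  | _, _, .exS φ, e, s => ∃ X : Set V, φ.Sat R P e (Fin.cons X s : Fin _ → Set V)

/-- The two binary relation symbols: the edge relation `E` and a set `F` of edges. -/
inductive ESym
  | E
  | F

/-- The interpretation of the two binary relation symbols. -/
def ESym.interp {V : Type} (E F : V → V → Prop) : ESym → V → V → Prop
  | .E => E
  | .F => F

/-- `F` is a set of edges of `G`. -/
def IsEdgeSet {k : ℕ} (G : ColGraph k) (F : G.V → G.V → Prop) : Prop :=
  (∀ x y, F x y → F y x) ∧ ∀ x y, F x y → G.E x y ∨ G.E y x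

/-- `G` is obtained from a graph with an orientation of out-degree at most `d` by exchanging edges
and non-edges between some pairs of the classes of a partition of the vertices into `q` parts: for
distinct vertices `x`, `y` the truth value of `E x y` depends only on the classes of `x` and `y`,
except for the pairs covered by a relation `o` of out-degree at most `d`. -/
def NearSparse (q d : ℕ) {k : ℕ} (G : ColGraph k) : Prop :=
  ∃ (κ : G.V → Fin q) (T : Fin q → Fin q → Prop) (o : G.V → G.V → Prop),
    (∀ x, {y | o x y}.ncard ≤ d) ∧
      ∀ x y, x ≠ y → ¬ (G.E x y ↔ T (κ x) (κ y)) → o x y ∨ o y x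

end Run7.h625
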