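import Mathlib
import Pool.Agent.Run7.h625.Basic
import Pool.Agent.Run7.h625.EF

/-!
# Relativised evaluation of first-order formulas
-/

namespace Run7.h625

open FirstOrder FirstOrder.Language

variable {k : ℕ}

/-- quantifier depth -/
def qd : ∀ {n : ℕ}, (OGLang k).BoundedFormula Empty n → ℕ
  | _, .falsum => 0
  | _, .equal _ _ => 0
  | _, .rel _ _ => 0
  | _, .imp φ ψ => max (qd φ) (qd ψ)
  | _, .all φ => qd φ + 1

/-- the variable of a term -/
def tv : ∀ {n : ℕ}, (OGLang k).Term (Empty ⊕ Fin n) → Fin n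
  | _, .var (Sum.inr i) => i
  | _, .var (Sum.inl e) => Empty.elim e
  | _, .func f _ => Empty.elim f

theorem tv_realize {V : Type} (M : (OGLang k).Structure V) {n : ℕ}
    (t : (OGLang k).Term (Empty ⊕ Fin n)) (v : Fin n → V) (e : Empty → V) :
    @Term.realize (OGLang k) V M _ (Sum.elim e v) t = v (tv t) := by
  cases t with
  | var a =>
    cases a with
    | inl a => exact Empty.elim a
    | inr i => rfl
  | func f ts => exact Empty.elim f

/-- interpretation of the relation symbols -/
def atom {V : Type} (E lt : V → V → Prop) (P : Fin k → V → Prop) : ∀ {l : ℕ}, OGRel k l →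
    (Fin l → V) → Prop
  | _, OGRel.edge, v => E (v 0) (v 1)
  | _, OGRel.less, v => lt (v 0) (v 1)
  | _, OGRel.colour c, v => P c (v 0)

/-- evaluation with all quantifiers relativised to `D` -/
def relSat {V : Type} (E lt : V → V → Prop) (P : Fin k → V → Prop) (D : Set V) : ∀ {n : ℕ},
    (OGLang k).BoundedFormula Empty n → (Fin n → V) → Prop
  | _, .falsum, _ => False
  | _, .equal t₁ t₂, v => v (tv t₁) = v (tv t₂)
  | _, .rel R ts, v => atom E lt P R (fun i => v (tv (ts i)))
  | _, .imp φ ψ, v => relSat E lt P D φ v → relSat E lt P D ψ v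
  | _, .all φ, v => ∀ x ∈ D, relSat E lt P D φ (Fin.snoc v x : Fin _ → V)

theorem relSat_univ (G : ColGraph k) (r : G.V → G.V → Prop) : ∀ {n : ℕ}
    (φ : (OGLang k).BoundedFormula Empty n) (v : Fin n → G.V) (e : Empty → G.V),
    @BoundedFormula.Realize (OGLang k) G.V (ordStr G r) Empty n φ e v ↔
      relSat G.E r G.P Set.univ φ v := by
  intro n φ
  induction φ with
  | falsum => intro v e; exact Iff.rfl
  | equal t₁ t₂ =>
    intro v e
    show (@Term.realize (OGLang k) G.V (ordStr G r) _ (Sum.elim e v) t₁ =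
      @Term.realize (OGLang k) G.V (ordStr G r) _ (Sum.elim e v) t₂) ↔ _
    rw [tv_realize, tv_realize]
    exact Iff.rfl
  | rel R ts =>
    intro v e
    show (@Structure.RelMap (OGLang k) G.V (ordStr G r) _ R
      (fun i => @Term.realize (OGLang k) G.V (ordStr G r) _ (Sum.elim e v) (ts i))) ↔ _
    simp only [tv_realize]
    show (@Structure.RelMap (OGLang k) G.V (ordStr G r) _ R (fun i => v (tv (ts i)))) ↔
      atom G.E r G.P R (fun i => v (tv (ts i)))
    revert ts
    cases R with
    | edge => intro ts; exact Iff.rfl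
    | less => intro ts; exact Iff.rfl
    | colour c => intro ts; exact Iff.rfl
  | imp φ ψ ih1 ih2 =>
    intro v e
    show (@BoundedFormula.Realize (OGLang k) G.V (ordStr G r) Empty _ φ e v →
      @BoundedFormula.Realize (OGLang k) G.V (ordStr G r) Empty _ ψ e v) ↔ _
    rw [ih1, ih2]
    exact Iff.rfl
  | all φ ih =>
    intro v e
    show (∀ x, @BoundedFormula.Realize (OGLang k) G.V (ordStr G r) Empty _ φ e (Fin.snoc v x)) ↔
      ∀ x ∈ Set.univ, relSat G.E r G.P Set.univ φ (Fin.snoc v x)
    constructor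
    · intro h x _
      exact (ih _ e).1 (h x)
    · intro h x
      exact (ih _ e).2 (h x trivial)

/-- `r` is determined by the family `q` -/
def Det {V K : Type} (q : K → V → V → Prop) (r : V → V → Prop) : Prop :=
  ∀ R : V → V → Prop, PI q R → ∀ u w u' w', R u w → R u' w' → (r u u' ↔ r w w')

theorem snoc_rel {V : Type} {R : V → V → Prop} {n : ℕ} {v w : Fin n → V}
    (h : ∀ i, R (v i) (w i)) (x y : V) :
    ∀ i, add R x y ((Fin.snoc v x : Fin (n + 1) → V) i) ((Fin.snoc w y : Fin (n + 1) → V) i) := by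
  intro i
  refine Fin.lastCases ?_ (fun j => ?_) i
  · simp only [Fin.snoc_last]
    exact Or.inr ⟨rfl, rfl⟩
  · simp only [Fin.snoc_castSucc]
    exact Or.inl (h j)

theorem EF_relSat {V K : Type} {q : K → V → V → Prop} {E lt : V → V → Prop}
    {P : Fin k → V → Prop} (heq : Det q Eq) (hE : Det q E) (hlt : Det q lt)
    (hP : ∀ c, Det q (fun x y => x = y ∧ P c x)) :
    ∀ {n : ℕ} (φ : (OGLang k).BoundedFormula Empty n) {j : ℕ} {A B : Set V}
    {R : V → V → Prop} {v w : Fin n → V}, EF q j A B R → (∀ i, R (v i) (w i)) → qd φ ≤ j →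
    (relSat E lt P A φ v ↔ relSat E lt P B φ w) := by
  intro n φ
  induction φ with
  | falsum => intro j A B R v w _ _ _; exact Iff.rfl
  | equal t₁ t₂ =>
    intro j A B R v w h hR _
    exact heq R h.pi _ _ _ _ (hR _) (hR _)
  | rel R' ts =>
    intro j A B R v w h hR _
    show atom E lt P R' (fun i => v (tv (ts i))) ↔ atom E lt P R' (fun i => w (tv (ts i)))
    revert ts
    cases R' with
    | edge => intro ts _; exact hE R h.pi _ _ _ _ (hR _) (hR _)
    | less => intro ts _; exact hlt R h.pi _ _ _ _ (hR _) (hR _)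
    | colour c =>
      intro ts _
      have := hP c R h.pi _ _ _ _ (hR (tv (ts 0))) (hR (tv (ts 0)))
      show P c (v (tv (ts 0))) ↔ P c (w (tv (ts 0)))
      simpa using this
  | imp φ ψ ih1 ih2 =>
    intro j A B R v w h hR hq
    have hq' : max (qd φ) (qd ψ) ≤ j := hq
    show (relSat E lt P A φ v → relSat E lt P A ψ v) ↔ (relSat E lt P B φ w → relSat E lt P B ψ w)
    rw [ih1 h hR (le_trans (le_max_left _ _) hq'), ih2 h hR (le_trans (le_max_right _ _) hq')]
  | all φ ih =>
    intro j A B R v w h hR hq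
    have hq' : qd φ + 1 ≤ j := hq
    obtain ⟨j, rfl⟩ : ∃ j', j = j' + 1 := ⟨j - 1, by omega⟩
    show (∀ x ∈ A, relSat E lt P A φ (Fin.snoc v x)) ↔ (∀ x ∈ B, relSat E lt P B φ (Fin.snoc w x))
    constructor
    · intro hA y hy
      obtain ⟨x, hx, hh⟩ := h.2.2 y hy
      exact (ih hh (snoc_rel hR x y) (by omega)).1 (hA x hx)
    · intro hB x hx
      obtain ⟨y, hy, hh⟩ := h.2.1 x hx
      exact (ih hh (snoc_rel hR x y) (by omega)).2 (hB y hy)

theorem relSat_congr {V : Type} {E lt lt' : V → V → Prop} {P : Fin k → V → Prop} {D : Set V}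
    (hlt : ∀ x ∈ D, ∀ y ∈ D, (lt x y ↔ lt' x y)) :
    ∀ {n : ℕ} (φ : (OGLang k).BoundedFormula Empty n) (v : Fin n → V), (∀ i, v i ∈ D) →
    (relSat E lt P D φ v ↔ relSat E lt' P D φ v) := by
  intro n φ
  induction φ with
  | falsum => intro v _; exact Iff.rfl
  | equal t₁ t₂ => intro v _; exact Iff.rfl
  | rel R' ts =>
    intro v hv
    show atom E lt P R' (fun i => v (tv (ts i))) ↔ atom E lt' P R' (fun i => v (tv (ts i)))
    revert ts
    cases R' with
    | edge => intro ts; exact Iff.rfl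
    | less => intro ts; exact hlt _ (hv _) _ (hv _)
    | colour c => intro ts; exact Iff.rfl
  | imp φ ψ ih1 ih2 =>
    intro v hv
    show (relSat E lt P D φ v → relSat E lt P D ψ v) ↔
      (relSat E lt' P D φ v → relSat E lt' P D ψ v)
    rw [ih1 v hv, ih2 v hv]
  | all φ ih =>
    intro v hv
    show (∀ x ∈ D, relSat E lt P D φ (Fin.snoc v x)) ↔ (∀ x ∈ D, relSat E lt' P D φ (Fin.snoc v x))
    refine forall₂_congr fun x hx => ih _ ?_
    intro i
    refine Fin.lastCases ?_ (fun j => ?_) i
    · rw [Fin.snoc_last]; exact hx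
    · rw [Fin.snoc_castSucc]; exact hv j

end Run7.h625
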