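import Mathlib
import Pool.Agent.Run7.h625.Forest

/-!
# Pruning a forest does not change the types
-/

namespace Run7.h625

variable {V : Type}

/-- the identity on `S` -/
def idOn (S : Set V) : V → V → Prop := fun u w => u = w ∧ u ∈ S

open Classical in
/-- The hypotheses of the pruning lemma. -/
structure PHyp {ι : Type} [Fintype V] (anc L : V → V → Prop) (Q : ι → V → V → Prop) (f : V → ℕ)
    (k : ℕ) (U : Set V) : Prop where
  forest : Forest anc
  comp : Comparable anc Q
  lin : SibLin anc L
  mono : ∀ a b, sib anc a b → L a b → f a ≤ f b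
  ef : ∀ a b, sib anc a b → f a = f b →
    EF (QQ anc L Q) k (Tr anc a) (Tr anc b) (idOn {z | sa anc z a})
  closed : ∀ u v, anc u v → v ∈ U → u ∈ U
  left : ∀ a, a ∉ U → (∀ z, sa anc z a → z ∈ U) → thr k ≤
    (Finset.univ.filter (fun b => sib anc a b ∧ f b = f a ∧ b ∈ U ∧ L b a)).card
  right : ∀ a, a ∉ U → (∀ z, sa anc z a → z ∈ U) → thr k ≤
    (Finset.univ.filter (fun b => sib anc a b ∧ f b = f a ∧ b ∈ U ∧ L a b)).card

theorem SibLin.asymm {anc L : V → V → Prop} (h : SibLin anc L) :
    ∀ x y, sib anc x y → L x y → ¬ L y x :=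
  fun x y hs h1 h2 => h.irr x (h.tr x y x hs (sib_symm hs) h1 h2)

theorem idOn_pi {K : Type} (Q : K → V → V → Prop) (S : Set V) : PI Q (idOn S) := by
  intro u w u' w' h1 h2 κ
  rw [h1.1, h2.1]

variable {ι : Type} [Fintype V] {anc L : V → V → Prop} {Q : ι → V → V → Prop} {f : V → ℕ}
    {k : ℕ} {U : Set V}

theorem SibLin.slin (h : SibLin anc L) {I : Finset V} (hI : ∀ a ∈ I, ∀ b ∈ I, sib anc a b) :
    SLin L I :=
  ⟨fun x _ => h.irr x, fun x hx y hy z hz => h.tr x y z (hI x hx y hy) (hI y hy z hz),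
    fun x hx y hy => h.tri x y (hI x hx y hy)⟩

open Classical in
theorem PHyp.part (h : PHyp anc L Q f k U) {D : Set V} {I : Finset V}
    (hI : ∀ a ∈ I, ∀ z, sa anc z a ↔ z ∈ D)
    (hthr : ∀ a ∈ I, a ∉ U → thr k ≤ (I.filter (fun b => f b = f a ∧ b ∈ U)).card)
    (hEF : ∀ a ∈ I, a ∈ U → EF (QQ anc L Q) k (Tr anc a) (Tr anc a ∩ U) (idOn D)) :
    EF (QQ anc L Q) k (BU I (Tr anc)) (BU (I.filter (fun b => b ∈ U)) (fun a => Tr anc a ∩ U))
      (idOn D) := by
  have hsib : ∀ a ∈ I, ∀ b ∈ I, sib anc a b := fun a ha b hb z =>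
    (hI a ha z).trans (hI b hb z).symm
  have hsib' : ∀ a ∈ I.filter (fun b => b ∈ U), ∀ b ∈ I.filter (fun b => b ∈ U), sib anc a b :=
    fun a ha b hb => hsib a (Finset.mem_of_mem_filter a ha) b (Finset.mem_of_mem_filter b hb)
  have hg : GHyp (QQ anc L Q) L f k I (I.filter (fun b => b ∈ U)) (Tr anc)
      (fun a => Tr anc a ∩ U) (idOn D) := by
    refine ⟨h.lin.slin hsib, h.lin.slin hsib', ?_, ?_, idOn_pi _ _, ?_, ?_, ?_⟩
    · intro a ha b hb hl
      exact h.mono a b (hsib a ha b hb) hl
    · intro a ha b hb hl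
      exact h.mono a b (hsib' a ha b hb) hl
    · intro a ha b hb hab
      simp only [Finset.mem_filter] at hb
      have hD : {z | sa anc z a} = D := by
        ext z; exact hI a ha z
      have e1 := h.ef a b (hsib a ha b hb.1) hab
      rw [hD] at e1
      refine e1.trans (hEF b hb.1 hb.2) ?_
      rintro x z ⟨rfl, hx⟩
      exact ⟨x, ⟨rfl, hx⟩, ⟨rfl, hx⟩⟩
    · intro a ha a' ha' b hb b' hb' hl hl' u hu u' hu' w hw w' hw' κ
      exact h.forest.cross h.comp h.lin.irr h.lin.asymm (hsib a ha a' ha') hl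
        (hsib' b hb b' hb') hl' hu hu' hw.1 hw'.1 κ
    · intro l
      by_cases hall : ∀ a ∈ I, f a = l → a ∈ U
      · left
        congr 1
        ext x
        simp only [Finset.mem_filter]
        constructor
        · rintro ⟨h1, h2⟩; exact ⟨⟨h1, hall x h1 h2⟩, h2⟩
        · rintro ⟨⟨h1, _⟩, h2⟩; exact ⟨h1, h2⟩
      · push Not at hall
        obtain ⟨a, ha, hal, haU⟩ := hall
        right
        have h1 := hthr a ha haU
        constructor
        · refine h1.trans (Finset.card_le_card ?_)
          intro x hx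
          simp only [Finset.mem_filter] at hx ⊢
          exact ⟨hx.1, hx.2.1.trans hal⟩
        · refine h1.trans (Finset.card_le_card ?_)
          intro x hx
          simp only [Finset.mem_filter] at hx ⊢
          exact ⟨⟨hx.1, hx.2.2⟩, hx.2.1.trans hal⟩
  exact hg.ef_union

/-- a child of `x` above `z` -/
theorem Forest.exists_child (hF : Forest anc) {x z : V} (h : sa anc x z) :
    ∃ c, anc c z ∧ ∀ w, sa anc w c ↔ anc w x := by
  obtain ⟨c, hc, hxc, hmin⟩ := hF.exists_top (fun w => sa anc x w) (u := z) h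
  refine ⟨c, hc, ?_⟩
  intro w
  constructor
  · intro hw
    have h1 : ¬ sa anc x w := hmin w hw
    rcases hF.chain _ _ _ hw.1 hxc.1 with h2 | h2
    · exact h2
    · rcases hF.sa_or h2 with h3 | h3
      · rw [h3]; exact hF.refl _
      · exact absurd h3 h1
  · intro hw
    exact hF.sa_of_anc_of_sa hw hxc

theorem Forest.exists_root (hF : Forest anc) (z : V) :
    ∃ c, anc c z ∧ ∀ w, ¬ sa anc w c := by
  obtain ⟨c, hc, _, hmin⟩ := hF.exists_top (fun _ => True) (u := z) trivial
  exact ⟨c, hc, fun w hw => hmin w hw trivial⟩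

theorem PHyp.card_lt (hF : Forest anc) {x a : V} (h : sa anc x a) :
    (Tr anc a).ncard < (Tr anc x).ncard := by
  apply Set.ncard_lt_ncard _ (Set.toFinite _)
  refine ⟨fun w hw => hF.trans _ _ _ h.1 hw, ?_⟩
  intro hh
  have : anc a x := hh (hF.refl x)
  exact h.2 (hF.antisymm _ _ h.1 this)

open Classical in
theorem PHyp.pl0 (h : PHyp anc L Q f k U) : ∀ (n : ℕ) (x : V), (Tr anc x).ncard ≤ n → x ∈ U →
    EF (QQ anc L Q) k (Tr anc x) (Tr anc x ∩ U) (idOn {z | anc z x}) := by
  intro n
  induction n with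
  | zero =>
    intro x hx _
    have h1 : (Tr anc x).ncard = 0 := by omega
    rw [Set.ncard_eq_zero (Set.toFinite _)] at h1
    have : x ∈ Tr anc x := h.forest.refl x
    rw [h1] at this
    exact absurd this (Set.notMem_empty _)
  | succ n ih =>
    intro x hx hxU
    set I : Finset V := Finset.univ.filter (fun a => ∀ w, sa anc w a ↔ anc w x) with hIdef
    have hI : ∀ a ∈ I, ∀ z, sa anc z a ↔ z ∈ {z | anc z x} := by
      intro a ha
      simp only [hIdef, Finset.mem_filter, Finset.mem_univ, true_and] at ha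
      exact ha
    have hsax : ∀ a ∈ I, sa anc x a := fun a ha => (hI a ha x).2 (h.forest.refl x)
    have hUx : ∀ z, anc z x → z ∈ U := fun z hz => h.closed z x hz hxU
    have e := h.part hI ?_ ?_
    · have e2 := EF.ext (x := x) (x' := x) ⟨rfl, h.forest.refl x⟩ e
      have s1 : insert x (BU I (Tr anc)) = Tr anc x := by
        ext v
        constructor
        · rintro (rfl | ⟨a, ha, hv⟩)
          · exact h.forest.refl _
          · exact h.forest.trans _ _ _ (hsax a ha).1 hv
        · intro hv
          rcases h.forest.sa_or hv with rfl | hv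
          · exact Or.inl rfl
          · obtain ⟨c, hc, hc'⟩ := h.forest.exists_child hv
            exact Or.inr ⟨c, by simp [hIdef, hc'], hc⟩
      have s2 : insert x (BU (I.filter (fun b => b ∈ U)) (fun a => Tr anc a ∩ U)) =
          Tr anc x ∩ U := by
        ext v
        constructor
        · rintro (rfl | ⟨a, ha, hv⟩)
          · exact ⟨h.forest.refl _, hxU⟩
          · exact ⟨h.forest.trans _ _ _ (hsax a (Finset.mem_of_mem_filter a ha)).1 hv.1, hv.2⟩
        · rintro ⟨hv, hvU⟩
          rcases h.forest.sa_or hv with rfl | hv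
          · exact Or.inl rfl
          · obtain ⟨c, hc, hc'⟩ := h.forest.exists_child hv
            refine Or.inr ⟨c, ?_, hc, hvU⟩
            simp only [hIdef, Finset.mem_filter, Finset.mem_univ, true_and]
            exact ⟨hc', h.closed _ _ hc hvU⟩
      rw [s1, s2] at e2
      exact e2
    · intro a ha haU
      have := h.left a haU (fun z hz => hUx z ((hI a ha z).1 hz))
      refine this.trans (Finset.card_le_card ?_)
      intro b hb
      simp only [Finset.mem_filter, Finset.mem_univ, true_and] at hb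
      simp only [Finset.mem_filter]
      refine ⟨?_, hb.2.1, hb.2.2.1⟩
      simp only [hIdef, Finset.mem_filter, Finset.mem_univ, true_and]
      intro w
      rw [← hb.1 w]
      exact hI a ha w
    · intro a ha haU
      have hlt := PHyp.card_lt h.forest (hsax a ha)
      refine (ih a (by omega) haU).anti ?_
      rintro u w ⟨rfl, hu⟩
      exact ⟨rfl, h.forest.trans _ _ _ hu (hsax a ha).1⟩

open Classical in
theorem PHyp.plz (h : PHyp anc L Q f k U) {z : V} (hz : z ∈ U) : ∀ (n : ℕ) (x : V),
    (Tr anc x).ncard ≤ n → anc x z →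
    EF (QQ anc L Q) k (Tr anc x) (Tr anc x ∩ U) (idOn {v | anc v x ∨ v = z}) := by
  intro n
  induction n with
  | zero =>
    intro x hx _
    have h1 : (Tr anc x).ncard = 0 := by omega
    rw [Set.ncard_eq_zero (Set.toFinite _)] at h1
    have : x ∈ Tr anc x := h.forest.refl x
    rw [h1] at this
    exact absurd this (Set.notMem_empty _)
  | succ n ih =>
    intro x hx hxz
    have hxU : x ∈ U := h.closed _ _ hxz hz
    rcases h.forest.sa_or hxz with rfl | hsxz
    · refine (h.pl0 _ x le_rfl hxU).anti ?_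
      rintro u w ⟨rfl, hu | rfl⟩
      · exact ⟨rfl, hu⟩
      · exact ⟨rfl, h.forest.refl _⟩
    obtain ⟨c, hcz, hc⟩ := h.forest.exists_child hsxz
    have hcU : c ∈ U := h.closed _ _ hcz hz
    have hcx : sa anc x c := (hc x).2 (h.forest.refl x)
    set I : Finset V := Finset.univ.filter (fun a => ∀ w, sa anc w a ↔ anc w x) with hIdef
    have hI : ∀ a ∈ I, ∀ z, sa anc z a ↔ z ∈ {z | anc z x} := by
      intro a ha
      simp only [hIdef, Finset.mem_filter, Finset.mem_univ, true_and] at ha
      exact ha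
    have hcI : c ∈ I := by simp [hIdef, hc]
    have hsib : ∀ a ∈ I, ∀ b ∈ I, sib anc a b := fun a ha b hb z =>
      (hI a ha z).trans (hI b hb z).symm
    have hmemI : ∀ a ∈ I, ∀ b, sib anc a b → b ∈ I := by
      intro a ha b hb
      simp only [hIdef, Finset.mem_filter, Finset.mem_univ, true_and]
      intro w
      rw [← hb w]
      exact hI a ha w
    have hsax : ∀ a ∈ I, sa anc x a := fun a ha => (hI a ha x).2 (h.forest.refl x)
    have hUx : ∀ z, anc z x → z ∈ U := fun z hz => h.closed z x hz hxU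
    have hEFa : ∀ a ∈ I, a ∈ U →
        EF (QQ anc L Q) k (Tr anc a) (Tr anc a ∩ U) (idOn {v | anc v x}) := by
      intro a ha haU
      refine (h.pl0 _ a le_rfl haU).anti ?_
      rintro u w ⟨rfl, hu⟩
      exact ⟨rfl, h.forest.trans _ _ _ hu (hsax a ha).1⟩
    set I1 := I.filter (fun a => L a c) with hI1
    set I2 := I.filter (fun a => L c a) with hI2
    have e1 := h.part (D := {v | anc v x}) (I := I1)
      (fun a ha => hI a (Finset.mem_of_mem_filter a ha)) ?_
      (fun a ha => hEFa a (Finset.mem_of_mem_filter a ha))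
    have e2 := h.part (D := {v | anc v x}) (I := I2)
      (fun a ha => hI a (Finset.mem_of_mem_filter a ha)) ?_
      (fun a ha => hEFa a (Finset.mem_of_mem_filter a ha))
    · have hlt := PHyp.card_lt h.forest hcx
      have ec := ih c (by omega) hcz
      have m1 : EF (QQ anc L Q) k (BU I1 (Tr anc) ∪ Tr anc c)
          (BU (I1.filter (fun b => b ∈ U)) (fun a => Tr anc a ∩ U) ∪ (Tr anc c ∩ U))
          (idOn {v | anc v c ∨ v = z}) := by
        refine cross_comm e1 ec ?_ ?_ ?_ ?_
        · rintro u ⟨a, ha, hu⟩ u' hu' w ⟨b, hb, hw⟩ w' hw' κ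
          simp only [hI1, Finset.mem_filter] at ha hb
          exact h.forest.cross h.comp h.lin.irr h.lin.asymm (hsib a ha.1 c hcI) ha.2
            (hsib b hb.1.1 c hcI) hb.1.2 hu hu' hw.1 hw'.1 κ
        · rintro u w ⟨rfl, hu⟩
          exact Or.inr ⟨rfl, Or.inl (h.forest.trans _ _ _ hu hcx.1)⟩
        · rintro u w ⟨rfl, hu | rfl⟩
          · rcases h.forest.sa_or hu with rfl | hu
            · exact Or.inl ⟨h.forest.refl _, h.forest.refl _, hcU⟩
            · exact Or.inr ⟨rfl, (hc _).1 hu⟩
          · exact Or.inl ⟨hcz, hcz, hz⟩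
        · intro u w huw
          exact Or.inr huw
      have m2 : EF (QQ anc L Q) k ((BU I1 (Tr anc) ∪ Tr anc c) ∪ BU I2 (Tr anc))
          ((BU (I1.filter (fun b => b ∈ U)) (fun a => Tr anc a ∩ U) ∪ (Tr anc c ∩ U)) ∪
            BU (I2.filter (fun b => b ∈ U)) (fun a => Tr anc a ∩ U))
          (idOn {v | anc v c ∨ v = z}) := by
        refine cross_comm m1 e2 ?_ ?_ ?_ ?_
        · rintro u hu u' ⟨a', ha', hu'⟩ w hw w' ⟨b', hb', hw'⟩ κ
          simp only [hI2, Finset.mem_filter] at ha' hb'
          have fx : ∃ a ∈ I, L a a' ∧ anc a u := by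
            rcases hu with ⟨a, ha, hu⟩ | hu
            · simp only [hI1, Finset.mem_filter] at ha
              exact ⟨a, ha.1, h.lin.tr a c a' (hsib _ ha.1 _ hcI) (hsib _ hcI _ ha'.1)
                ha.2 ha'.2, hu⟩
            · exact ⟨c, hcI, ha'.2, hu⟩
          have fy : ∃ b ∈ I, L b b' ∧ anc b w := by
            rcases hw with ⟨b, hb, hw⟩ | hw
            · simp only [hI1, Finset.mem_filter] at hb
              exact ⟨b, hb.1.1, h.lin.tr b c b' (hsib _ hb.1.1 _ hcI) (hsib _ hcI _ hb'.1.1)
                hb.1.2 hb'.1.2, hw.1⟩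
            · exact ⟨c, hcI, hb'.1.2, hw.1⟩
          obtain ⟨a, ha, hl, hu⟩ := fx
          obtain ⟨b, hb, hl', hw⟩ := fy
          exact h.forest.cross h.comp h.lin.irr h.lin.asymm (hsib a ha a' ha'.1) hl
            (hsib b hb b' hb'.1.1) hl' hu hu' hw hw'.1 κ
        · rintro u w ⟨rfl, hu | rfl⟩
          · rcases h.forest.sa_or hu with rfl | hu
            · exact Or.inl ⟨Or.inr (h.forest.refl _), Or.inr ⟨h.forest.refl _, hcU⟩⟩
            · exact Or.inr ⟨rfl, (hc _).1 hu⟩
          · exact Or.inl ⟨Or.inr hcz, Or.inr ⟨hcz, hz⟩⟩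
        · rintro u w ⟨rfl, hu⟩
          exact Or.inr ⟨rfl, Or.inl (h.forest.trans _ _ _ hu hcx.1)⟩
        · intro u w huw
          exact Or.inl huw
      have m3 := EF.ext (x := x) (x' := x) ⟨rfl, Or.inl hcx.1⟩ m2
      have s1 : insert x ((BU I1 (Tr anc) ∪ Tr anc c) ∪ BU I2 (Tr anc)) = Tr anc x := by
        ext v
        constructor
        · rintro (rfl | ((⟨a, ha, hv⟩ | hv) | ⟨a, ha, hv⟩))
          · exact h.forest.refl _
          · exact h.forest.trans _ _ _ (hsax a (Finset.mem_of_mem_filter a ha)).1 hv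
          · exact h.forest.trans _ _ _ hcx.1 hv
          · exact h.forest.trans _ _ _ (hsax a (Finset.mem_of_mem_filter a ha)).1 hv
        · intro hv
          rcases h.forest.sa_or hv with rfl | hv
          · exact Or.inl rfl
          · obtain ⟨a, hav, ha'⟩ := h.forest.exists_child hv
            have haI : a ∈ I := by simp [hIdef, ha']
            rcases h.lin.tri a c (hsib a haI c hcI) with hl | rfl | hl
            · exact Or.inr (Or.inl (Or.inl ⟨a, by simp [hI1, haI, hl], hav⟩))
            · exact Or.inr (Or.inl (Or.inr hav))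
            · exact Or.inr (Or.inr ⟨a, by simp [hI2, haI, hl], hav⟩)
      have s2 : insert x ((BU (I1.filter (fun b => b ∈ U)) (fun a => Tr anc a ∩ U) ∪
            (Tr anc c ∩ U)) ∪ BU (I2.filter (fun b => b ∈ U)) (fun a => Tr anc a ∩ U)) =
          Tr anc x ∩ U := by
        ext v
        constructor
        · rintro (rfl | ((⟨a, ha, hv⟩ | hv) | ⟨a, ha, hv⟩))
          · exact ⟨h.forest.refl _, hxU⟩
          · simp only [hI1, Finset.mem_filter] at ha
            exact ⟨h.forest.trans _ _ _ (hsax a ha.1.1).1 hv.1, hv.2⟩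
          · exact ⟨h.forest.trans _ _ _ hcx.1 hv.1, hv.2⟩
          · simp only [hI2, Finset.mem_filter] at ha
            exact ⟨h.forest.trans _ _ _ (hsax a ha.1.1).1 hv.1, hv.2⟩
        · rintro ⟨hv, hvU⟩
          rcases h.forest.sa_or hv with rfl | hv
          · exact Or.inl rfl
          · obtain ⟨a, hav, ha'⟩ := h.forest.exists_child hv
            have haI : a ∈ I := by simp [hIdef, ha']
            have haU : a ∈ U := h.closed _ _ hav hvU
            rcases h.lin.tri a c (hsib a haI c hcI) with hl | rfl | hl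
            · exact Or.inr (Or.inl (Or.inl ⟨a, by simp [hI1, haI, hl, haU], hav, hvU⟩))
            · exact Or.inr (Or.inl (Or.inr ⟨hav, hvU⟩))
            · exact Or.inr (Or.inr ⟨a, by simp [hI2, haI, hl, haU], hav, hvU⟩)
      rw [s1, s2] at m3
      refine m3.anti ?_
      rintro u w ⟨rfl, hu | rfl⟩
      · exact ⟨rfl, Or.inl (h.forest.trans _ _ _ hu hcx.1)⟩
      · exact ⟨rfl, Or.inr rfl⟩
    · intro a ha haU
      simp only [hI2, Finset.mem_filter] at ha
      have := h.right a haU (fun z hz => hUx z ((hI a ha.1 z).1 hz))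
      refine this.trans (Finset.card_le_card ?_)
      intro b hb
      simp only [Finset.mem_filter, Finset.mem_univ, true_and] at hb
      simp only [hI2, Finset.mem_filter]
      refine ⟨⟨hmemI a ha.1 b hb.1, ?_⟩, hb.2.1, hb.2.2.1⟩
      exact h.lin.tr c a b (hsib c hcI a ha.1) hb.1 ha.2 hb.2.2.2
    · intro a ha haU
      simp only [hI1, Finset.mem_filter] at ha
      have := h.left a haU (fun z hz => hUx z ((hI a ha.1 z).1 hz))
      refine this.trans (Finset.card_le_card ?_)
      intro b hb
      simp only [Finset.mem_filter, Finset.mem_univ, true_and] at hb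
      simp only [hI1, Finset.mem_filter]
      refine ⟨⟨hmemI a ha.1 b hb.1, ?_⟩, hb.2.1, hb.2.2.1⟩
      exact h.lin.tr b a c (sib_symm hb.1) (hsib a ha.1 c hcI) hb.2.2.2 ha.2

/-- The pruning lemma inside a subtree. -/
theorem PHyp.tree (h : PHyp anc L Q f k U) {x z : V} (hz : z ∈ U) (hxz : anc x z) :
    EF (QQ anc L Q) k (Tr anc x) (Tr anc x ∩ U) (idOn {v | anc v x ∨ v = z}) :=
  h.plz hz _ x le_rfl hxz

open Classical in
/-- The pruning lemma for the whole forest. -/
theorem PHyp.root (h : PHyp anc L Q f k U) :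
    EF (QQ anc L Q) k Set.univ U (fun _ _ => False) := by
  set I : Finset V := Finset.univ.filter (fun a => ∀ w, ¬ sa anc w a) with hIdef
  have hI : ∀ a ∈ I, ∀ z, sa anc z a ↔ z ∈ (∅ : Set V) := by
    intro a ha z
    simp only [hIdef, Finset.mem_filter, Finset.mem_univ, true_and] at ha
    simp only [Set.mem_empty_iff_false, iff_false]
    exact ha z
  have e := h.part hI ?_ ?_
  · have s1 : BU I (Tr anc) = Set.univ := by
      ext v
      simp only [Set.mem_univ, iff_true]
      obtain ⟨c, hc, hc'⟩ := h.forest.exists_root v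
      exact ⟨c, by simp [hIdef, hc'], hc⟩
    have s2 : BU (I.filter (fun b => b ∈ U)) (fun a => Tr anc a ∩ U) = U := by
      ext v
      constructor
      · rintro ⟨a, _, hv⟩
        exact hv.2
      · intro hv
        obtain ⟨c, hc, hc'⟩ := h.forest.exists_root v
        exact ⟨c, by simp [hIdef, hc', h.closed _ _ hc hv], hc, hv⟩
    rw [s1, s2] at e
    exact e.anti (fun _ _ h => h.elim)
  · intro a ha haU
    have := h.left a haU (fun z hz => ((hI a ha z).1 hz).elim)
    refine this.trans (Finset.card_le_card ?_)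
    intro b hb
    simp only [Finset.mem_filter, Finset.mem_univ, true_and] at hb
    simp only [Finset.mem_filter]
    refine ⟨?_, hb.2.1, hb.2.2.1⟩
    simp only [hIdef, Finset.mem_filter, Finset.mem_univ, true_and]
    intro w hw
    exact ((hI a ha w).1 ((hb.1 w).2 hw)).elim
  · intro a ha haU
    refine (h.pl0 _ a le_rfl haU).anti ?_
    rintro u w ⟨rfl, hu⟩
    exact hu.elim

end Run7.h625
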