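import Mathlib
import Pool.Agent.Run7.h625.Prune

/-!
# Comparisons which are represented by maps into linear orders
-/

namespace Run7.h625

/-- `r` is represented by a map into a linear order. -/
def Rep {X : Type} (r : X → X → Prop) : Prop :=
  ∃ (L : Type) (_ : LinearOrder L) (f : X → L), ∀ x y, r x y ↔ f x ≤ f y

/-- lexicographic combination -/
def lexc (le ge le' : Prop) : Prop := le ∧ (ge → le')

/-- lexicographic combination of a list of comparisons -/
def lexL {X : Type} : List (X → X → Prop) → X → X → Prop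
  | [], _, _ => True
  | r :: l, x, y => lexc (r x y) (r y x) (lexL l x y)

/-- comparison of two sets in the colexicographic manner -/
def cpow {V : Type} (A A' : Set V) (le ge : V → V → Prop) : Prop :=
  ∀ x ∈ A, (∀ x' ∈ A', ¬ (le x x' ∧ ge x x')) →
    ∃ x' ∈ A', (∀ x'' ∈ A, ¬ (le x'' x' ∧ ge x'' x')) ∧ le x x'

theorem Rep.total {X : Type} {r : X → X → Prop} (h : Rep r) (x y : X) : r x y ∨ r y x := by
  obtain ⟨L, _, f, hf⟩ := h
  rw [hf, hf]
  exact le_total _ _

theorem Rep.trans {X : Type} {r : X → X → Prop} (h : Rep r) {x y z : X} (h1 : r x y)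
    (h2 : r y z) : r x z := by
  obtain ⟨L, _, f, hf⟩ := h
  rw [hf] at *
  exact h1.trans h2

theorem Rep.tru {X : Type} : Rep (fun _ _ : X => True) :=
  ⟨ℕ, inferInstance, fun _ => 0, fun _ _ => by simp⟩

theorem Rep.lexc {X : Type} {r s : X → X → Prop} (h : Rep r) (h' : Rep s) :
    Rep (fun x y => lexc (r x y) (r y x) (s x y)) := by
  obtain ⟨L, _, f, hf⟩ := h
  obtain ⟨L', _, f', hf'⟩ := h'
  refine ⟨L ×ₗ L', inferInstance, fun x => toLex (f x, f' x), ?_⟩
  intro x y
  rw [Prod.Lex.toLex_le_toLex]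
  simp only [Run7.h625.lexc, hf, hf']
  constructor
  · rintro ⟨h1, h2⟩
    rcases lt_or_eq_of_le h1 with h3 | h3
    · exact Or.inl h3
    · exact Or.inr ⟨h3, h2 h3.ge⟩
  · rintro (h1 | ⟨h1, h2⟩)
    · exact ⟨h1.le, fun h3 => absurd h3 (not_le.2 h1)⟩
    · exact ⟨h1.le, fun _ => h2⟩

open Classical in
theorem Rep.bool {X : Type} (p : X → Prop) : Rep (fun x y => p x → p y) := by
  refine ⟨ℕ, inferInstance, fun x => if p x then 1 else 0, ?_⟩
  intro x y
  by_cases h1 : p x <;> by_cases h2 : p y <;> simp [h1, h2]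

theorem Rep.comap {X Y : Type} {r : Y → Y → Prop} (h : Rep r) (g : X → Y) :
    Rep (fun x y => r (g x) (g y)) := by
  obtain ⟨L, _, f, hf⟩ := h
  exact ⟨L, inferInstance, fun x => f (g x), fun x y => hf _ _⟩

theorem Rep.lexL {X : Type} : ∀ {l : List (X → X → Prop)}, (∀ r ∈ l, Rep r) → Rep (lexL l)
  | [], _ => Rep.tru
  | r :: l, h => Rep.lexc (h r (by simp)) (Rep.lexL (fun s hs => h s (by simp [hs])))

theorem lexL_equiv {X : Type} : ∀ {l : List (X → X → Prop)} {x y : X}, lexL l x y → lexL l y x →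
    ∀ r ∈ l, r x y ∧ r y x
  | [], _, _, _, _ => by simp
  | s :: l, x, y, h, h' => by
    intro r hr
    simp only [List.mem_cons] at hr
    rcases hr with rfl | hr
    · exact ⟨h.1, h'.1⟩
    · exact lexL_equiv (h.2 h'.1) (h'.2 h.1) r hr

open Classical in
/-- image of a set of a finite type -/
noncomputable def img {V L : Type} [Finite V] (f : V → L) (A : Set V) : Finset L :=
  (Set.toFinite A).toFinset.image f

theorem mem_img {V L : Type} [Finite V] {f : V → L} {A : Set V} {l : L} :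
    l ∈ img f A ↔ ∃ x ∈ A, f x = l := by
  simp [img]

theorem cpow_iff {V L : Type} [Finite V] [LinearOrder L] {A A' : Set V} {le ge : V → V → Prop}
    {f f' : V → L} (hle : ∀ x ∈ A, ∀ x' ∈ A', (le x x' ↔ f x ≤ f' x'))
    (hge : ∀ x ∈ A, ∀ x' ∈ A', (ge x x' ↔ f' x' ≤ f x)) :
    cpow A A' le ge ↔ toColex (img f A) ≤ toColex (img f' A') := by
  have heq : ∀ x ∈ A, ∀ x' ∈ A', ((le x x' ∧ ge x x') ↔ f x = f' x') := by
    intro x hx x' hx'
    rw [hle x hx x' hx', hge x hx x' hx']
    exact le_antisymm_iff.symm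
  rw [Finset.Colex.toColex_le_toColex]
  constructor
  · intro h a ha ha'
    rw [mem_img] at ha
    obtain ⟨x, hx, rfl⟩ := ha
    rw [mem_img] at ha'
    push Not at ha'
    obtain ⟨x', hx', h1, h2⟩ := h x hx (fun x' hx' hh => ha' x' hx' ((heq x hx x' hx').1 hh).symm)
    refine ⟨f' x', mem_img.2 ⟨x', hx', rfl⟩, ?_, (hle x hx x' hx').1 h2⟩
    rw [mem_img]
    rintro ⟨x'', hx'', he⟩
    exact h1 x'' hx'' ((heq x'' hx'' x' hx').2 he)
  · intro h x hx hn
    obtain ⟨b, hb, hb', hab⟩ := h (a := f x) (mem_img.2 ⟨x, hx, rfl⟩) (by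
      rw [mem_img]
      rintro ⟨x', hx', he⟩
      exact hn x' hx' ((heq x hx x' hx').2 he.symm))
    rw [mem_img] at hb hb'
    obtain ⟨x', hx', rfl⟩ := hb
    refine ⟨x', hx', ?_, (hle x hx x' hx').2 hab⟩
    intro x'' hx'' he
    exact hb' ⟨x'', hx'', (heq x'' hx'' x' hx').1 he⟩

theorem cpow_equiv {V L : Type} [Finite V] [LinearOrder L] {A A' : Set V} {le ge : V → V → Prop}
    {f f' : V → L} (hle : ∀ x ∈ A, ∀ x' ∈ A', (le x x' ↔ f x ≤ f' x'))
    (hge : ∀ x ∈ A, ∀ x' ∈ A', (ge x x' ↔ f' x' ≤ f x))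
    (h1 : cpow A A' le ge) (h2 : cpow A' A (fun a b => ge b a) (fun a b => le b a)) :
    (∀ x ∈ A, ∃ x' ∈ A', le x x' ∧ ge x x') ∧ (∀ x' ∈ A', ∃ x ∈ A, le x x' ∧ ge x x') := by
  rw [cpow_iff hle hge] at h1
  rw [cpow_iff (f := f') (f' := f) (fun x hx x' hx' => hge x' hx' x hx)
    (fun x hx x' hx' => hle x' hx' x hx)] at h2
  have h3 : img f A = img f' A' := toColex_inj.1 (le_antisymm h1 h2)
  constructor
  · intro x hx
    have : f x ∈ img f' A' := by
      rw [← h3]; exact mem_img.2 ⟨x, hx, rfl⟩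
    obtain ⟨x', hx', he⟩ := mem_img.1 this
    exact ⟨x', hx', (hle x hx x' hx').2 he.ge, (hge x hx x' hx').2 he.le⟩
  · intro x' hx'
    have : f' x' ∈ img f A := by
      rw [h3]; exact mem_img.2 ⟨x', hx', rfl⟩
    obtain ⟨x, hx, he⟩ := mem_img.1 this
    exact ⟨x, hx, (hle x hx x' hx').2 he.le, (hge x hx x' hx').2 he.ge⟩

/-- The power construction preserves representability. -/
theorem Rep.cpow {X V L : Type} [Finite V] [LinearOrder L] (A : X → Set V)
    (le : X → X → V → V → Prop) (g : X → V → L)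
    (hle : ∀ x y, ∀ u ∈ A x, ∀ u' ∈ A y, (le x y u u' ↔ g x u ≤ g y u')) :
    Rep (fun x y => cpow (A x) (A y) (le x y) (fun u u' => le y x u' u)) := by
  refine ⟨Colex (Finset L), inferInstance, fun x => toColex (img (g x) (A x)), ?_⟩
  intro x y
  exact cpow_iff (f := g x) (f' := g y) (hle x y) (fun u hu u' hu' => hle y x u' hu' u hu)

variable {V : Type}

/-- comparison of two sets inside a chain -/
def cmpS (anc : V → V → Prop) (P S S' : Set V) : Prop :=
  cpow (P ∩ S) (P ∩ S') anc (fun x y => anc y x)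

/-- the number of ancestors -/
noncomputable def depth (anc : V → V → Prop) (x : V) : ℕ := ({z | anc z x} : Set V).ncard

theorem Forest.depth_iff [Finite V] {anc : V → V → Prop} (hF : Forest anc) {x y : V}
    (h : anc x y ∨ anc y x) : anc x y ↔ depth anc x ≤ depth anc y := by
  have key : ∀ x y, anc x y → depth anc x ≤ depth anc y := fun x y h =>
    Set.ncard_le_ncard (fun z hz => hF.trans _ _ _ hz h) (Set.toFinite _)
  constructor
  · exact key x y
  · intro hd
    rcases h with h | h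
    · exact h
    · have h1 : ({z | anc z y} : Set V) = {z | anc z x} :=
        Set.eq_of_subset_of_ncard_le (fun z hz => hF.trans _ _ _ hz h) hd (Set.toFinite _)
      have : x ∈ {z | anc z y} := by
        rw [h1]; exact hF.refl x
      exact this

/-- `P` is a chain -/
def Chain (anc : V → V → Prop) (P : Set V) : Prop := ∀ x ∈ P, ∀ y ∈ P, anc x y ∨ anc y x

theorem cmpS_rep {X : Type} [Finite V] {anc : V → V → Prop} (hF : Forest anc) {P : Set V}
    (hP : Chain anc P) (S : X → Set V) : Rep (fun x y => cmpS anc P (S x) (S y)) :=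
  Rep.cpow (fun x => P ∩ S x) (fun _ _ => anc) (fun _ => depth anc)
    (fun x y u hu u' hu' => hF.depth_iff (hP u hu.1 u' hu'.1))

theorem cmpS_equiv [Finite V] {anc : V → V → Prop} (hF : Forest anc) {P : Set V}
    (hP : Chain anc P) {S S' : Set V} (h1 : cmpS anc P S S') (h2 : cmpS anc P S' S) :
    ∀ x ∈ P, (x ∈ S ↔ x ∈ S') := by
  have := cpow_equiv (A := P ∩ S) (A' := P ∩ S') (f := depth anc) (f' := depth anc)
    (fun u hu u' hu' => hF.depth_iff (hP u hu.1 u' hu'.1))
    (fun u hu u' hu' => hF.depth_iff (hP u' hu'.1 u hu.1)) h1 h2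
  intro x hx
  constructor
  · intro hS
    obtain ⟨x', hx', h3, h4⟩ := this.1 x ⟨hx, hS⟩
    rw [hF.antisymm _ _ h3 h4]
    exact hx'.2
  · intro hS
    obtain ⟨x', hx', h3, h4⟩ := this.2 x ⟨hx, hS⟩
    rw [← hF.antisymm _ _ h3 h4]
    exact hx'.2

/-- the list of the basic comparisons of pebbles -/
def baseL {K : Type} (anc : V → V → Prop) (P : Set V) (q : K → V → V → Prop) (ks : List K)
    (p : ℕ) : List ((Fin p → V) → (Fin p → V) → Prop) :=
  ks.flatMap fun κ => (List.finRange p).flatMap fun j =>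
    [fun u u' => cmpS anc P {x | q κ x (u j)} {x | q κ x (u' j)},
     fun u u' => cmpS anc P {x | q κ (u j) x} {x | q κ (u' j) x}] ++
    (List.finRange p).map fun i => fun u u' => (q κ (u i) (u j) → q κ (u' i) (u' j))

/-- comparison of tuples of pebbles -/
def baseC {K : Type} (anc : V → V → Prop) (P : Set V) (q : K → V → V → Prop) (ks : List K)
    {p : ℕ} (u u' : Fin p → V) : Prop := lexL (baseL anc P q ks p) u u'

/-- comparison of positions of the game with `k` rounds -/
def LE {K : Type} (anc : V → V → Prop) (P : Set V) (q : K → V → V → Prop) (ks : List K) :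
    ℕ → ∀ {p : ℕ}, Set V → (Fin p → V) → Set V → (Fin p → V) → Prop
  | 0, _, _, u, _, u' => baseC anc P q ks u u'
  | k + 1, _, D, u, D', u' => lexc (baseC anc P q ks u u') (baseC anc P q ks u' u)
      (cpow D D'
        (fun x x' => LE anc P q ks k D (Matrix.vecCons x u) D' (Matrix.vecCons x' u'))
        (fun x x' => LE anc P q ks k D' (Matrix.vecCons x' u') D (Matrix.vecCons x u)))

/-- the matching of pebbles -/
def peb {p : ℕ} (P : Set V) (u u' : Fin p → V) : V → V → Prop :=
  fun a b => (a = b ∧ a ∈ P) ∨ ∃ j, a = u j ∧ b = u' j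

variable {K : Type} {anc : V → V → Prop} {P : Set V} {q : K → V → V → Prop} {ks : List K}

theorem baseC_rep [Finite V] (hF : Forest anc) (hP : Chain anc P) (p : ℕ) :
    Rep (fun u u' : Fin p → V => baseC anc P q ks u u') := by
  apply Rep.lexL
  intro r hr
  simp only [baseL, List.mem_flatMap] at hr
  obtain ⟨κ, _, j, _, hr⟩ := hr
  simp only [List.mem_append, List.mem_cons, List.not_mem_nil, or_false, List.mem_map] at hr
  rcases hr with (rfl | rfl) | ⟨i, _, rfl⟩
  · exact cmpS_rep hF hP (fun u : Fin p → V => {x | q κ x (u j)})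
  · exact cmpS_rep hF hP (fun u : Fin p → V => {x | q κ (u j) x})
  · exact Rep.bool (fun u : Fin p → V => q κ (u i) (u j))

theorem LE_rep [Finite V] (hF : Forest anc) (hP : Chain anc P) : ∀ (k p : ℕ),
    Rep (fun s s' : Set V × (Fin p → V) => LE anc P q ks k s.1 s.2 s'.1 s'.2)
  | 0, p => by
    have := (baseC_rep (q := q) (ks := ks) hF hP p).comap
      (fun s : Set V × (Fin p → V) => s.2)
    exact this
  | k + 1, p => by
    have h1 := (baseC_rep (q := q) (ks := ks) hF hP p).comap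
      (fun s : Set V × (Fin p → V) => s.2)
    obtain ⟨L, _, f, hf⟩ := LE_rep hF hP k (p + 1)
    have h2 := Rep.cpow (X := Set V × (Fin p → V)) (fun s => s.1)
      (fun s s' x x' => LE anc P q ks k s.1 (Matrix.vecCons x s.2) s'.1 (Matrix.vecCons x' s'.2))
      (fun s x => f (s.1, Matrix.vecCons x s.2))
      (fun s s' x _ x' _ => hf (s.1, Matrix.vecCons x s.2) (s'.1, Matrix.vecCons x' s'.2))
    exact h1.lexc h2

theorem add_peb {p : ℕ} (P : Set V) (u u' : Fin p → V) (x x' : V) :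
    ∀ a b, add (peb P u u') x x' a b ↔ peb P (Matrix.vecCons x u) (Matrix.vecCons x' u') a b := by
  intro a b
  simp only [add, peb, Fin.exists_fin_succ, Matrix.cons_val_zero, Matrix.cons_val_succ]
  constructor
  · rintro ((h | h) | h)
    · exact Or.inl h
    · exact Or.inr (Or.inr h)
    · exact Or.inr (Or.inl h)
  · rintro (h | h | h)
    · exact Or.inl (Or.inl h)
    · exact Or.inr h
    · exact Or.inl (Or.inr h)

theorem baseC_pi [Finite V] (hF : Forest anc) (hP : Chain anc P) (hks : ∀ κ, κ ∈ ks) {p : ℕ}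
    {u u' : Fin p → V} (h1 : baseC anc P q ks u u') (h2 : baseC anc P q ks u' u) :
    PI q (peb P u u') := by
  have h := lexL_equiv h1 h2
  have mem1 : ∀ κ j, ∀ x ∈ P, (q κ x (u j) ↔ q κ x (u' j)) := by
    intro κ j
    have h3 := h (fun u u' => cmpS anc P {x | q κ x (u j)} {x | q κ x (u' j)}) (by
      simp only [baseL, List.mem_flatMap]
      exact ⟨κ, hks κ, j, List.mem_finRange j, by simp⟩)
    exact cmpS_equiv hF hP h3.1 h3.2
  have mem2 : ∀ κ j, ∀ x ∈ P, (q κ (u j) x ↔ q κ (u' j) x) := by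
    intro κ j
    have h3 := h (fun u u' => cmpS anc P {x | q κ (u j) x} {x | q κ (u' j) x}) (by
      simp only [baseL, List.mem_flatMap]
      exact ⟨κ, hks κ, j, List.mem_finRange j, by simp⟩)
    exact cmpS_equiv hF hP h3.1 h3.2
  have mem3 : ∀ κ i j, (q κ (u i) (u j) ↔ q κ (u' i) (u' j)) := by
    intro κ i j
    have h3 := h (fun u u' => (q κ (u i) (u j) → q κ (u' i) (u' j))) (by
      simp only [baseL, List.mem_flatMap]
      exact ⟨κ, hks κ, j, List.mem_finRange j, by simp⟩)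
    exact ⟨h3.1, h3.2⟩
  intro a b a' b' hab hab' κ
  rcases hab with ⟨rfl, ha⟩ | ⟨i, rfl, rfl⟩ <;> rcases hab' with ⟨rfl, ha'⟩ | ⟨j, rfl, rfl⟩
  · rfl
  · exact mem1 κ j a ha
  · exact mem2 κ i a' ha'
  · exact mem3 κ i j

theorem LE_ef [Finite V] (hF : Forest anc) (hP : Chain anc P) (hks : ∀ κ, κ ∈ ks) : ∀ (k : ℕ)
    {p : ℕ} {D D' : Set V} {u u' : Fin p → V}, LE anc P q ks k D u D' u' →
    LE anc P q ks k D' u' D u → EF q k D D' (peb P u u')
  | 0, _, _, _, _, _, h1, h2 => baseC_pi hF hP hks h1 h2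
  | k + 1, p, D, D', u, u', h1, h2 => by
    have hb := baseC_pi hF hP hks h1.1 h2.1
    obtain ⟨L, _, f, hf⟩ := LE_rep (q := q) (ks := ks) hF hP k (p + 1)
    have h3 := h1.2 h2.1
    have h4 := h2.2 h1.1
    have h5 := cpow_equiv (f := fun x => f (D, Matrix.vecCons x u))
      (f' := fun x => f (D', Matrix.vecCons x u'))
      (fun x _ x' _ => hf (D, Matrix.vecCons x u) (D', Matrix.vecCons x' u'))
      (fun x _ x' _ => hf (D', Matrix.vecCons x' u') (D, Matrix.vecCons x u)) h3 h4
    refine ⟨hb, ?_, ?_⟩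
    · intro x hx
      obtain ⟨x', hx', h6, h7⟩ := h5.1 x hx
      exact ⟨x', hx', (LE_ef hF hP hks k h6 h7).congrR (fun a b => (add_peb P u u' x x' a b).symm)⟩
    · intro x' hx'
      obtain ⟨x, hx, h6, h7⟩ := h5.2 x' hx'
      exact ⟨x, hx, (LE_ef hF hP hks k h6 h7).congrR (fun a b => (add_peb P u u' x x' a b).symm)⟩

end Run7.h625
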