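import Mathlib
import Pool.Agent.Run7.h625.Rank

/-!
# The levels of the construction
-/

namespace Run7.h625

variable {V : Type}

/-- strict part -/
def strict (W : V → V → Prop) (a b : V) : Prop := W a b ∧ ¬ W b a

/-- `a` carries a mark which is not the middle mark -/
def Ret (N : ℕ) (m : ℕ → Set V) (a : V) : Prop := ∃ t ∈ List.range (2 * N + 1), t ≠ N ∧ a ∈ m t

/-- comparison of marks -/
def markle (N : ℕ) (m : ℕ → Set V) (a b : V) : Prop :=
  ∃ t ∈ List.range (2 * N + 1), ∃ t' ∈ List.range (2 * N + 1), t ≤ t' ∧ a ∈ m t ∧ b ∈ m t'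

/-- the pruned forest -/
def UU (anc : V → V → Prop) (N : ℕ) (m : ℕ → Set V) (Z : Set V) : Set V :=
  {v | ∀ a, anc a v → a ∈ Z ∨ Ret N m a}

/-- the next comparison of types -/
def Tstep {ι : Type} (anc : V → V → Prop) (Q : ι → V → V → Prop) (ks : List (Option (Option ι)))
    (N : ℕ) (W : V → V → Prop) (m : ℕ → Set V) (k : ℕ) (y y' : V) : Prop :=
  cpow (Tr anc y) (Tr anc y')
    (fun z z' => LE anc {x | sa anc x y} (QQ anc (strict W) Q) ks k
      (Tr anc y ∩ UU anc N m {x | anc x z}) ![z] (Tr anc y' ∩ UU anc N m {x | anc x z'}) ![z'])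
    (fun z z' => LE anc {x | sa anc x y} (QQ anc (strict W) Q) ks k
      (Tr anc y' ∩ UU anc N m {x | anc x z'}) ![z'] (Tr anc y ∩ UU anc N m {x | anc x z}) ![z])

/-- the next comparison of siblings -/
def Wstep (N : ℕ) (W T : V → V → Prop) (m : ℕ → Set V) (a b : V) : Prop :=
  lexc (W a b) (W b a) (lexc (T a b) (T b a) (markle N m a b))

/-- The comparisons `W i` and `T i`. -/
def WT {ι : Type} (anc : V → V → Prop) (Q : ι → V → V → Prop) (ks : List (Option (Option ι)))
    (N : ℕ) (mk : ℕ → ℕ → Set V) : ℕ → (V → V → Prop) × (V → V → Prop)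
  | 0 => (fun _ _ => True, fun _ _ => True)
  | i + 1 => (Wstep N (WT anc Q ks N mk i).1 (WT anc Q ks N mk i).2 (mk i),
      Tstep anc Q ks N (Wstep N (WT anc Q ks N mk i).1 (WT anc Q ks N mk i).2 (mk i)) (mk i) i)

theorem WT_congr {ι : Type} {anc : V → V → Prop} {Q : ι → V → V → Prop}
    {ks : List (Option (Option ι))} {N : ℕ} {mk mk' : ℕ → ℕ → Set V} : ∀ {i : ℕ},
    (∀ j < i, mk j = mk' j) → WT anc Q ks N mk i = WT anc Q ks N mk' i
  | 0, _ => rfl
  | i + 1, h => by
    have ih := WT_congr (anc := anc) (Q := Q) (ks := ks) (N := N) (i := i)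
      (fun j hj => h j (by omega))
    simp only [WT, ih, h i (by omega)]

/-- classes of siblings -/
def cls (anc W T : V → V → Prop) (a b : V) : Prop :=
  sib anc a b ∧ (W a b ∧ W b a) ∧ (T a b ∧ T b a)

/-- The marks are as they should be. -/
def MarkOK (N : ℕ) (C : V → V → Prop) (m : ℕ → Set V) : Prop :=
  (∀ a, ∃ t ∈ List.range (2 * N + 1), a ∈ m t) ∧
  (∀ a, ∀ t ∈ List.range (2 * N + 1), ∀ t' ∈ List.range (2 * N + 1),
    (a ∈ m t ∧ a ∈ m t') → t = t') ∧
  (∀ a b, C a b → ∀ t ∈ List.range (2 * N + 1), (a ∈ m t ∧ b ∈ m t) → t = N ∨ a = b) ∧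
  (∀ a, a ∈ m N → ∀ t ∈ List.range (2 * N + 1), t = N ∨ ∃ b, C a b ∧ b ∈ m t)

/-- a total preorder on each set of siblings -/
structure SibPre (anc W : V → V → Prop) : Prop where
  total : ∀ a b, sib anc a b → W a b ∨ W b a
  trans : ∀ a b c, sib anc a b → sib anc b c → W a b → W b c → W a c

theorem SibPre.lex {anc W T : V → V → Prop} (hW : SibPre anc W) (hT : SibPre anc T) :
    SibPre anc (fun a b => lexc (W a b) (W b a) (T a b)) where
  total := by
    intro a b hs
    have h1 := hW.total a b hs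
    have h2 := hT.total a b hs
    unfold lexc
    tauto
  trans := by
    rintro a b c hs hs' ⟨h1, h2⟩ ⟨h3, h4⟩
    refine ⟨hW.trans a b c hs hs' h1 h3, ?_⟩
    intro h5
    have h6 : W b a := hW.trans b c a hs' (sib_symm (sib_trans hs hs')) h3 h5
    have h7 : W c b := hW.trans c a b (sib_symm (sib_trans hs hs')) hs h5 h1
    exact hT.trans a b c hs hs' (h2 h6) (h4 h7)

theorem SibPre.tru {anc : V → V → Prop} : SibPre anc (fun _ _ => True) :=
  ⟨fun _ _ _ => Or.inl trivial, fun _ _ _ _ _ _ _ => trivial⟩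

theorem Forest.chainP {anc : V → V → Prop} (hF : Forest anc) (y : V) :
    Chain anc {x | sa anc x y} :=
  fun _ hx _ hx' => hF.chain _ _ _ hx.1 hx'.1

theorem Tstep_pre [Finite V] {ι : Type} {anc : V → V → Prop} (hF : Forest anc)
    (Q : ι → V → V → Prop) (ks : List (Option (Option ι))) (N : ℕ) (W : V → V → Prop)
    (m : ℕ → Set V) (k : ℕ) : SibPre anc (Tstep anc Q ks N W m k) := by
  have key : ∀ P : Set V, Chain anc P → Rep (fun y y' : V =>
      cpow (Tr anc y) (Tr anc y')
      (fun z z' => LE anc P (QQ anc (strict W) Q) ks k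
        (Tr anc y ∩ UU anc N m {x | anc x z}) ![z] (Tr anc y' ∩ UU anc N m {x | anc x z'}) ![z'])
      (fun z z' => LE anc P (QQ anc (strict W) Q) ks k
        (Tr anc y' ∩ UU anc N m {x | anc x z'}) ![z']
          (Tr anc y ∩ UU anc N m {x | anc x z}) ![z])) := by
    intro P hP
    obtain ⟨L, _, f, hf⟩ := LE_rep (q := QQ anc (strict W) Q) (ks := ks) hF hP k 1
    exact Rep.cpow (fun y => Tr anc y)
      (fun y y' z z' => LE anc P (QQ anc (strict W) Q) ks k
        (Tr anc y ∩ UU anc N m {x | anc x z}) ![z] (Tr anc y' ∩ UU anc N m {x | anc x z'}) ![z'])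
      (fun y z => f (Tr anc y ∩ UU anc N m {x | anc x z}, ![z]))
      (fun y y' z _ z' _ => hf (Tr anc y ∩ UU anc N m {x | anc x z}, ![z])
        (Tr anc y' ∩ UU anc N m {x | anc x z'}, ![z']))
  constructor
  · intro a b hs
    have hP : {x | sa anc x b} = {x | sa anc x a} := by
      ext x; exact (hs x).symm
    have := (key _ (hF.chainP a)).total a b
    unfold Tstep
    rw [hP]
    exact this
  · intro a b c hs hs' h1 h2
    have hP : {x | sa anc x b} = {x | sa anc x a} := by
      ext x; exact (hs x).symm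
    unfold Tstep at h1 h2 ⊢
    rw [hP] at h2
    exact (key _ (hF.chainP a)).trans h1 h2

theorem mark_pre {N : ℕ} {C : V → V → Prop} {m : ℕ → Set V} (anc : V → V → Prop)
    (h : MarkOK N C m) : SibPre anc (markle N m) := by
  constructor
  · intro a b _
    obtain ⟨t, ht, hat⟩ := h.1 a
    obtain ⟨t', ht', hbt⟩ := h.1 b
    rcases le_total t t' with hl | hl
    · exact Or.inl ⟨t, ht, t', ht', hl, hat, hbt⟩
    · exact Or.inr ⟨t', ht', t, ht, hl, hbt, hat⟩
  · rintro a b c _ _ ⟨t, ht, t', ht', hl, hat, hbt⟩ ⟨s, hs, s', hs', hl', hbs, hcs⟩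
    have : t' = s := h.2.1 b t' ht' s hs ⟨hbt, hbs⟩
    subst this
    exact ⟨t, ht, s', hs', hl.trans hl', hat, hcs⟩

section exist

open Classical in
theorem exists_enum (c : Finset V) : ∃ f : V → ℕ, (∀ x ∈ c, ∀ y ∈ c, f x = f y → x = y) ∧
    (∀ x ∈ c, f x < c.card) ∧ ∀ j < c.card, ∃ x ∈ c, f x = j := by
  refine ⟨fun x => if h : x ∈ c then (c.equivFin ⟨x, h⟩).val else 0, ?_, ?_, ?_⟩
  · intro x hx y hy hxy
    simp only [hx, hy, dif_pos] at hxy
    have := c.equivFin.injective (Fin.ext hxy)
    exact congrArg Subtype.val this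
  · intro x hx
    simp only [hx, dif_pos]
    exact (c.equivFin ⟨x, hx⟩).isLt
  · intro j hj
    refine ⟨(c.equivFin.symm ⟨j, hj⟩).1, (c.equivFin.symm ⟨j, hj⟩).2, ?_⟩
    simp

open Classical in
theorem exists_mark [Fintype V] (N : ℕ) {C : V → V → Prop} (hC : Equivalence C) :
    ∃ m : ℕ → Set V, MarkOK N C m ∧ ∀ t, m t = m (min t (2 * N)) := by
  choose F hF1 hF2 hF3 using fun c : Finset V => exists_enum c
  set cl : V → Finset V := fun a => Finset.univ.filter (fun b => C a b) with hcl
  have hcl_eq : ∀ a b, C a b → cl b = cl a := by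
    intro a b hab
    ext x
    simp only [hcl, Finset.mem_filter, Finset.mem_univ, true_and]
    exact ⟨fun h => hC.trans hab h, fun h => hC.trans (hC.symm hab) h⟩
  have hmem : ∀ a b, C a b → b ∈ cl a := by
    intro a b hab
    simp [hcl, hab]
  have hmem' : ∀ a b, b ∈ cl a → C a b := by
    intro a b hab
    simpa [hcl] using hab
  set idx : V → ℕ := fun a => F (cl a) a with hidx
  have hidx_eq : ∀ a b, C a b → idx b = F (cl a) b := by
    intro a b hab
    simp only [hidx, hcl_eq a b hab]
  set g : ℕ → ℕ := fun j => if j < N then j else if j < 2 * N then j + 1 else N with hg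
  have hg_le : ∀ j, g j ≤ 2 * N := by
    intro j
    simp only [hg]
    split_ifs <;> omega
  have hg_inj : ∀ j j', g j = g j' → g j ≠ N → j = j' := by
    intro j j' h1 h2
    simp only [hg] at h1 h2
    split_ifs at h1 h2 <;> omega
  have hg_mid : ∀ j, g j = N → 2 * N ≤ j := by
    intro j h1
    simp only [hg] at h1
    split_ifs at h1 <;> omega
  refine ⟨fun t => {a | g (idx a) = min t (2 * N)}, ⟨?_, ?_, ?_, ?_⟩, ?_⟩
  · intro a
    refine ⟨g (idx a), ?_, ?_⟩
    · rw [List.mem_range]
      have := hg_le (idx a)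
      omega
    · show g (idx a) = min (g (idx a)) (2 * N)
      rw [min_eq_left (hg_le _)]
  · intro a t ht t' ht' ⟨h1, h2⟩
    rw [List.mem_range] at ht ht'
    have h1' : g (idx a) = min t (2 * N) := h1
    have h2' : g (idx a) = min t' (2 * N) := h2
    omega
  · intro a b hab t ht ⟨h1, h2⟩
    rw [List.mem_range] at ht
    have h1' : g (idx a) = min t (2 * N) := h1
    have h2' : g (idx b) = min t (2 * N) := h2
    by_cases htN : t = N
    · exact Or.inl htN
    · right
      have h3 : idx a = idx b := hg_inj _ _ (by omega) (by omega)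
      rw [hidx_eq a b hab, hidx_eq a a (hC.refl a)] at h3
      exact hF1 (cl a) a (hmem a a (hC.refl a)) b (hmem a b hab) h3
  · intro a ha t ht
    rw [List.mem_range] at ht
    by_cases htN : t = N
    · exact Or.inl htN
    · right
      have h1 : g (idx a) = N := by
        have : g (idx a) = min N (2 * N) := ha
        omega
      have h2 := hg_mid _ h1
      have h3 := hF2 (cl a) a (hmem a a (hC.refl a))
      rw [← hidx_eq a a (hC.refl a)] at h3
      obtain ⟨b, hb, hbj⟩ := hF3 (cl a) (if t < N then t else t - 1) (by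
        split_ifs <;> omega)
      have hab := hmem' a b hb
      refine ⟨b, hab, ?_⟩
      show g (idx b) = min t (2 * N)
      rw [hidx_eq a b hab, hbj]
      simp only [hg]
      split_ifs <;> omega
  · intro t
    ext a
    show g (idx a) = min t (2 * N) ↔ g (idx a) = min (min t (2 * N)) (2 * N)
    rw [min_assoc, min_self]

end exist

section levels

variable {ι : Type} {anc : V → V → Prop} {Q : ι → V → V → Prop} {ks : List (Option (Option ι))}
  {N : ℕ} {mk : ℕ → ℕ → Set V}

theorem T_pre [Finite V] (hF : Forest anc) (i : ℕ) : SibPre anc (WT anc Q ks N mk i).2 := by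
  cases i with
  | zero => exact SibPre.tru
  | succ i => exact Tstep_pre hF Q ks N _ (mk i) i

/-- the classes at level `i` -/
def CL (anc : V → V → Prop) (Q : ι → V → V → Prop) (ks : List (Option (Option ι)))
    (N : ℕ) (mk : ℕ → ℕ → Set V) (i : ℕ) : V → V → Prop :=
  cls anc (WT anc Q ks N mk i).1 (WT anc Q ks N mk i).2

theorem W_pre [Finite V] (hF : Forest anc) : ∀ {i : ℕ},
    (∀ j < i, MarkOK N (CL anc Q ks N mk j) (mk j)) → SibPre anc (WT anc Q ks N mk i).1
  | 0, _ => SibPre.tru
  | i + 1, h => by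
    have h1 := W_pre hF (i := i) (fun j hj => h j (by omega))
    have h2 := T_pre (Q := Q) (ks := ks) (N := N) (mk := mk) hF i
    have h3 := mark_pre anc (h i (by omega))
    exact h1.lex (h2.lex h3)

theorem cls_equiv {W T : V → V → Prop} (hW : SibPre anc W) (hT : SibPre anc T) :
    Equivalence (cls anc W T) where
  refl := by
    intro a
    have h1 := hW.total a a (sib_refl a)
    have h2 := hT.total a a (sib_refl a)
    exact ⟨sib_refl a, by tauto, by tauto⟩
  symm := by
    rintro a b ⟨h1, h2, h3⟩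
    exact ⟨sib_symm h1, h2.symm, h3.symm⟩
  trans := by
    rintro a b c ⟨h1, h2, h3⟩ ⟨h1', h2', h3'⟩
    refine ⟨sib_trans h1 h1', ⟨?_, ?_⟩, ⟨?_, ?_⟩⟩
    · exact hW.trans a b c h1 h1' h2.1 h2'.1
    · exact hW.trans c b a (sib_symm h1') (sib_symm h1) h2'.2 h2.2
    · exact hT.trans a b c h1 h1' h3.1 h3'.1
    · exact hT.trans c b a (sib_symm h1') (sib_symm h1) h3'.2 h3.2

theorem exists_marks [Fintype V] (hF : Forest anc) (Q : ι → V → V → Prop)
    (ks : List (Option (Option ι))) (N : ℕ) : ∀ n : ℕ, ∃ mk : ℕ → ℕ → Set V,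
    (∀ i < n, MarkOK N (CL anc Q ks N mk i) (mk i)) ∧ ∀ i t, mk i t = mk i (min t (2 * N))
  | 0 => ⟨fun _ _ => ∅, by simp, fun _ _ => rfl⟩
  | n + 1 => by
    obtain ⟨mk, h1, h2⟩ := exists_marks hF Q ks N n
    have he : Equivalence (CL anc Q ks N mk n) := cls_equiv (W_pre hF h1) (T_pre hF n)
    obtain ⟨m, hm1, hm2⟩ := exists_mark N he
    have hcongr : ∀ i ≤ n, CL anc Q ks N (fun i => if i < n then mk i else m) i =
        CL anc Q ks N mk i := by
      intro i hi
      unfold CL
      rw [WT_congr (mk := fun i => if i < n then mk i else m) (mk' := mk)]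
      intro j hj
      have : j < n := by omega
      simp [this]
    refine ⟨fun i => if i < n then mk i else m, ?_, ?_⟩
    · intro i hi
      rw [hcongr i (by omega)]
      by_cases hin : i < n
      · simp only [hin, if_true]
        exact h1 i hin
      · have : i = n := by omega
        subst this
        simp only [lt_irrefl, if_false]
        exact hm1
    · intro i t
      by_cases hin : i < n
      · simp only [hin, if_true]
        exact h2 i t
      · simp only [hin, if_false]
        exact hm2 t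

theorem exists_marks' [Fintype V] (hF : Forest anc) (Q : ι → V → V → Prop)
    (ks : List (Option (Option ι))) (N r : ℕ) : ∃ mk : ℕ → ℕ → Set V,
    (∀ i < r + 1, MarkOK N (CL anc Q ks N mk i) (mk i)) ∧
      ∀ i t, mk i t = mk (min i r) (min t (2 * N)) := by
  obtain ⟨mk, h1, h2⟩ := exists_marks hF Q ks N (r + 1)
  refine ⟨fun i => mk (min i r), ?_, ?_⟩
  · intro i hi
    have hcongr : CL anc Q ks N (fun i => mk (min i r)) i = CL anc Q ks N mk i := by
      unfold CL
      rw [WT_congr (mk := fun i => mk (min i r)) (mk' := mk)]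
      intro j hj
      show mk (min j r) = mk j
      rw [min_eq_left (by omega)]
    rw [hcongr]
    show MarkOK N (CL anc Q ks N mk i) (mk (min i r))
    rw [min_eq_left (by omega)]
    exact h1 i hi
  · intro i t
    show mk (min i r) t = mk (min (min i r) r) (min t (2 * N))
    rw [min_assoc, min_self]
    exact h2 _ t

end levels

end Run7.h625
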