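import Mathlib
import Pool.Agent.Run7.h625.Level

/-!
# The semantic core: the pruned forest has the type of the whole forest
-/

namespace Run7.h625

variable {V : Type} {ι : Type}

/-- The assumptions of the core theorem. -/
structure Ctx (anc : V → V → Prop) (Q : ι → V → V → Prop) (ks : List (Option (Option ι)))
    (N : ℕ) (mk : ℕ → ℕ → Set V) (r : ℕ) : Prop where
  forest : Forest anc
  comp : Comparable anc Q
  hks : ∀ κ, κ ∈ ks
  hN : thr r ≤ N
  ok : ∀ i < r + 1, MarkOK N (CL anc Q ks N mk i) (mk i)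

/-- the final comparison of siblings -/
def Wfin (anc : V → V → Prop) (Q : ι → V → V → Prop) (ks : List (Option (Option ι)))
    (N : ℕ) (mk : ℕ → ℕ → Set V) (r : ℕ) (g : V → ℕ) (a b : V) : Prop :=
  lexc ((WT anc Q ks N mk (r + 1)).1 a b) ((WT anc Q ks N mk (r + 1)).1 b a) (g a ≤ g b)

variable {anc : V → V → Prop} {Q : ι → V → V → Prop} {ks : List (Option (Option ι))}
  {N : ℕ} {mk : ℕ → ℕ → Set V} {r : ℕ} {g : V → ℕ}

theorem strict_lex {W T : V → V → Prop} {a b : V} (h : strict W a b) :
    strict (fun a b => lexc (W a b) (W b a) (T a b)) a b :=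
  ⟨⟨h.1, fun h' => absurd h' h.2⟩, fun h' => h.2 h'.1⟩

theorem strict_succ {i : ℕ} {a b : V} (h : strict (WT anc Q ks N mk i).1 a b) :
    strict (WT anc Q ks N mk (i + 1)).1 a b := strict_lex h

theorem strict_mono {i j : ℕ} (hij : i ≤ j) {a b : V} (h : strict (WT anc Q ks N mk i).1 a b) :
    strict (WT anc Q ks N mk j).1 a b := by
  induction j, hij using Nat.le_induction with
  | base => exact h
  | succ n _ ih => exact strict_succ ih

theorem strict_fin {i : ℕ} (hi : i ≤ r + 1) {a b : V}
    (h : strict (WT anc Q ks N mk i).1 a b) : strict (Wfin anc Q ks N mk r g) a b :=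
  strict_lex (strict_mono hi h)

theorem Ctx.wpre [Fintype V] (h : Ctx anc Q ks N mk r) {i : ℕ} (hi : i ≤ r + 1) :
    SibPre anc (WT anc Q ks N mk i).1 :=
  W_pre h.forest (fun j hj => h.ok j (by omega))

theorem Ctx.siblin [Fintype V] (h : Ctx anc Q ks N mk r) (hg : Function.Injective g) :
    SibLin anc (strict (Wfin anc Q ks N mk r g)) := by
  have hp : SibPre anc (Wfin anc Q ks N mk r g) :=
    (h.wpre le_rfl).lex (T := fun a b => g a ≤ g b)
      ⟨fun a b _ => le_total _ _, fun a b c _ _ h1 h2 => h1.trans h2⟩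
  refine ⟨fun x hx => hx.2 hx.1, ?_, ?_⟩
  · intro x y z hxy hyz h1 h2
    refine ⟨hp.trans x y z hxy hyz h1.1 h2.1, fun h3 => ?_⟩
    exact h1.2 (hp.trans y z x hyz (sib_symm (sib_trans hxy hyz)) h2.1 h3)
  · intro x y hxy
    by_cases h1 : Wfin anc Q ks N mk r g x y
    · by_cases h2 : Wfin anc Q ks N mk r g y x
      · right; left
        exact hg (le_antisymm (h1.2 h2.1) (h2.2 h1.1))
      · exact Or.inl ⟨h1, h2⟩
    · rcases hp.total x y hxy with h2 | h2
      · exact absurd h2 h1
      · exact Or.inr (Or.inr ⟨h2, h1⟩)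

theorem UU_closed (hF : Forest anc) {m : ℕ → Set V} {Z : Set V} {u v : V} (huv : anc u v)
    (hv : v ∈ UU anc N m Z) : u ∈ UU anc N m Z :=
  fun a ha => hv a (hF.trans _ _ _ ha huv)

/-- distinct siblings in the pruned forest are distinguished -/
theorem Ctx.distinct (h : Ctx anc Q ks N mk r) {i : ℕ} (hi : i < r + 1)
    {Z : Set V} (hZ : Chain anc Z) {a b : V} (hs : sib anc a b) (hne : a ≠ b)
    (ha : a ∈ UU anc N (mk i) Z) (hb : b ∈ UU anc N (mk i) Z)
    (h1 : (WT anc Q ks N mk (i + 1)).1 a b) (h2 : (WT anc Q ks N mk (i + 1)).1 b a) : False := by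
  have h1' : Wstep N (WT anc Q ks N mk i).1 (WT anc Q ks N mk i).2 (mk i) a b := h1
  have h2' : Wstep N (WT anc Q ks N mk i).1 (WT anc Q ks N mk i).2 (mk i) b a := h2
  obtain ⟨w1, l1⟩ := h1'
  obtain ⟨w2, l2⟩ := h2'
  obtain ⟨t1, k1⟩ := l1 w2
  obtain ⟨t2, k2⟩ := l2 w1
  have c1 := k1 t2
  have c2 := k2 t1
  have ok := h.ok i hi
  obtain ⟨s, hs1, s', hs1', hle, has, hbs⟩ := c1
  obtain ⟨u, hu1, u', hu1', hle', hbu, hau⟩ := c2
  have e1 : s = u' := ok.2.1 a s hs1 u' hu1' ⟨has, hau⟩
  have e2 : s' = u := ok.2.1 b s' hs1' u hu1 ⟨hbs, hbu⟩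
  have e3 : s = s' := by omega
  have hc : CL anc Q ks N mk i a b := ⟨hs, ⟨w1, w2⟩, ⟨t1, t2⟩⟩
  subst e3
  have hcase := ok.2.2.1 a b hc s hs1 ⟨has, hbs⟩
  rcases hcase with hN | hab
  · have aZ : a ∈ Z := by
      rcases ha a (h.forest.refl a) with h3 | ⟨t, ht, htN, hat⟩
      · exact h3
      · exact absurd ((ok.2.1 a t ht s hs1 ⟨hat, has⟩).trans hN) htN
    have bZ : b ∈ Z := by
      rcases hb b (h.forest.refl b) with h3 | ⟨t, ht, htN, hbt⟩
      · exact h3
      · exact absurd ((ok.2.1 b t ht s hs1 ⟨hbt, hbs⟩).trans hN) htN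
    rcases hZ a aZ b bZ with h3 | h3
    · exact hne (sib_eq_of_anc hs h3)
    · exact hne (sib_eq_of_anc' hs h3)
  · exact hne hab

theorem Ctx.less_congr [Fintype V] (h : Ctx anc Q ks N mk r) {i : ℕ} (hi : i < r + 1)
    {Z : Set V} (hZ : Chain anc Z) {u v : V}
    (hu : u ∈ UU anc N (mk i) Z) (hv : v ∈ UU anc N (mk i) Z) :
    less anc (strict (WT anc Q ks N mk (i + 1)).1) u v ↔
      less anc (strict (Wfin anc Q ks N mk r g)) u v := by
  constructor
  · rintro (h1 | ⟨a, b, ha, hb, hs, hl⟩)
    · exact Or.inl h1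
    · exact Or.inr ⟨a, b, ha, hb, hs, strict_fin (by omega) hl⟩
  · rintro (h1 | ⟨a, b, ha, hb, hs, hl⟩)
    · exact Or.inl h1
    · have hne : a ≠ b := by rintro rfl; exact hl.2 hl.1
      have hd := fun h1 h2 => h.distinct hi hZ hs hne (UU_closed h.forest ha hu)
        (UU_closed h.forest hb hv) h1 h2
      by_cases h1 : (WT anc Q ks N mk (i + 1)).1 a b
      · exact Or.inr ⟨a, b, ha, hb, hs, h1, fun h2 => hd h1 h2⟩
      · rcases (h.wpre (i := i + 1) (by omega)).total a b hs with h2 | h2
        · exact absurd h2 h1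
        · have : strict (Wfin anc Q ks N mk r g) b a := strict_fin (by omega) ⟨h2, h1⟩
          exact absurd this.1 hl.2

open Classical in
/-- the rank of a class -/
noncomputable def rk [Fintype V] (anc W T : V → V → Prop) (a : V) : ℕ :=
  (Finset.univ.filter (fun b => sib anc a b ∧ lexc (W b a) (W a b) (T b a))).card

open Classical in
theorem rk_le [Fintype V] {W T : V → V → Prop} (hW : SibPre anc W) (hT : SibPre anc T)
    {a b : V} (hs : sib anc a b) :
    rk anc W T a ≤ rk anc W T b ↔ lexc (W a b) (W b a) (T a b) := by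
  have hp := hW.lex hT
  constructor
  · intro hle
    by_contra hn
    have hba : lexc (W b a) (W a b) (T b a) := by
      rcases hp.total a b hs with h | h
      · exact absurd h hn
      · exact h
    have : rk anc W T b < rk anc W T a := by
      unfold rk
      apply Finset.card_lt_card
      rw [Finset.ssubset_iff_of_subset]
      · refine ⟨a, ?_, ?_⟩
        · simp only [Finset.mem_filter, Finset.mem_univ, true_and]
          refine ⟨sib_refl a, ?_⟩
          have := hp.total a a (sib_refl a)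
          simpa using this
        · simp only [Finset.mem_filter, Finset.mem_univ, true_and]
          rintro ⟨_, h⟩
          exact hn h
      · intro x hx
        simp only [Finset.mem_filter, Finset.mem_univ, true_and] at hx ⊢
        exact ⟨sib_trans hs hx.1, hp.trans x b a (sib_symm hx.1) (sib_symm hs) hx.2 hba⟩
    omega
  · intro hab
    unfold rk
    apply Finset.card_le_card
    intro x hx
    simp only [Finset.mem_filter, Finset.mem_univ, true_and] at hx ⊢
    exact ⟨sib_trans (sib_symm hs) hx.1, hp.trans x a b (sib_symm hx.1) hs hx.2 hab⟩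

theorem rk_eq [Fintype V] {W T : V → V → Prop} (hW : SibPre anc W) (hT : SibPre anc T)
    {a b : V} (hs : sib anc a b) :
    rk anc W T a = rk anc W T b ↔ ((W a b ∧ W b a) ∧ (T a b ∧ T b a)) := by
  rw [le_antisymm_iff, rk_le hW hT hs, rk_le hW hT (sib_symm hs)]
  unfold lexc
  tauto

/-- the induction hypothesis -/
def HT (anc : V → V → Prop) (Q : ι → V → V → Prop) (ks : List (Option (Option ι)))
    (N : ℕ) (mk : ℕ → ℕ → Set V) (r : ℕ) (g : V → ℕ) (i : ℕ) : Prop :=
  ∀ y y', sib anc y y' → (WT anc Q ks N mk i).2 y y' → (WT anc Q ks N mk i).2 y' y →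
    EF (QQ anc (strict (Wfin anc Q ks N mk r g)) Q) i (Tr anc y) (Tr anc y')
      (idOn {z | sa anc z y})

open Classical in
theorem Ctx.phyp [Fintype V] (h : Ctx anc Q ks N mk r) (hg : Function.Injective g) {i : ℕ}
    (hi : i < r + 1) (hH : HT anc Q ks N mk r g i) (Z : Set V) :
    PHyp anc (strict (Wfin anc Q ks N mk r g)) Q
      (rk anc (WT anc Q ks N mk i).1 (WT anc Q ks N mk i).2) i (UU anc N (mk i) Z) := by
  have hW := h.wpre (i := i) (by omega)
  have hT : SibPre anc (WT anc Q ks N mk i).2 := T_pre h.forest i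
  have ok := h.ok i hi
  have hsl := h.siblin hg
  -- facts on an element outside of the pruned forest
  have hout : ∀ a, a ∉ UU anc N (mk i) Z → (∀ z, sa anc z a → z ∈ UU anc N (mk i) Z) →
      a ∈ mk i N := by
    intro a ha hsub
    by_contra hN
    apply ha
    intro c hc
    rcases h.forest.sa_or hc with rfl | hc
    · right
      obtain ⟨t, ht, hat⟩ := ok.1 c
      refine ⟨t, ht, ?_, hat⟩
      rintro rfl
      exact hN hat
    · exact hsub c hc c (h.forest.refl c)
  have hin : ∀ a b, (∀ z, sa anc z a → z ∈ UU anc N (mk i) Z) → sib anc a b → ∀ t ∈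
      List.range (2 * N + 1), t ≠ N → b ∈ mk i t → b ∈ UU anc N (mk i) Z := by
    intro a b hsub hs t ht htN hb c hc
    rcases h.forest.sa_or hc with rfl | hc
    · exact Or.inr ⟨t, ht, htN, hb⟩
    · exact hsub c ((hs c).2 hc) c (h.forest.refl c)
  have hltmark : ∀ a b s t, CL anc Q ks N mk i a b → s ∈ List.range (2 * N + 1) →
      t ∈ List.range (2 * N + 1) → a ∈ mk i s → b ∈ mk i t → s < t →
      strict (Wfin anc Q ks N mk r g) a b := by
    intro a b s t hc hs ht ha hb hst
    refine strict_fin (i := i + 1) (by omega) ?_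
    refine ⟨⟨hc.2.1.1, fun _ => ⟨hc.2.2.1, fun _ => ⟨s, hs, t, ht, hst.le, ha, hb⟩⟩⟩, ?_⟩
    rintro ⟨_, h1⟩
    obtain ⟨t', ht', s', hs', hle, hb', ha'⟩ := (h1 hc.2.1.1).2 hc.2.2.1
    have e1 := ok.2.1 a s hs s' hs' ⟨ha, ha'⟩
    have e2 := ok.2.1 b t ht t' ht' ⟨hb, hb'⟩
    omega
  refine ⟨h.forest, h.comp, hsl, ?_, ?_, ?_, ?_, ?_⟩
  · intro a b hs hl
    rw [rk_le hW hT hs]
    by_contra hn
    have hp := hW.lex hT
    have hba : lexc ((WT anc Q ks N mk i).1 b a) ((WT anc Q ks N mk i).1 a b)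
        ((WT anc Q ks N mk i).2 b a) := by
      rcases hp.total a b hs with h | h
      · exact absurd h hn
      · exact h
    have hst : strict (Wfin anc Q ks N mk r g) b a := by
      refine strict_fin (i := i + 1) (by omega) ?_
      unfold lexc at hn hba
      refine ⟨⟨hba.1, fun h1 => ⟨hba.2 h1, fun h2 => absurd ⟨h1, fun _ => h2⟩ hn⟩⟩, ?_⟩
      rintro ⟨h1, h2⟩
      exact hn ⟨h1, fun h3 => (h2 h3).1⟩
    exact hl.2 hst.1
  · intro a b hs hab
    rw [rk_eq hW hT hs] at hab
    exact hH a b hs hab.2.1 hab.2.2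
  · intro u v huv hv
    exact UU_closed h.forest huv hv
  · intro a ha hsub
    have haN := hout a ha hsub
    have hfull := ok.2.2.2 a haN
    have hex : ∀ t : ℕ, ∃ b, t < N → CL anc Q ks N mk i a b ∧ b ∈ mk i t := by
      intro t
      by_cases ht : t < N
      · rcases hfull t (by rw [List.mem_range]; omega) with h1 | ⟨b, h1, h2⟩
        · omega
        · exact ⟨b, fun _ => ⟨h1, h2⟩⟩
      · exact ⟨a, fun h => absurd h ht⟩
    choose bt hbt using hex
    refine ((thr_mono (by omega)).trans h.hN).trans ?_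
    have hcard : N = (Finset.range N).card := by simp
    conv_lhs => rw [hcard]
    apply Finset.card_le_card_of_injOn bt
    · intro t ht
      have ht' : t < N := by simpa using ht
      obtain ⟨h1, h2⟩ := hbt t ht'
      have hmem : t ∈ List.range (2 * N + 1) := by rw [List.mem_range]; omega
      simp only [Finset.coe_filter, Finset.mem_univ, true_and]
      refine ⟨h1.1, ?_, hin a _ hsub h1.1 t hmem (by omega) h2, ?_⟩
      · exact ((rk_eq hW hT h1.1).2 h1.2).symm
      · refine hltmark _ _ t N ⟨sib_symm h1.1, h1.2.1.symm, h1.2.2.symm⟩ hmem ?_ h2 haN ht'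
        rw [List.mem_range]; omega
    · intro t ht t' ht' he
      have ht1 : t < N := by simpa using ht
      have ht2 : t' < N := by simpa using ht'
      have h1 := (hbt t ht1).2
      have h2 := (hbt t' ht2).2
      rw [he] at h1
      exact ok.2.1 _ t (by rw [List.mem_range]; omega) t' (by rw [List.mem_range]; omega) ⟨h1, h2⟩
  · intro a ha hsub
    have haN := hout a ha hsub
    have hfull := ok.2.2.2 a haN
    have hex : ∀ t : ℕ, ∃ b, t < N → CL anc Q ks N mk i a b ∧ b ∈ mk i (N + 1 + t) := by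
      intro t
      by_cases ht : t < N
      · rcases hfull (N + 1 + t) (by rw [List.mem_range]; omega) with h1 | ⟨b, h1, h2⟩
        · omega
        · exact ⟨b, fun _ => ⟨h1, h2⟩⟩
      · exact ⟨a, fun h => absurd h ht⟩
    choose bt hbt using hex
    refine ((thr_mono (by omega)).trans h.hN).trans ?_
    have hcard : N = (Finset.range N).card := by simp
    conv_lhs => rw [hcard]
    apply Finset.card_le_card_of_injOn bt
    · intro t ht
      have ht' : t < N := by simpa using ht
      obtain ⟨h1, h2⟩ := hbt t ht'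
      have hmem : N + 1 + t ∈ List.range (2 * N + 1) := by rw [List.mem_range]; omega
      simp only [Finset.coe_filter, Finset.mem_univ, true_and]
      refine ⟨h1.1, ?_, hin a _ hsub h1.1 (N + 1 + t) hmem (by omega) h2, ?_⟩
      · exact ((rk_eq hW hT h1.1).2 h1.2).symm
      · refine hltmark _ _ N (N + 1 + t) h1 ?_ hmem haN h2 (by omega)
        rw [List.mem_range]; omega
    · intro t ht t' ht' he
      have ht1 : t < N := by simpa using ht
      have ht2 : t' < N := by simpa using ht'
      have h1 := (hbt t ht1).2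
      have h2 := (hbt t' ht2).2
      rw [he] at h1
      have := ok.2.1 _ (N + 1 + t) (by rw [List.mem_range]; omega) (N + 1 + t')
        (by rw [List.mem_range]; omega) ⟨h1, h2⟩
      omega

theorem QQ_congr {L L' : V → V → Prop} {X : Set V}
    (h : ∀ x ∈ X, ∀ y ∈ X, (less anc L x y ↔ less anc L' x y)) :
    ∀ x ∈ X, ∀ y ∈ X, ∀ κ, (QQ anc L Q κ x y ↔ QQ anc L' Q κ x y) := by
  intro x hx y hy κ
  match κ with
  | none => exact Iff.rfl
  | some none => exact h x hx y hy
  | some (some κ) => exact Iff.rfl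

theorem chain_anc (hF : Forest anc) (z : V) : Chain anc {x | anc x z} :=
  fun _ hx _ hy => hF.chain _ _ _ hx hy

theorem Ctx.HT_all [Fintype V] (h : Ctx anc Q ks N mk r) (hg : Function.Injective g) :
    ∀ i, i < r + 1 → HT anc Q ks N mk r g i
  | 0, _ => fun _ _ _ _ _ => idOn_pi _ _
  | i + 1, hi => by
    have hH := Ctx.HT_all h hg i (by omega)
    have hi' : i < r + 1 := by omega
    intro y y' hs h1 h2
    have hP : {x | sa anc x y'} = {x | sa anc x y} := by
      ext x; exact (hs x).symm
    set W := (WT anc Q ks N mk (i + 1)).1 with hW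
    have h1' : Tstep anc Q ks N W (mk i) i y y' := h1
    have h2' : Tstep anc Q ks N W (mk i) i y' y := h2
    unfold Tstep at h1' h2'
    rw [hP] at h2'
    obtain ⟨L, _, f, hf⟩ := LE_rep (q := QQ anc (strict W) Q) (ks := ks) h.forest
      (h.forest.chainP y) i 1
    have h5 := cpow_equiv
      (f := fun z => f (Tr anc y ∩ UU anc N (mk i) {x | anc x z}, ![z]))
      (f' := fun z' => f (Tr anc y' ∩ UU anc N (mk i) {x | anc x z'}, ![z']))
      (fun z _ z' _ => hf (Tr anc y ∩ UU anc N (mk i) {x | anc x z}, ![z])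
        (Tr anc y' ∩ UU anc N (mk i) {x | anc x z'}, ![z']))
      (fun z _ z' _ => hf (Tr anc y' ∩ UU anc N (mk i) {x | anc x z'}, ![z'])
        (Tr anc y ∩ UU anc N (mk i) {x | anc x z}, ![z])) h1' h2'
    have key : ∀ z ∈ Tr anc y, ∀ z' ∈ Tr anc y',
        LE anc {x | sa anc x y} (QQ anc (strict W) Q) ks i
          (Tr anc y ∩ UU anc N (mk i) {x | anc x z}) ![z]
          (Tr anc y' ∩ UU anc N (mk i) {x | anc x z'}) ![z'] →
        LE anc {x | sa anc x y} (QQ anc (strict W) Q) ks i
          (Tr anc y' ∩ UU anc N (mk i) {x | anc x z'}) ![z']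
          (Tr anc y ∩ UU anc N (mk i) {x | anc x z}) ![z] →
        EF (QQ anc (strict (Wfin anc Q ks N mk r g)) Q) i (Tr anc y) (Tr anc y')
          (add (idOn {x | sa anc x y}) z z') := by
      intro z hz z' hz' l1 l2
      have e0 := LE_ef h.forest (h.forest.chainP y) h.hks i l1 l2
      have hzU : z ∈ UU anc N (mk i) {x | anc x z} := fun a ha => Or.inl ha
      have hzU' : z' ∈ UU anc N (mk i) {x | anc x z'} := fun a ha => Or.inl ha
      have e1 : EF (QQ anc (strict (Wfin anc Q ks N mk r g)) Q) i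
          (Tr anc y ∩ UU anc N (mk i) {x | anc x z})
          (Tr anc y' ∩ UU anc N (mk i) {x | anc x z'}) (peb {x | sa anc x y} ![z] ![z']) := by
        refine e0.congrQ (X := UU anc N (mk i) {x | anc x z})
          (Y := UU anc N (mk i) {x | anc x z'}) Set.inter_subset_right Set.inter_subset_right
          ?_ ?_ ?_
        · rintro a b (⟨rfl, ha⟩ | ⟨j, rfl, rfl⟩)
          · refine ⟨fun c hc => Or.inl ?_, fun c hc => Or.inl ?_⟩
            · exact h.forest.trans _ _ _ hc (h.forest.trans _ _ _ ha.1 hz)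
            · exact h.forest.trans _ _ _ hc (h.forest.trans _ _ _ ((hs a).1 ha).1 hz')
          · have : j = 0 := Subsingleton.elim _ _
            subst this
            exact ⟨hzU, hzU'⟩
        · exact QQ_congr (fun x hx y hy => h.less_congr hi' (chain_anc h.forest z) hx hy)
        · exact QQ_congr (fun x hx y hy => h.less_congr hi' (chain_anc h.forest z') hx hy)
      have p1 := (h.phyp hg hi' hH {x | anc x z}).tree hzU hz
      have p2 := (h.phyp hg hi' hH {x | anc x z'}).tree hzU' hz'
      refine (p1.trans e1 (T := peb {x | sa anc x y} ![z] ![z']) ?_).trans p2.symm ?_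
      · rintro a b (⟨rfl, ha⟩ | ⟨j, rfl, rfl⟩)
        · exact ⟨a, ⟨rfl, Or.inl ha.1⟩, Or.inl ⟨rfl, ha⟩⟩
        · have : j = 0 := Subsingleton.elim _ _
          subst this
          exact ⟨z, ⟨rfl, Or.inr rfl⟩, Or.inr ⟨0, rfl, rfl⟩⟩
      · rintro a b (⟨rfl, ha⟩ | ⟨rfl, rfl⟩)
        · exact ⟨a, Or.inl ⟨rfl, ha⟩, ⟨rfl, Or.inl ((hs a).1 ha).1⟩⟩
        · exact ⟨b, Or.inr ⟨0, rfl, rfl⟩, ⟨rfl, Or.inr rfl⟩⟩
    refine ⟨idOn_pi _ _, ?_, ?_⟩
    · intro z hz
      obtain ⟨z', hz', l1, l2⟩ := h5.1 z hz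
      exact ⟨z', hz', key z hz z' hz' l1 l2⟩
    · intro z' hz'
      obtain ⟨z, hz, l1, l2⟩ := h5.2 z' hz'
      exact ⟨z, hz, key z hz z' hz' l1 l2⟩

/-- The final pruned forest. -/
def Ufin (anc : V → V → Prop) (N : ℕ) (mk : ℕ → ℕ → Set V) (r : ℕ) : Set V :=
  UU anc N (mk r) ∅

theorem Ctx.main [Fintype V] (h : Ctx anc Q ks N mk r) (hg : Function.Injective g) :
    EF (QQ anc (strict (Wfin anc Q ks N mk r g)) Q) r Set.univ (Ufin anc N mk r)
      (fun _ _ => False) :=
  (h.phyp hg (by omega) (h.HT_all hg r (by omega)) ∅).root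

theorem Ctx.main_congr [Fintype V] (h : Ctx anc Q ks N mk r) :
    ∀ x ∈ Ufin anc N mk r, ∀ y ∈ Ufin anc N mk r, ∀ κ,
      (QQ anc (strict (WT anc Q ks N mk (r + 1)).1) Q κ x y ↔
        QQ anc (strict (Wfin anc Q ks N mk r g)) Q κ x y) :=
  QQ_congr (fun x hx y hy => h.less_congr (Z := ∅) (by omega)
    (fun x hx => absurd hx (Set.notMem_empty x)) hx hy)

/-- the final order of the vertices -/
noncomputable def Ctx.order [Fintype V] (h : Ctx anc Q ks N mk r) (hg : Function.Injective g) :
    LinearOrder V := by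
  classical
  have hL := h.siblin hg
  have hirr := h.forest.less_irr hL.irr
  exact
  { le := fun u v => u = v ∨ less anc (strict (Wfin anc Q ks N mk r g)) u v
    lt := fun u v => less anc (strict (Wfin anc Q ks N mk r g)) u v
    le_refl := fun u => Or.inl rfl
    le_trans := by
      rintro u v w (rfl | h1) (rfl | h2)
      · exact Or.inl rfl
      · exact Or.inr h2
      · exact Or.inr h1
      · exact Or.inr (h.forest.less_trans hL h1 h2)
    le_antisymm := by
      rintro u v (rfl | h1) (h2 | h2)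
      · rfl
      · rfl
      · exact h2.symm
      · exact absurd (h.forest.less_trans hL h1 h2) (hirr u)
    lt_iff_le_not_ge := by
      intro u v
      constructor
      · intro h1
        refine ⟨Or.inr h1, ?_⟩
        rintro (rfl | h2)
        · exact hirr _ h1
        · exact hirr _ (h.forest.less_trans hL h1 h2)
      · rintro ⟨rfl | h1, h2⟩
        · exact absurd (Or.inl rfl) h2
        · exact h1
    le_total := by
      intro u v
      rcases h.forest.less_tri hL u v with h1 | h1 | h1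
      · exact Or.inl (Or.inr h1)
      · exact Or.inl (Or.inl h1)
      · exact Or.inr (Or.inr h1)
    toDecidableLE := fun _ _ => Classical.propDecidable _ }

theorem Ctx.order_lt [Fintype V] (h : Ctx anc Q ks N mk r) (hg : Function.Injective g) (u v : V) :
    (h.order hg).lt u v ↔ less anc (strict (Wfin anc Q ks N mk r g)) u v := Iff.rfl

end Run7.h625
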