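import Mathlib
import Pool.Agent.Run7.h625.Final
import Pool.Agent.Run7.h625.FOEval

/-!
# Definability of the construction
-/

namespace Run7.h625

/-- An abstract notion of uniform definability. -/
structure DefSys where
  /-- the objects -/
  Obj : Type 1
  /-- their universes -/
  V : Obj → Type
  /-- definable relations -/
  Def : ∀ n : ℕ, (∀ S : Obj, (Fin n → V S) → Prop) → Prop
  tru : ∀ n, Def n (fun _ _ => True)
  neg : ∀ {n : ℕ} {A : ∀ S : Obj, (Fin n → V S) → Prop}, Def n A → Def n (fun S e => ¬ A S e)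
  and : ∀ {n : ℕ} {A B : ∀ S : Obj, (Fin n → V S) → Prop}, Def n A → Def n B →
    Def n (fun S e => A S e ∧ B S e)
  ex : ∀ {n : ℕ} {A : ∀ S : Obj, (Fin (n + 1) → V S) → Prop}, Def (n + 1) A →
    Def n (fun S e => ∃ x : V S, A S (Fin.cons x e))
  eq : ∀ {n : ℕ} (i j : Fin n), Def n (fun S e => e i = e j)

namespace DefSys

variable {𝒟 : DefSys} {n : ℕ}

theorem cg {A B : ∀ S : 𝒟.Obj, (Fin n → 𝒟.V S) → Prop} (h : 𝒟.Def n A)
    (hAB : ∀ S e, A S e ↔ B S e) : 𝒟.Def n B := by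
  have : A = B := by
    funext S e; exact propext (hAB S e)
  rwa [← this]

theorem ex' {A : ∀ S : 𝒟.Obj, (Fin n → 𝒟.V S) → 𝒟.V S → Prop}
    (h : 𝒟.Def (n + 1) (fun S e => A S (fun i => e i.succ) (e 0))) :
    𝒟.Def n (fun S e => ∃ x, A S e x) := 𝒟.ex h

theorem all' {A : ∀ S : 𝒟.Obj, (Fin n → 𝒟.V S) → 𝒟.V S → Prop}
    (h : 𝒟.Def (n + 1) (fun S e => A S (fun i => e i.succ) (e 0))) :
    𝒟.Def n (fun S e => ∀ x, A S e x) := by
  have h1 := 𝒟.neg (ex' (A := fun S e x => ¬ A S e x) (𝒟.neg h))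
  exact cg h1 (fun S e => by simp)

theorem fls : 𝒟.Def n (fun _ _ => False) := cg (𝒟.neg (𝒟.tru n)) (fun _ _ => by simp)

theorem imp {A B : ∀ S : 𝒟.Obj, (Fin n → 𝒟.V S) → Prop} (hA : 𝒟.Def n A) (hB : 𝒟.Def n B) :
    𝒟.Def n (fun S e => A S e → B S e) :=
  cg (𝒟.neg (𝒟.and hA (𝒟.neg hB))) (fun S e => by tauto)

theorem or {A B : ∀ S : 𝒟.Obj, (Fin n → 𝒟.V S) → Prop} (hA : 𝒟.Def n A) (hB : 𝒟.Def n B) :
    𝒟.Def n (fun S e => A S e ∨ B S e) :=
  cg (𝒟.neg (𝒟.and (𝒟.neg hA) (𝒟.neg hB))) (fun S e => by tauto)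

theorem iff {A B : ∀ S : 𝒟.Obj, (Fin n → 𝒟.V S) → Prop} (hA : 𝒟.Def n A) (hB : 𝒟.Def n B) :
    𝒟.Def n (fun S e => A S e ↔ B S e) :=
  cg (𝒟.and (imp hA hB) (imp hB hA)) (fun S e => by tauto)

theorem const (p : Prop) : 𝒟.Def n (fun _ _ => p) := by
  by_cases h : p
  · exact cg (𝒟.tru n) (fun _ _ => by simp [h])
  · exact cg fls (fun _ _ => by simp [h])

theorem lall {α : Type} : ∀ (l : List α) {A : α → ∀ S : 𝒟.Obj, (Fin n → 𝒟.V S) → Prop},
    (∀ a ∈ l, 𝒟.Def n (A a)) → 𝒟.Def n (fun S e => ∀ a ∈ l, A a S e)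
  | [], _, _ => cg (𝒟.tru n) (fun _ _ => by simp)
  | a :: l, A, h => cg (𝒟.and (h a (by simp)) (lall l (fun b hb => h b (by simp [hb]))))
      (fun S e => by simp)

theorem lex {α : Type} : ∀ (l : List α) {A : α → ∀ S : 𝒟.Obj, (Fin n → 𝒟.V S) → Prop},
    (∀ a ∈ l, 𝒟.Def n (A a)) → 𝒟.Def n (fun S e => ∃ a ∈ l, A a S e)
  | [], _, _ => cg fls (fun _ _ => by simp)
  | a :: l, A, h => cg (or (h a (by simp)) (lex l (fun b hb => h b (by simp [hb]))))
      (fun S e => by simp)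

/-- definable binary relations -/
def D2 (𝒟 : DefSys) (r : ∀ S : 𝒟.Obj, 𝒟.V S → 𝒟.V S → Prop) : Prop :=
  ∀ (n : ℕ) (i j : Fin n), 𝒟.Def n (fun S e => r S (e i) (e j))

/-- definable sets -/
def D1 (𝒟 : DefSys) (r : ∀ S : 𝒟.Obj, 𝒟.V S → Prop) : Prop :=
  ∀ (n : ℕ) (i : Fin n), 𝒟.Def n (fun S e => r S (e i))

variable {anc L W T : ∀ S : 𝒟.Obj, 𝒟.V S → 𝒟.V S → Prop}

theorem d_sa (h : 𝒟.D2 anc) : 𝒟.D2 (fun S => sa (anc S)) := fun n i j =>
  𝒟.and (h n i j) (𝒟.neg (𝒟.eq i j))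

theorem d_sib (h : 𝒟.D2 anc) : 𝒟.D2 (fun S => sib (anc S)) := fun n i j =>
  all' (A := fun S e x => sa (anc S) x (e i) ↔ sa (anc S) x (e j))
    (iff (d_sa h (n + 1) 0 i.succ) (d_sa h (n + 1) 0 j.succ))

theorem d_strict (h : 𝒟.D2 W) : 𝒟.D2 (fun S => strict (W S)) := fun n i j =>
  𝒟.and (h n i j) (𝒟.neg (h n j i))

theorem d_less (h : 𝒟.D2 anc) (hL : 𝒟.D2 L) : 𝒟.D2 (fun S => less (anc S) (L S)) := fun n i j =>
  or (d_sa h n i j) (ex' (A := fun S e a => ∃ b, anc S a (e i) ∧ anc S b (e j) ∧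
    sib (anc S) a b ∧ L S a b) (ex' (A := fun S e b => anc S (e 0) (e i.succ) ∧
      anc S b (e j.succ) ∧ sib (anc S) (e 0) b ∧ L S (e 0) b)
      (𝒟.and (h (n + 2) _ i.succ.succ) (𝒟.and (h (n + 2) 0 j.succ.succ)
        (𝒟.and (d_sib h (n + 2) _ 0) (hL (n + 2) _ 0))))))

theorem d_QQ {ι : Type} {Q : ι → ∀ S : 𝒟.Obj, 𝒟.V S → 𝒟.V S → Prop} (h : 𝒟.D2 anc)
    (hL : 𝒟.D2 L) (hQ : ∀ κ, 𝒟.D2 (Q κ)) (κ : Option (Option ι)) :
    𝒟.D2 (fun S => QQ (anc S) (L S) (fun κ => Q κ S) κ) := by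
  match κ with
  | none => exact fun n i j => 𝒟.eq i j
  | some none => exact d_less h hL
  | some (some κ) => exact hQ κ

theorem d_lexc {A B C : ∀ S : 𝒟.Obj, (Fin n → 𝒟.V S) → Prop} (hA : 𝒟.Def n A) (hB : 𝒟.Def n B)
    (hC : 𝒟.Def n C) : 𝒟.Def n (fun S e => lexc (A S e) (B S e) (C S e)) :=
  𝒟.and hA (imp hB hC)

theorem d_cpow {A A' : ∀ S : 𝒟.Obj, (Fin n → 𝒟.V S) → Set (𝒟.V S)}
    {le ge : ∀ S : 𝒟.Obj, (Fin n → 𝒟.V S) → 𝒟.V S → 𝒟.V S → Prop}
    (hA : ∀ (m : ℕ) (g : Fin n → Fin m) (i : Fin m),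
      𝒟.Def m (fun S e => e i ∈ A S (fun l => e (g l))))
    (hA' : ∀ (m : ℕ) (g : Fin n → Fin m) (i : Fin m),
      𝒟.Def m (fun S e => e i ∈ A' S (fun l => e (g l))))
    (hle : ∀ (m : ℕ) (g : Fin n → Fin m) (i j : Fin m),
      𝒟.Def m (fun S e => le S (fun l => e (g l)) (e i) (e j)))
    (hge : ∀ (m : ℕ) (g : Fin n → Fin m) (i j : Fin m),
      𝒟.Def m (fun S e => ge S (fun l => e (g l)) (e i) (e j))) :
    𝒟.Def n (fun S e => cpow (A S e) (A' S e) (le S e) (ge S e)) := by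
  refine all' (A := fun S e x => x ∈ A S e → ((∀ x' ∈ A' S e, ¬ (le S e x x' ∧ ge S e x x')) →
    ∃ x' ∈ A' S e, (∀ x'' ∈ A S e, ¬ (le S e x'' x' ∧ ge S e x'' x')) ∧ le S e x x')) ?_
  refine imp (hA (n + 1) Fin.succ 0) (imp ?_ ?_)
  · refine all' (A := fun S e x' => x' ∈ A' S (fun l => e l.succ) →
      ¬ (le S (fun l => e l.succ) (e 0) x' ∧ ge S (fun l => e l.succ) (e 0) x')) ?_
    exact imp (hA' (n + 2) (fun l => l.succ.succ) 0)
      (𝒟.neg (𝒟.and (hle (n + 2) (fun l => l.succ.succ) _ 0)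
        (hge (n + 2) (fun l => l.succ.succ) _ 0)))
  · refine ex' (A := fun S e x' => x' ∈ A' S (fun l => e l.succ) ∧
      ((∀ x'' ∈ A S (fun l => e l.succ), ¬ (le S (fun l => e l.succ) x'' x' ∧
        ge S (fun l => e l.succ) x'' x')) ∧ le S (fun l => e l.succ) (e 0) x')) ?_
    refine 𝒟.and (hA' (n + 2) (fun l => l.succ.succ) 0) (𝒟.and ?_
      (hle (n + 2) (fun l => l.succ.succ) _ 0))
    refine all' (A := fun S e x'' => x'' ∈ A S (fun l => e l.succ.succ) →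
      ¬ (le S (fun l => e l.succ.succ) x'' (e 0) ∧ ge S (fun l => e l.succ.succ) x'' (e 0))) ?_
    exact imp (hA (n + 3) (fun l => l.succ.succ.succ) 0)
      (𝒟.neg (𝒟.and (hle (n + 3) (fun l => l.succ.succ.succ) 0 _)
        (hge (n + 3) (fun l => l.succ.succ.succ) 0 _)))

/-- codes of basic comparisons -/
def codes {K : Type} (ks : List K) (p : ℕ) : List (K × Fin p × Option (Option (Fin p))) :=
  ks.flatMap fun κ => (List.finRange p).flatMap fun j =>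
    [(κ, j, none), (κ, j, some none)] ++ (List.finRange p).map fun i => (κ, j, some (some i))

/-- the comparison of a code -/
def cmp {K V : Type} (anc : V → V → Prop) (P : Set V) (q : K → V → V → Prop) {p : ℕ} :
    K × Fin p × Option (Option (Fin p)) → (Fin p → V) → (Fin p → V) → Prop
  | (κ, j, none) => fun u u' => cmpS anc P {x | q κ x (u j)} {x | q κ x (u' j)}
  | (κ, j, some none) => fun u u' => cmpS anc P {x | q κ (u j) x} {x | q κ (u' j) x}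
  | (κ, j, some (some i)) => fun u u' => (q κ (u i) (u j) → q κ (u' i) (u' j))

theorem baseL_eq {K V : Type} (anc : V → V → Prop) (P : Set V) (q : K → V → V → Prop)
    (ks : List K) (p : ℕ) : baseL anc P q ks p = (codes ks p).map (cmp anc P q) := by
  unfold baseL codes
  rw [List.map_flatMap]
  congr 1
  funext κ
  rw [List.map_flatMap]
  congr 1
  funext j
  rw [List.map_append, List.map_map]
  rfl

theorem d_lexL {α : Type} {p : ℕ} : ∀ (l : List α)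
    {c : α → ∀ S : 𝒟.Obj, (Fin n → 𝒟.V S) → (Fin p → 𝒟.V S) → (Fin p → 𝒟.V S) → Prop}
    {u u' : ∀ S : 𝒟.Obj, (Fin n → 𝒟.V S) → (Fin p → 𝒟.V S)},
    (∀ a ∈ l, 𝒟.Def n (fun S e => c a S e (u S e) (u' S e))) →
    (∀ a ∈ l, 𝒟.Def n (fun S e => c a S e (u' S e) (u S e))) →
    𝒟.Def n (fun S e => lexL (l.map (fun a => c a S e)) (u S e) (u' S e))
  | [], _, _, _, _, _ => 𝒟.tru n
  | a :: l, c, u, u', h, h' => d_lexc (h a (by simp)) (h' a (by simp))
      (d_lexL l (fun b hb => h b (by simp [hb])) (fun b hb => h' b (by simp [hb])))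

theorem d_base {K : Type} {q : K → ∀ S : 𝒟.Obj, 𝒟.V S → 𝒟.V S → Prop} (ks : List K)
    (hanc : 𝒟.D2 anc) (hq : ∀ κ, 𝒟.D2 (q κ)) {p : ℕ} {n : ℕ} (iP : Fin n)
    (a a' : Fin p → Fin n) : 𝒟.Def n (fun S e => baseC (anc S) {x | sa (anc S) x (e iP)}
      (fun κ => q κ S) ks (fun j => e (a j)) (fun j => e (a' j))) := by
  have key : ∀ (a a' : Fin p → Fin n) (c : K × Fin p × Option (Option (Fin p))),
      𝒟.Def n (fun S e => cmp (anc S) {x | sa (anc S) x (e iP)} (fun κ => q κ S) c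
        (fun j => e (a j)) (fun j => e (a' j))) := by
    intro a a' c
    obtain ⟨κ, j, o⟩ := c
    match o with
    | none =>
      refine d_cpow (A := fun S e => {x | sa (anc S) x (e iP)} ∩ {x | q κ S x (e (a j))})
        (A' := fun S e => {x | sa (anc S) x (e iP)} ∩ {x | q κ S x (e (a' j))})
        (le := fun S _ => anc S) (ge := fun S _ x y => anc S y x) ?_ ?_ ?_ ?_
      · intro m g i
        exact 𝒟.and (d_sa hanc m i (g iP)) (hq κ m i (g (a j)))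
      · intro m g i
        exact 𝒟.and (d_sa hanc m i (g iP)) (hq κ m i (g (a' j)))
      · intro m g i j
        exact hanc m i j
      · intro m g i j
        exact hanc m j i
    | some none =>
      refine d_cpow (A := fun S e => {x | sa (anc S) x (e iP)} ∩ {x | q κ S (e (a j)) x})
        (A' := fun S e => {x | sa (anc S) x (e iP)} ∩ {x | q κ S (e (a' j)) x})
        (le := fun S _ => anc S) (ge := fun S _ x y => anc S y x) ?_ ?_ ?_ ?_
      · intro m g i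
        exact 𝒟.and (d_sa hanc m i (g iP)) (hq κ m (g (a j)) i)
      · intro m g i
        exact 𝒟.and (d_sa hanc m i (g iP)) (hq κ m (g (a' j)) i)
      · intro m g i j
        exact hanc m i j
      · intro m g i j
        exact hanc m j i
    | some (some i) =>
      exact imp (hq κ n (a i) (a j)) (hq κ n (a' i) (a' j))
  have h := d_lexL (𝒟 := 𝒟) (n := n) (codes ks p)
    (c := fun c S e => cmp (anc S) {x | sa (anc S) x (e iP)} (fun κ => q κ S) c)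
    (u := fun S e => fun j => e (a j)) (u' := fun S e => fun j => e (a' j))
    (fun c _ => key a a' c) (fun c _ => key a' a c)
  refine cg h ?_
  intro S e
  unfold baseC
  rw [baseL_eq]

theorem vecCons_comp {V : Type} {n p : ℕ} (e : Fin n → V) (i : Fin n) (a : Fin p → Fin n) :
    Matrix.vecCons (e i) (fun j => e (a j)) = fun j => e (Matrix.vecCons i a j) := by
  funext j
  refine Fin.cases ?_ (fun j => ?_) j
  · rfl
  · rfl

/-- definability of the comparison of positions -/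
theorem d_LE {K : Type} {q : K → ∀ S : 𝒟.Obj, 𝒟.V S → 𝒟.V S → Prop} (ks : List K)
    (hanc : 𝒟.D2 anc) (hq : ∀ κ, 𝒟.D2 (q κ))
    {DD : ∀ S : 𝒟.Obj, 𝒟.V S → 𝒟.V S → Set (𝒟.V S)}
    (hDD : ∀ (n : ℕ) (x y z : Fin n), 𝒟.Def n (fun S e => e x ∈ DD S (e y) (e z))) :
    ∀ (k : ℕ) {p : ℕ} {n : ℕ} (iP y z y' z' : Fin n) (a a' : Fin p → Fin n),
    𝒟.Def n (fun S e => LE (anc S) {x | sa (anc S) x (e iP)} (fun κ => q κ S) ks k
      (DD S (e y) (e z)) (fun j => e (a j)) (DD S (e y') (e z')) (fun j => e (a' j)))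
  | 0, _, _, iP, _, _, _, _, a, a' => d_base ks hanc hq iP a a'
  | k + 1, p, n, iP, y, z, y', z', a, a' => by
    refine d_lexc (d_base ks hanc hq iP a a') (d_base ks hanc hq iP a' a) ?_
    refine d_cpow (A := fun S e => DD S (e y) (e z)) (A' := fun S e => DD S (e y') (e z'))
      (le := fun S e x x' => LE (anc S) {x | sa (anc S) x (e iP)} (fun κ => q κ S) ks k
        (DD S (e y) (e z)) (Matrix.vecCons x (fun j => e (a j)))
        (DD S (e y') (e z')) (Matrix.vecCons x' (fun j => e (a' j))))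
      (ge := fun S e x x' => LE (anc S) {x | sa (anc S) x (e iP)} (fun κ => q κ S) ks k
        (DD S (e y') (e z')) (Matrix.vecCons x' (fun j => e (a' j)))
        (DD S (e y) (e z)) (Matrix.vecCons x (fun j => e (a j)))) ?_ ?_ ?_ ?_
    · intro m g i
      exact hDD m i (g y) (g z)
    · intro m g i
      exact hDD m i (g y') (g z')
    · intro m g i j
      refine cg (d_LE ks hanc hq hDD k (g iP) (g y) (g z) (g y') (g z')
        (Matrix.vecCons i (fun l => g (a l))) (Matrix.vecCons j (fun l => g (a' l)))) ?_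
      intro S e
      rw [← vecCons_comp, ← vecCons_comp]
    · intro m g i j
      refine cg (d_LE ks hanc hq hDD k (g iP) (g y') (g z') (g y) (g z)
        (Matrix.vecCons j (fun l => g (a' l))) (Matrix.vecCons i (fun l => g (a l)))) ?_
      intro S e
      rw [← vecCons_comp, ← vecCons_comp]

variable {N : ℕ}

theorem d_Ret {m : ℕ → ∀ S : 𝒟.Obj, Set (𝒟.V S)} (hm : ∀ t, 𝒟.D1 (fun S x => x ∈ m t S))
    (n : ℕ) (i : Fin n) : 𝒟.Def n (fun S e => Ret N (fun t => m t S) (e i)) :=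
  lex _ (fun t _ => 𝒟.and (const _) (hm t n i))

theorem d_markle {m : ℕ → ∀ S : 𝒟.Obj, Set (𝒟.V S)} (hm : ∀ t, 𝒟.D1 (fun S x => x ∈ m t S)) :
    𝒟.D2 (fun S => markle N (fun t => m t S)) := fun n i j =>
  lex _ (fun t _ => lex _ (fun t' _ => 𝒟.and (const _) (𝒟.and (hm t n i) (hm t' n j))))

theorem d_UU {m : ℕ → ∀ S : 𝒟.Obj, Set (𝒟.V S)} (hanc : 𝒟.D2 anc)
    (hm : ∀ t, 𝒟.D1 (fun S x => x ∈ m t S)) (n : ℕ) (i j : Fin n) :
    𝒟.Def n (fun S e => e i ∈ UU (anc S) N (fun t => m t S) {x | anc S x (e j)}) :=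
  all' (A := fun S e a => anc S a (e i) → (a ∈ {x | anc S x (e j)} ∨ Ret N (fun t => m t S) a))
    (imp (hanc (n + 1) 0 i.succ) (or (hanc (n + 1) 0 j.succ) (d_Ret hm (n + 1) 0)))

theorem d_UU0 {m : ℕ → ∀ S : 𝒟.Obj, Set (𝒟.V S)} (hanc : 𝒟.D2 anc)
    (hm : ∀ t, 𝒟.D1 (fun S x => x ∈ m t S)) :
    𝒟.D1 (fun S x => x ∈ UU (anc S) N (fun t => m t S) ∅) := fun n i =>
  all' (A := fun S e a => anc S a (e i) → (a ∈ (∅ : Set (𝒟.V S)) ∨ Ret N (fun t => m t S) a))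
    (imp (hanc (n + 1) 0 i.succ) (or (const False) (d_Ret hm (n + 1) 0)))

theorem d_Tstep {ι : Type} {Q : ι → ∀ S : 𝒟.Obj, 𝒟.V S → 𝒟.V S → Prop}
    (ks : List (Option (Option ι))) (hanc : 𝒟.D2 anc) (hQ : ∀ κ, 𝒟.D2 (Q κ)) (hW : 𝒟.D2 W)
    {m : ℕ → ∀ S : 𝒟.Obj, Set (𝒟.V S)} (hm : ∀ t, 𝒟.D1 (fun S x => x ∈ m t S)) (k : ℕ) :
    𝒟.D2 (fun S => Tstep (anc S) (fun κ => Q κ S) ks N (W S) (fun t => m t S) k) := by
  intro n y y'
  have hq := fun κ => d_QQ hanc (d_strict hW) hQ κ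
  have hDD : ∀ (n : ℕ) (x y z : Fin n), 𝒟.Def n (fun S e => e x ∈
      (Tr (anc S) (e y) ∩ UU (anc S) N (fun t => m t S) {x | anc S x (e z)})) :=
    fun n x y z => 𝒟.and (hanc n y x) (d_UU hanc hm n x z)
  refine d_cpow (A := fun S e => Tr (anc S) (e y)) (A' := fun S e => Tr (anc S) (e y'))
    (le := fun S e z z' => LE (anc S) {x | sa (anc S) x (e y)}
      (QQ (anc S) (strict (W S)) (fun κ => Q κ S)) ks k
      (Tr (anc S) (e y) ∩ UU (anc S) N (fun t => m t S) {x | anc S x z}) ![z]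
      (Tr (anc S) (e y') ∩ UU (anc S) N (fun t => m t S) {x | anc S x z'}) ![z'])
    (ge := fun S e z z' => LE (anc S) {x | sa (anc S) x (e y)}
      (QQ (anc S) (strict (W S)) (fun κ => Q κ S)) ks k
      (Tr (anc S) (e y') ∩ UU (anc S) N (fun t => m t S) {x | anc S x z'}) ![z']
      (Tr (anc S) (e y) ∩ UU (anc S) N (fun t => m t S) {x | anc S x z}) ![z]) ?_ ?_ ?_ ?_
  · intro m g i
    exact hanc m (g y) i
  · intro m g i
    exact hanc m (g y') i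
  · intro m' g i j
    have := d_LE (𝒟 := 𝒟) ks hanc hq
      (DD := fun S y z => Tr (anc S) y ∩ UU (anc S) N (fun t => m t S) {x | anc S x z}) hDD k (p := 1) (g y) (g y) i (g y') j
      (fun _ => i) (fun _ => j)
    refine cg this ?_
    intro S e
    have e1 : ∀ x : 𝒟.V S, (![x] : Fin 1 → 𝒟.V S) = fun _ => x := by
      intro x; funext l
      have : l = 0 := Subsingleton.elim _ _
      subst this
      rfl
    rw [e1, e1]
  · intro m' g i j
    have := d_LE (𝒟 := 𝒟) ks hanc hq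
      (DD := fun S y z => Tr (anc S) y ∩ UU (anc S) N (fun t => m t S) {x | anc S x z}) hDD k (p := 1) (g y) (g y') j (g y) i
      (fun _ => j) (fun _ => i)
    refine cg this ?_
    intro S e
    have e1 : ∀ x : 𝒟.V S, (![x] : Fin 1 → 𝒟.V S) = fun _ => x := by
      intro x; funext l
      have : l = 0 := Subsingleton.elim _ _
      subst this
      rfl
    rw [e1, e1]

theorem d_Wstep (hW : 𝒟.D2 W) (hT : 𝒟.D2 T) {m : ℕ → ∀ S : 𝒟.Obj, Set (𝒟.V S)}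
    (hm : ∀ t, 𝒟.D1 (fun S x => x ∈ m t S)) :
    𝒟.D2 (fun S => Wstep N (W S) (T S) (fun t => m t S)) := fun n i j =>
  d_lexc (hW n i j) (hW n j i) (d_lexc (hT n i j) (hT n j i) (d_markle hm n i j))

theorem d_WT {ι : Type} {Q : ι → ∀ S : 𝒟.Obj, 𝒟.V S → 𝒟.V S → Prop}
    (ks : List (Option (Option ι))) (hanc : 𝒟.D2 anc) (hQ : ∀ κ, 𝒟.D2 (Q κ))
    {mk : ℕ → ℕ → ∀ S : 𝒟.Obj, Set (𝒟.V S)} (hm : ∀ i t, 𝒟.D1 (fun S x => x ∈ mk i t S)) :
    ∀ (i : ℕ), 𝒟.D2 (fun S => (WT (anc S) (fun κ => Q κ S) ks N (fun i t => mk i t S) i).1) ∧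
      𝒟.D2 (fun S => (WT (anc S) (fun κ => Q κ S) ks N (fun i t => mk i t S) i).2)
  | 0 => ⟨fun n _ _ => 𝒟.tru n, fun n _ _ => 𝒟.tru n⟩
  | i + 1 => by
    obtain ⟨h1, h2⟩ := d_WT ks hanc hQ hm i
    have h3 := d_Wstep (N := N) h1 h2 (hm i)
    exact ⟨h3, d_Tstep ks hanc hQ h3 (hm i) i⟩

theorem d_CL {ι : Type} {Q : ι → ∀ S : 𝒟.Obj, 𝒟.V S → 𝒟.V S → Prop}
    (ks : List (Option (Option ι))) (hanc : 𝒟.D2 anc) (hQ : ∀ κ, 𝒟.D2 (Q κ))
    {mk : ℕ → ℕ → ∀ S : 𝒟.Obj, Set (𝒟.V S)} (hm : ∀ i t, 𝒟.D1 (fun S x => x ∈ mk i t S))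
    (i : ℕ) : 𝒟.D2 (fun S => CL (anc S) (fun κ => Q κ S) ks N (fun i t => mk i t S) i) :=
  fun n a b => by
    obtain ⟨h1, h2⟩ := d_WT (N := N) ks hanc hQ hm i
    exact 𝒟.and (d_sib hanc n a b) (𝒟.and (𝒟.and (h1 n a b) (h1 n b a))
      (𝒟.and (h2 n a b) (h2 n b a)))

theorem d_MarkOK {C : ∀ S : 𝒟.Obj, 𝒟.V S → 𝒟.V S → Prop} (hC : 𝒟.D2 C)
    {m : ℕ → ∀ S : 𝒟.Obj, Set (𝒟.V S)} (hm : ∀ t, 𝒟.D1 (fun S x => x ∈ m t S)) (n : ℕ) :
    𝒟.Def n (fun S _ => MarkOK N (C S) (fun t => m t S)) := by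
  refine 𝒟.and ?_ (𝒟.and ?_ (𝒟.and ?_ ?_))
  · refine all' (A := fun S _ a => ∃ t ∈ List.range (2 * N + 1), a ∈ m t S) ?_
    exact lex _ (fun t _ => hm t _ 0)
  · refine all' (A := fun S _ a => ∀ t ∈ List.range (2 * N + 1),
      ∀ t' ∈ List.range (2 * N + 1), (a ∈ m t S ∧ a ∈ m t' S) → t = t') ?_
    exact lall _ (fun t _ => lall _ (fun t' _ => imp (𝒟.and (hm t _ 0) (hm t' _ 0)) (const _)))
  · refine all' (A := fun S _ a => ∀ b, C S a b → ∀ t ∈ List.range (2 * N + 1),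
      (a ∈ m t S ∧ b ∈ m t S) → (t = N ∨ a = b)) ?_
    refine all' (A := fun S e b => C S (e 0) b → ∀ t ∈ List.range (2 * N + 1),
      ((e 0) ∈ m t S ∧ b ∈ m t S) → (t = N ∨ (e 0) = b)) ?_
    exact imp (hC _ _ 0) (lall _ (fun t _ => imp (𝒟.and (hm t _ _) (hm t _ 0))
      (or (const _) (𝒟.eq _ 0))))
  · refine all' (A := fun S _ a => a ∈ m N S → ∀ t ∈ List.range (2 * N + 1),
      (t = N ∨ ∃ b, C S a b ∧ b ∈ m t S)) ?_
    refine imp (hm N _ 0) (lall _ (fun t _ => or (const _) ?_))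
    refine ex' (A := fun S e b => C S (e 0) b ∧ b ∈ m t S) ?_
    exact 𝒟.and (hC _ _ 0) (hm t _ 0)

theorem d_Forest (hanc : 𝒟.D2 anc) (n : ℕ) : 𝒟.Def n (fun S _ => Forest (anc S)) := by
  have h : 𝒟.Def n (fun S _ => (∀ x, anc S x x) ∧ (∀ x y, anc S x y → anc S y x → x = y) ∧
      (∀ x y z, anc S x y → anc S y z → anc S x z) ∧
      (∀ x y z, anc S x z → anc S y z → (anc S x y ∨ anc S y x))) := by
    refine 𝒟.and ?_ (𝒟.and ?_ (𝒟.and ?_ ?_))
    · exact all' (A := fun S _ x => anc S x x) (hanc _ 0 0)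
    · refine all' (A := fun S _ x => ∀ y, anc S x y → anc S y x → x = y) ?_
      refine all' (A := fun S e y => anc S (e 0) y → anc S y (e 0) → (e 0) = y) ?_
      exact imp (hanc _ _ 0) (imp (hanc _ 0 _) (𝒟.eq _ 0))
    · refine all' (A := fun S _ x => ∀ y z, anc S x y → anc S y z → anc S x z) ?_
      refine all' (A := fun S e y => ∀ z, anc S (e 0) y → anc S y z → anc S (e 0) z) ?_
      refine all' (A := fun S e z => anc S (e 1) (e 0) → anc S (e 0) z → anc S (e 1) z) ?_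
      exact imp (hanc _ _ _) (imp (hanc _ _ 0) (hanc _ _ 0))
    · refine all' (A := fun S _ x => ∀ y z, anc S x z → anc S y z → (anc S x y ∨ anc S y x)) ?_
      refine all' (A := fun S e y => ∀ z, anc S (e 0) z → anc S y z →
        (anc S (e 0) y ∨ anc S y (e 0))) ?_
      refine all' (A := fun S e z => anc S (e 1) z → anc S (e 0) z →
        (anc S (e 1) (e 0) ∨ anc S (e 0) (e 1))) ?_
      exact imp (hanc _ _ 0) (imp (hanc _ _ 0) (or (hanc _ _ _) (hanc _ _ _)))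
  refine cg h (fun S e => ⟨fun h => ⟨h.1, h.2.1, h.2.2.1, h.2.2.2⟩,
    fun h => ⟨h.refl, h.antisymm, h.trans, h.chain⟩⟩)

theorem d_Comparable {ι : Type} {Q : ι → ∀ S : 𝒟.Obj, 𝒟.V S → 𝒟.V S → Prop}
    {l : List ι} (hl : ∀ κ, κ ∈ l) (hanc : 𝒟.D2 anc) (hQ : ∀ κ, 𝒟.D2 (Q κ)) (n : ℕ) :
    𝒟.Def n (fun S _ => Comparable (anc S) (fun κ => Q κ S)) := by
  have h : 𝒟.Def n (fun S _ => ∀ κ ∈ l, ∀ x y, Q κ S x y → (anc S x y ∨ anc S y x)) := by
    refine lall _ (fun κ _ => ?_)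
    refine all' (A := fun S _ x => ∀ y, Q κ S x y → (anc S x y ∨ anc S y x)) ?_
    refine all' (A := fun S e y => Q κ S (e 0) y → (anc S (e 0) y ∨ anc S y (e 0))) ?_
    exact imp (hQ κ _ _ 0) (or (hanc _ _ 0) (hanc _ 0 _))
  exact cg h (fun S e => ⟨fun h κ x y hxy => h κ (hl κ) x y hxy,
    fun h κ _ x y hxy => h κ x y hxy⟩)

open FirstOrder FirstOrder.Language in
theorem d_relSat {k : ℕ} {E lt : ∀ S : 𝒟.Obj, 𝒟.V S → 𝒟.V S → Prop}
    {P : ∀ S : 𝒟.Obj, Fin k → 𝒟.V S → Prop} {D : ∀ S : 𝒟.Obj, Set (𝒟.V S)}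
    (hE : 𝒟.D2 E) (hlt : 𝒟.D2 lt) (hP : ∀ c, 𝒟.D1 (fun S => P S c))
    (hD : 𝒟.D1 (fun S x => x ∈ D S)) : ∀ {l : ℕ} (φ : (OGLang k).BoundedFormula Empty l)
    {n : ℕ} (g : Fin l → Fin n),
    𝒟.Def n (fun S e => relSat (E S) (lt S) (P S) (D S) φ (fun i => e (g i))) := by
  intro l φ
  induction φ with
  | falsum => intro n g; exact fls
  | equal t₁ t₂ => intro n g; exact 𝒟.eq _ _
  | rel R ts =>
    intro n g
    show 𝒟.Def n (fun S e => atom (E S) (lt S) (P S) R (fun i => e (g (tv (ts i)))))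
    revert ts
    cases R with
    | edge => intro ts; exact hE n _ _
    | less => intro ts; exact hlt n _ _
    | colour c => intro ts; exact hP c n _
  | imp φ ψ ih1 ih2 => intro n g; exact imp (ih1 g) (ih2 g)
  | all φ ih =>
    intro n g
    refine all' (A := fun S e x => x ∈ D S → relSat (E S) (lt S) (P S) (D S) φ
      (Fin.snoc (fun i => e (g i)) x)) ?_
    refine imp (hD _ 0) ?_
    refine cg (ih (n := n + 1) (Fin.snoc (fun i => (g i).succ) 0)) ?_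
    intro S e
    have : (fun i => e ((Fin.snoc (fun i => (g i).succ) 0 : Fin _ → Fin (n + 1)) i)) =
        (Fin.snoc (fun i => e (g i).succ) (e 0) : Fin _ → 𝒟.V S) := by
      funext i
      refine Fin.lastCases ?_ (fun j => ?_) i
      · simp only [Fin.snoc_last]
      · simp only [Fin.snoc_castSucc]
    rw [this]

end DefSys

end Run7.h625
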