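import Mathlib
import Pool.Agent.Run7.h625.DefSys

/-!
# The core theorem
-/

namespace Run7.h625

open FirstOrder FirstOrder.Language

variable {V ι : Type} {k : ℕ}

theorem det_eq {anc L : V → V → Prop} {Q : ι → V → V → Prop} : Det (QQ anc L Q) Eq :=
  fun _ hR u w u' w' h h' => hR u w u' w' h h' none

theorem det_less {anc L : V → V → Prop} {Q : ι → V → V → Prop} :
    Det (QQ anc L Q) (less anc L) :=
  fun _ hR u w u' w' h h' => hR u w u' w' h h' (some none)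

theorem det_Q {anc L : V → V → Prop} {Q : ι → V → V → Prop} (κ : ι) :
    Det (QQ anc L Q) (Q κ) :=
  fun _ hR u w u' w' h h' => hR u w u' w' h h' (some (some κ))

/-- The comparison with the whole structure. -/
theorem Ctx.eval [Finite V] {anc : V → V → Prop} {Q : ι → V → V → Prop}
    {ks : List (Option (Option ι))} {N : ℕ} {mk : ℕ → ℕ → Set V} {r : ℕ}
    (h : Ctx anc Q ks N mk r) {E : V → V → Prop} {P : Fin k → V → Prop}
    (hE : ∀ L, Det (QQ anc L Q) E) (hP : ∀ L c, Det (QQ anc L Q) (fun x y => x = y ∧ P c x))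
    (φ : (OGLang k).BoundedFormula Empty 0) (hφ : qd φ ≤ r) :
    ∃ o : LinearOrder V, ∀ v v' : Fin 0 → V, (relSat E o.lt P Set.univ φ v ↔
      relSat E (less anc (strict (WT anc Q ks N mk (r + 1)).1)) P (Ufin anc N mk r) φ v') := by
  have := Fintype.ofFinite V
  obtain ⟨g, hg⟩ : ∃ g : V → ℕ, Function.Injective g :=
    ⟨fun x => (Fintype.equivFin V x).val, fun x y hxy =>
      (Fintype.equivFin V).injective (Fin.ext hxy)⟩
  refine ⟨h.order hg, fun v v' => ?_⟩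
  have e1 := EF_relSat (E := E) (lt := less anc (strict (Wfin anc Q ks N mk r g))) (P := P)
    det_eq (hE _) det_less (hP _) φ (h.main hg) (v := v) (w := v') (fun i => i.elim0) hφ
  have e2 : relSat E (less anc (strict (WT anc Q ks N mk (r + 1)).1)) P (Ufin anc N mk r) φ v' ↔
      relSat E (less anc (strict (Wfin anc Q ks N mk r g))) P (Ufin anc N mk r) φ v' :=
    relSat_congr (fun x hx y hy => h.main_congr x hx y hy (some none)) φ v' (fun i => i.elim0)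
  exact e1.trans e2.symm

/-- all relation indices -/
def allks (l : List ι) : List (Option (Option ι)) :=
  none :: some none :: l.map (fun κ => some (some κ))

theorem mem_allks {l : List ι} (hl : ∀ κ, κ ∈ l) : ∀ κ, κ ∈ allks l := by
  intro κ
  match κ with
  | none => simp [allks]
  | some none => simp [allks]
  | some (some κ) => simp [allks, hl κ]

/-- the definable condition of the core theorem -/
def Psi (anc : V → V → Prop) (Q : ι → V → V → Prop) (l : List ι)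
    (mk : ℕ → ℕ → Set V) (r : ℕ) (E : V → V → Prop) (P : Fin k → V → Prop)
    (φ : (OGLang k).BoundedFormula Empty 0) (v : Fin 0 → V) : Prop :=
  Forest anc ∧ Comparable anc Q ∧
    (∀ i ∈ List.range (r + 1), MarkOK (thr r) (CL anc Q (allks l) (thr r) mk i) (mk i)) ∧
    relSat E (less anc (strict (WT anc Q (allks l) (thr r) mk (r + 1)).1)) P
      (Ufin anc (thr r) mk r) φ v

theorem Psi.ctx {anc : V → V → Prop} {Q : ι → V → V → Prop} {l : List ι}
    (hl : ∀ κ, κ ∈ l) {mk : ℕ → ℕ → Set V} {r : ℕ} (h1 : Forest anc) (h2 : Comparable anc Q)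
    (h3 : ∀ i ∈ List.range (r + 1), MarkOK (thr r) (CL anc Q (allks l) (thr r) mk i) (mk i)) :
    Ctx anc Q (allks l) (thr r) mk r :=
  ⟨h1, h2, mem_allks hl, le_rfl, fun i hi => h3 i (List.mem_range.2 hi)⟩

theorem Psi.sound [Finite V] {anc : V → V → Prop} {Q : ι → V → V → Prop} {l : List ι}
    (hl : ∀ κ, κ ∈ l) {mk : ℕ → ℕ → Set V} {r : ℕ} {E : V → V → Prop} {P : Fin k → V → Prop}
    (hE : ∀ L, Det (QQ anc L Q) E) (hP : ∀ L c, Det (QQ anc L Q) (fun x y => x = y ∧ P c x))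
    {φ : (OGLang k).BoundedFormula Empty 0} (hφ : qd φ ≤ r) {v : Fin 0 → V}
    (h : Psi anc Q l mk r E P φ v) :
    ∃ o : LinearOrder V, ∀ v : Fin 0 → V, relSat E o.lt P Set.univ φ v := by
  obtain ⟨o, ho⟩ := (Psi.ctx hl h.1 h.2.1 h.2.2.1).eval hE hP φ hφ
  exact ⟨o, fun v' => (ho v' v).2 h.2.2.2⟩

theorem Psi.complete [Finite V] {anc : V → V → Prop} {Q : ι → V → V → Prop} {l : List ι}
    (hl : ∀ κ, κ ∈ l) (r : ℕ) {E : V → V → Prop} {P : Fin k → V → Prop}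
    (h1 : Forest anc) (h2 : Comparable anc Q)
    (hE : ∀ L, Det (QQ anc L Q) E) (hP : ∀ L c, Det (QQ anc L Q) (fun x y => x = y ∧ P c x))
    {φ : (OGLang k).BoundedFormula Empty 0} (hφ : qd φ ≤ r)
    (h : ∀ (o : LinearOrder V) (v : Fin 0 → V), relSat E o.lt P Set.univ φ v) :
    ∃ mk : ℕ → ℕ → Set V, (∀ v : Fin 0 → V, Psi anc Q l mk r E P φ v) ∧
      ∀ i t, mk i t = mk (min i r) (min t (2 * thr r)) := by
  have := Fintype.ofFinite V
  obtain ⟨mk, hmk, hmk'⟩ := exists_marks' h1 Q (allks l) (thr r) r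
  have h3 : ∀ i ∈ List.range (r + 1), MarkOK (thr r) (CL anc Q (allks l) (thr r) mk i) (mk i) :=
    fun i hi => hmk i (List.mem_range.1 hi)
  refine ⟨mk, fun v => ⟨h1, h2, h3, ?_⟩, hmk'⟩
  obtain ⟨o, ho⟩ := (Psi.ctx hl h1 h2 h3).eval hE hP φ hφ
  exact (ho v v).1 (h o v)

open DefSys in
theorem Psi.def {𝒟 : DefSys} {anc : ∀ S : 𝒟.Obj, 𝒟.V S → 𝒟.V S → Prop}
    {Q : ι → ∀ S : 𝒟.Obj, 𝒟.V S → 𝒟.V S → Prop} {l : List ι} (hl : ∀ κ, κ ∈ l)
    (hanc : 𝒟.D2 anc) (hQ : ∀ κ, 𝒟.D2 (Q κ)) {mk : ℕ → ℕ → ∀ S : 𝒟.Obj, Set (𝒟.V S)}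
    (hm : ∀ i t, 𝒟.D1 (fun S x => x ∈ mk i t S)) (r : ℕ)
    {E : ∀ S : 𝒟.Obj, 𝒟.V S → 𝒟.V S → Prop} {P : ∀ S : 𝒟.Obj, Fin k → 𝒟.V S → Prop}
    (hE : 𝒟.D2 E) (hP : ∀ c, 𝒟.D1 (fun S => P S c)) (φ : (OGLang k).BoundedFormula Empty 0) :
    𝒟.Def 0 (fun S e => Psi (anc S) (fun κ => Q κ S) l (fun i t => mk i t S) r (E S) (P S) φ
      e) := by
  refine 𝒟.and (d_Forest hanc 0) (𝒟.and (d_Comparable hl hanc hQ 0) (𝒟.and ?_ ?_))
  · exact lall _ (fun i _ => d_MarkOK (d_CL (allks l) hanc hQ hm i) (hm i) 0)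
  · have h1 := (d_WT (N := thr r) (allks l) hanc hQ hm (r + 1)).1
    have h2 := d_less hanc (d_strict h1)
    have h3 := d_UU0 (N := thr r) hanc (hm r)
    have h4 := d_relSat hE h2 hP h3 φ (n := 0) (fun i => i)
    exact h4

end Run7.h625
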