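import Mathlib
import Pool.Agent.Run7.h625.Core

/-!
# Uniform definability in monadic second-order logic
-/

namespace Run7.h625

/-- finite structures with binary relations and unary predicates -/
structure RStr (β γ : Type) where
  /-- the universe -/
  V : Type
  /-- the binary relations -/
  R : β → V → V → Prop
  /-- the unary predicates -/
  P : γ → V → Prop

variable {β γ : Type} {n m : ℕ}

/-- `A` is uniformly definable by a monadic second-order formula. -/
def MDef (n m : ℕ) (A : ∀ S : RStr β γ, (Fin n → S.V) → (Fin m → Set S.V) → Prop) : Prop :=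
  ∃ ψ : MSO β γ n m, ∀ S e s, ψ.Sat S.R S.P e s ↔ A S e s

namespace MDef

theorem cg {A B : ∀ S : RStr β γ, (Fin n → S.V) → (Fin m → Set S.V) → Prop} (h : MDef n m A)
    (hAB : ∀ S e s, A S e s ↔ B S e s) : MDef n m B := by
  obtain ⟨ψ, hψ⟩ := h
  exact ⟨ψ, fun S e s => (hψ S e s).trans (hAB S e s)⟩

theorem rel (b : β) (x y : Fin n) :
    MDef n m (fun (S : RStr β γ) e _ => S.R b (e x) (e y)) :=
  ⟨.rel b x y, fun _ _ _ => Iff.rfl⟩

theorem pred (c : γ) (x : Fin n) : MDef n m (fun (S : RStr β γ) e _ => S.P c (e x)) :=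
  ⟨.pred c x, fun _ _ _ => Iff.rfl⟩

theorem eq (x y : Fin n) : MDef n m (fun (S : RStr β γ) e _ => e x = e y) :=
  ⟨.eq x y, fun _ _ _ => Iff.rfl⟩

theorem mem (x : Fin n) (X : Fin m) : MDef n m (fun (S : RStr β γ) e s => e x ∈ s X) :=
  ⟨.mem x X, fun _ _ _ => Iff.rfl⟩

theorem neg {A : ∀ S : RStr β γ, (Fin n → S.V) → (Fin m → Set S.V) → Prop} (h : MDef n m A) :
    MDef n m (fun S e s => ¬ A S e s) := by
  obtain ⟨ψ, hψ⟩ := h
  exact ⟨ψ.neg, fun S e s => not_congr (hψ S e s)⟩

theorem and {A B : ∀ S : RStr β γ, (Fin n → S.V) → (Fin m → Set S.V) → Prop} (h : MDef n m A)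
    (h' : MDef n m B) : MDef n m (fun S e s => A S e s ∧ B S e s) := by
  obtain ⟨ψ, hψ⟩ := h
  obtain ⟨ψ', hψ'⟩ := h'
  exact ⟨ψ.and ψ', fun S e s => and_congr (hψ S e s) (hψ' S e s)⟩

theorem exV {A : ∀ S : RStr β γ, (Fin (n + 1) → S.V) → (Fin m → Set S.V) → Prop}
    (h : MDef (n + 1) m A) :
    MDef n m (fun S e s => ∃ x : S.V, A S (Fin.cons x e) s) := by
  obtain ⟨ψ, hψ⟩ := h
  exact ⟨ψ.exV, fun S e s => exists_congr (fun x => hψ S _ s)⟩

theorem exS {A : ∀ S : RStr β γ, (Fin n → S.V) → (Fin (m + 1) → Set S.V) → Prop}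
    (h : MDef n (m + 1) A) :
    MDef n m (fun S e s => ∃ X : Set S.V, A S e (Fin.cons X s)) := by
  obtain ⟨ψ, hψ⟩ := h
  exact ⟨ψ.exS, fun S e s => exists_congr (fun x => hψ S e _)⟩

theorem exS' {A : ∀ S : RStr β γ, (Fin n → S.V) → (Fin m → Set S.V) → Set S.V → Prop}
    (h : MDef n (m + 1) (fun S e s => A S e (fun i => s i.succ) (s 0))) :
    MDef n m (fun S e s => ∃ X : Set S.V, A S e s X) := exS h

theorem allS' {A : ∀ S : RStr β γ, (Fin n → S.V) → (Fin m → Set S.V) → Set S.V → Prop}
    (h : MDef n (m + 1) (fun S e s => A S e (fun i => s i.succ) (s 0))) :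
    MDef n m (fun S e s => ∀ X : Set S.V, A S e s X) :=
  cg (neg (exS' (A := fun S e s X => ¬ A S e s X) (neg h))) (fun S e s => by simp)

theorem exV' {A : ∀ S : RStr β γ, (Fin n → S.V) → (Fin m → Set S.V) → S.V → Prop}
    (h : MDef (n + 1) m (fun S e s => A S (fun i => e i.succ) s (e 0))) :
    MDef n m (fun S e s => ∃ x : S.V, A S e s x) := exV h

theorem allV' {A : ∀ S : RStr β γ, (Fin n → S.V) → (Fin m → Set S.V) → S.V → Prop}
    (h : MDef (n + 1) m (fun S e s => A S (fun i => e i.succ) s (e 0))) :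
    MDef n m (fun S e s => ∀ x : S.V, A S e s x) :=
  cg (neg (exV' (A := fun S e s X => ¬ A S e s X) (neg h))) (fun S e s => by simp)

theorem imp {A B : ∀ S : RStr β γ, (Fin n → S.V) → (Fin m → Set S.V) → Prop} (h : MDef n m A)
    (h' : MDef n m B) : MDef n m (fun S e s => A S e s → B S e s) :=
  cg (neg (and h (neg h'))) (fun S e s => by tauto)

theorem or {A B : ∀ S : RStr β γ, (Fin n → S.V) → (Fin m → Set S.V) → Prop} (h : MDef n m A)
    (h' : MDef n m B) : MDef n m (fun S e s => A S e s ∨ B S e s) :=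
  cg (neg (and (neg h) (neg h'))) (fun S e s => by tauto)

theorem iff {A B : ∀ S : RStr β γ, (Fin n → S.V) → (Fin m → Set S.V) → Prop} (h : MDef n m A)
    (h' : MDef n m B) : MDef n m (fun S e s => A S e s ↔ B S e s) :=
  cg (and (imp h h') (imp h' h)) (fun S e s => by tauto)

theorem tru : MDef n m (fun (_ : RStr β γ) _ _ => True) := by
  refine cg (A := fun S _ _ => ¬ ∃ x : S.V, ¬ x = x)
    (neg (exV' (A := fun S e s x => ¬ x = x) (neg (eq 0 0)))) (fun S e s => by simp)

theorem fls : MDef n m (fun (_ : RStr β γ) _ _ => False) := cg (neg tru) (fun _ _ _ => by simp)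

theorem const (p : Prop) : MDef n m (fun (_ : RStr β γ) _ _ => p) := by
  by_cases h : p
  · exact cg tru (fun _ _ _ => by simp [h])
  · exact cg fls (fun _ _ _ => by simp [h])

theorem lall {α : Type} : ∀ (l : List α)
    {A : α → ∀ S : RStr β γ, (Fin n → S.V) → (Fin m → Set S.V) → Prop},
    (∀ a ∈ l, MDef n m (A a)) → MDef n m (fun S e s => ∀ a ∈ l, A a S e s)
  | [], _, _ => cg tru (fun _ _ _ => by simp)
  | a :: l, A, h => cg (and (h a (by simp)) (lall l (fun b hb => h b (by simp [hb]))))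
      (fun S e s => by simp)

theorem lex {α : Type} : ∀ (l : List α)
    {A : α → ∀ S : RStr β γ, (Fin n → S.V) → (Fin m → Set S.V) → Prop},
    (∀ a ∈ l, MDef n m (A a)) → MDef n m (fun S e s => ∃ a ∈ l, A a S e s)
  | [], _, _ => cg fls (fun _ _ _ => by simp)
  | a :: l, A, h => cg (or (h a (by simp)) (lex l (fun b hb => h b (by simp [hb]))))
      (fun S e s => by simp)

/-- existential quantification over a tuple of sets -/
theorem exTuple : ∀ {m : ℕ}
    {A : ∀ S : RStr β γ, (Fin n → S.V) → (Fin m → Set S.V) → Prop}, MDef n m A →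
    MDef n 0 (fun S e _ => ∃ s : Fin m → Set S.V, A S e s)
  | 0, A, h => cg h (fun S e s => by
      constructor
      · intro h1; exact ⟨s, h1⟩
      · rintro ⟨s', h1⟩
        rwa [Subsingleton.elim s s'])
  | m + 1, A, h => cg (exTuple (exS h)) (fun S e s => by
      constructor
      · rintro ⟨s', X, h1⟩; exact ⟨_, h1⟩
      · rintro ⟨s', h1⟩
        refine ⟨fun i => s' i.succ, s' 0, ?_⟩
        have : (Fin.cons (s' 0) (fun i => s' i.succ) : Fin (m + 1) → Set S.V) = s' := by
          funext i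
          refine Fin.cases ?_ (fun j => ?_) i
          · rfl
          · rfl
        rw [this]
        exact h1)

/-- The definability system of monadic second-order logic with `m` set parameters. -/
def sys (β γ : Type) (m : ℕ) : DefSys where
  Obj := Σ S : RStr β γ, Fin m → Set S.V
  V := fun S => S.1.V
  Def := fun n A => MDef n m (fun S e s => A ⟨S, s⟩ e)
  tru := fun _ => tru
  neg := fun h => neg h
  and := fun h h' => and h h'
  ex := fun h => exV h
  eq := fun i j => eq i j

end MDef

/-- being below with respect to the reflexive and transitive closure, with set quantification -/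
def ancS {V : Type} (par : V → V → Prop) (x y : V) : Prop :=
  ∀ X : Set V, y ∈ X → (∀ a b, par a b → b ∈ X → a ∈ X) → x ∈ X

theorem ancS_iff {V : Type} {par : V → V → Prop} {x y : V} :
    ancS par x y ↔ Relation.ReflTransGen (fun b a => par a b) y x := by
  constructor
  · intro h
    exact h {a | Relation.ReflTransGen (fun b a => par a b) y a} Relation.ReflTransGen.refl
      (fun a b hab hb => Relation.ReflTransGen.tail hb hab)
  · intro h X hy hX
    induction h with
    | refl => exact hy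
    | tail _ hbc ih => exact hX _ _ hbc ih

theorem MDef.ancS {β γ : Type} {m : ℕ} {par : ∀ S : RStr β γ, (Fin m → Set S.V) →
    S.V → S.V → Prop}
    (hpar : ∀ (n m' : ℕ) (f : Fin m → Fin m') (i j : Fin n),
      MDef n m' (fun S e s => par S (fun l => s (f l)) (e i) (e j)))
    (n m' : ℕ) (f : Fin m → Fin m') (i j : Fin n) :
    MDef n m' (fun S e s => Run7.h625.ancS (par S (fun l => s (f l))) (e i) (e j)) := by
  refine allS' (A := fun S e s X => e j ∈ X → (∀ a b, par S (fun l => s (f l)) a b → b ∈ X →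
    a ∈ X) → e i ∈ X) ?_
  refine imp (mem j 0) (imp ?_ (mem i 0))
  refine allV' (A := fun S e s a => ∀ b, par S (fun l => s (f l).succ) a b → b ∈ s 0 →
    a ∈ s 0) ?_
  refine allV' (A := fun S e s b => par S (fun l => s (f l).succ) (e 0) b → b ∈ s 0 →
    (e 0) ∈ s 0) ?_
  exact imp (hpar (n + 2) (m' + 1) (fun l => (f l).succ) _ 0) (imp (mem 0 0) (mem _ 0))

end Run7.h625
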