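import Mathlib
import Pool.Agent.Run7.h625.MDef
import Pool.Agent.Run7.h625.DFS

/-!
# Order-invariant first-order logic is contained in monadic second-order logic with one
existential quantifier over a set of edges
-/

namespace Run7.h625

open FirstOrder FirstOrder.Language

theorem models_iff {k : ℕ} (G : ColGraph k) (r : G.V → G.V → Prop) (φ : (OGLang k).Sentence)
    (v : Fin 0 → G.V) : Models G r φ ↔ relSat G.E r G.P Set.univ φ v := by
  have h := relSat_univ G r (n := 0) φ v (default : Empty → G.V)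
  rw [← h]
  unfold Models Sentence.Realize Formula.Realize
  have : v = default := Subsingleton.elim _ _
  rw [this]

/-- The family of binary relations of a coloured graph. -/
def gQ {V : Type} {k : ℕ} (E : V → V → Prop) (P : Fin k → V → Prop) : Option (Fin k) →
    V → V → Prop
  | none => E
  | some c => fun x y => x = y ∧ P c x

/-- all indices of the family -/
def gl (k : ℕ) : List (Option (Fin k)) := none :: (List.finRange k).map some

theorem mem_gl {k : ℕ} : ∀ κ, κ ∈ gl k := by
  intro κ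
  cases κ with
  | none => simp [gl]
  | some c => simp [gl]

/-- The index set of the set variables. -/
abbrev SV (a r : ℕ) : Type := Fin a ⊕ (Fin (r + 1) × Fin (2 * thr r + 1))

/-- the numbering of the set variables -/
noncomputable def svE (a r : ℕ) : SV a r ≃ Fin (Fintype.card (SV a r)) := Fintype.equivFin _

/-- the set variable of a mark -/
noncomputable def svM (a r i t : ℕ) : Fin (Fintype.card (SV a r)) :=
  svE a r (Sum.inr (⟨min i r, by omega⟩, ⟨min t (2 * thr r), by omega⟩))

/-- the set variable of a parameter -/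
noncomputable def svA (a r : ℕ) (i : Fin a) : Fin (Fintype.card (SV a r)) :=
  svE a r (Sum.inl i)

/-- the assignment of the set variables -/
noncomputable def svS {V : Type} (a r : ℕ) (D : Fin a → Set V) (mk : ℕ → ℕ → Set V) :
    Fin (Fintype.card (SV a r)) → Set V :=
  fun j => Sum.elim D (fun q => mk q.1 q.2) ((svE a r).symm j)

theorem svS_A {V : Type} (a r : ℕ) (D : Fin a → Set V) (mk : ℕ → ℕ → Set V) (i : Fin a) :
    svS a r D mk (svA a r i) = D i := by
  simp [svS, svA]

theorem svS_M {V : Type} (a r : ℕ) (D : Fin a → Set V) (mk : ℕ → ℕ → Set V) (i t : ℕ) :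
    svS a r D mk (svM a r i t) = mk (min i r) (min t (2 * thr r)) := by
  simp [svS, svM]

/-- the parent relation of the forest coded by an edge set and three sets of vertices -/
def par3 {V : Type} (F : V → V → Prop) (D0 D1 D2 : Set V) (x y : V) : Prop :=
  F x y ∧ ((x ∈ D0 ∧ y ∈ D1) ∨ (x ∈ D1 ∧ y ∈ D2) ∨ (x ∈ D2 ∧ y ∈ D0))

theorem par3_iff {V : Type} {adj : V → V → Prop} {p : V → Option V} {dep : V → ℕ}
    (h : ValidPF adj p dep) (x y : V) :
    par3 (fun x y => p y = some x ∨ p x = some y) {v | dep v % 3 = 0} {v | dep v % 3 = 1}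
      {v | dep v % 3 = 2} x y ↔ p y = some x := by
  constructor
  · rintro ⟨h1 | h1, h2⟩
    · exact h1
    · exfalso
      have h3 := ((h x).2 y h1).2
      have h4 : (dep x % 3 = 0 ∧ dep y % 3 = 1) ∨ (dep x % 3 = 1 ∧ dep y % 3 = 2) ∨
        (dep x % 3 = 2 ∧ dep y % 3 = 0) := h2
      omega
  · intro h1
    have h3 := ((h y).2 x h1).2
    refine ⟨Or.inl h1, ?_⟩
    show (dep x % 3 = 0 ∧ dep y % 3 = 1) ∨ (dep x % 3 = 1 ∧ dep y % 3 = 2) ∨
        (dep x % 3 = 2 ∧ dep y % 3 = 0)
    omega

theorem h1_main (k : ℕ) (φ : (OGLang k).Sentence) :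
    ∃ ψ : MSO ESym (Fin k) 0 0, ∀ G : ColGraph k, InvariantOn G φ → ∀ o : LinearOrder G.V,
      ((∃ F : G.V → G.V → Prop, IsEdgeSet G F ∧
        ψ.Sat (ESym.interp G.E F) G.P Fin.elim0 Fin.elim0) ↔ Models G o.lt φ) := by
  set r := qd (k := k) (n := 0) φ with hr
  -- the ancestor relation
  let ancF : ∀ S : RStr ESym (Fin k), (Fin (Fintype.card (SV 3 r)) → Set S.V) →
      S.V → S.V → Prop := fun S s => ancS (par3 (S.R .F) (s (svA 3 r 0)) (s (svA 3 r 1))
        (s (svA 3 r 2)))
  have hanc : (MDef.sys ESym (Fin k) (Fintype.card (SV 3 r))).D2 (fun S => ancF S.1 S.2) := by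
    intro n i j
    refine MDef.ancS (β := ESym) (γ := Fin k) (m := Fintype.card (SV 3 r))
      (par := fun S s => par3 (S.R .F) (s (svA 3 r 0)) (s (svA 3 r 1)) (s (svA 3 r 2)))
      ?_ n (Fintype.card (SV 3 r)) id i j
    intro n m' f i j
    refine MDef.and (MDef.rel ESym.F i j) (MDef.or (MDef.and ?_ ?_) (MDef.or (MDef.and ?_ ?_)
      (MDef.and ?_ ?_))) <;> exact MDef.mem _ _
  have hQ : ∀ κ : Option (Fin k), (MDef.sys ESym (Fin k) (Fintype.card (SV 3 r))).D2
      (fun S => gQ (S.1.R .E) S.1.P κ) := by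
    intro κ n i j
    cases κ with
    | none => exact MDef.rel ESym.E i j
    | some c => exact MDef.and (MDef.eq i j) (MDef.pred c i)
  have hm : ∀ i t, (MDef.sys ESym (Fin k) (Fintype.card (SV 3 r))).D1
      (fun S x => x ∈ S.2 (svM 3 r i t)) := fun i t n x => MDef.mem x (svM 3 r i t)
  have hE : (MDef.sys ESym (Fin k) (Fintype.card (SV 3 r))).D2 (fun S => S.1.R .E) :=
    fun n i j => MDef.rel ESym.E i j
  have hP : ∀ c, (MDef.sys ESym (Fin k) (Fintype.card (SV 3 r))).D1 (fun S => S.1.P c) :=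
    fun c n i => MDef.pred c i
  have hdef := Psi.def (𝒟 := MDef.sys ESym (Fin k) (Fintype.card (SV 3 r)))
    (anc := fun S => ancF S.1 S.2) (Q := fun κ S => gQ (S.1.R .E) S.1.P κ) (l := gl k)
    mem_gl hanc hQ (mk := fun i t S => S.2 (svM 3 r i t)) hm r hE hP φ
  obtain ⟨ψ, hψ⟩ := MDef.exTuple hdef
  refine ⟨ψ, fun G hinv o => ?_⟩
  have := G.fin
  have := Fintype.ofFinite G.V
  have hdE : ∀ anc L, Det (QQ anc L (gQ G.E G.P)) G.E := fun anc L =>
    det_Q (Q := gQ G.E G.P) none
  have hdP : ∀ anc L c, Det (QQ anc L (gQ G.E G.P)) (fun x y => x = y ∧ G.P c x) :=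
    fun anc L c => det_Q (Q := gQ G.E G.P) (some c)
  constructor
  · rintro ⟨F, _, hF⟩
    obtain ⟨s, hs⟩ := (hψ ⟨G.V, ESym.interp G.E F, G.P⟩ Fin.elim0 Fin.elim0).1 hF
    obtain ⟨o', ho'⟩ := Psi.sound mem_gl (hdE _) (hdP _) le_rfl hs
    exact (hinv o' o).1 ((models_iff G o'.lt φ Fin.elim0).2 (ho' Fin.elim0))
  · intro ho
    have hall : ∀ (o' : LinearOrder G.V) (v : Fin 0 → G.V),
        relSat G.E o'.lt G.P Set.univ φ v := fun o' v =>
      (models_iff G o'.lt φ v).1 ((hinv o o').1 ho)
    obtain ⟨p, dep, hval, hcomp⟩ := exists_normal (V := G.V)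
      (adj := fun x y => G.E x y ∨ G.E y x) (fun x y h => h.symm)
    have hQc : Comparable (ancP p) (gQ G.E G.P) := by
      intro κ x y hxy
      cases κ with
      | none => exact hcomp x y (Or.inl hxy)
      | some c =>
        have hxy' : x = y ∧ G.P c x := hxy
        rw [hxy'.1]
        exact Or.inl (ancP_refl p y)
    obtain ⟨mk, hmk, hmk'⟩ := Psi.complete mem_gl r hval.forest hQc (hdE _) (hdP _) le_rfl hall
    refine ⟨fun x y => p y = some x ∨ p x = some y, ⟨fun x y h => h.symm, ?_⟩, ?_⟩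
    · rintro x y (h | h)
      · exact ((hval y).2 x h).1
      · exact ((hval x).2 y h).1.symm
    · rw [hψ ⟨G.V, ESym.interp G.E (fun x y => p y = some x ∨ p x = some y), G.P⟩
        Fin.elim0 Fin.elim0]
      refine ⟨svS 3 r ![{v | dep v % 3 = 0}, {v | dep v % 3 = 1}, {v | dep v % 3 = 2}] mk, ?_⟩
      have e1 : ancF ⟨G.V, ESym.interp G.E (fun x y => p y = some x ∨ p x = some y), G.P⟩
          (svS 3 r ![{v | dep v % 3 = 0}, {v | dep v % 3 = 1}, {v | dep v % 3 = 2}] mk) =
          ancP p := by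
        funext x y
        apply propext
        show ancS (par3 _ _ _ _) x y ↔ ancP p x y
        rw [ancS_iff, svS_A, svS_A, svS_A]
        have e2 : (fun b a => par3 (fun x y => p y = some x ∨ p x = some y)
            {v | dep v % 3 = 0} {v | dep v % 3 = 1} {v | dep v % 3 = 2} a b) =
            fun b a => p b = some a := by
          funext b a
          exact propext (par3_iff hval a b)
        have e3 : (fun b a => par3
            ((⟨G.V, ESym.interp G.E (fun x y => p y = some x ∨ p x = some y), G.P⟩ :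
              RStr ESym (Fin k)).R .F)
            (![{v | dep v % 3 = 0}, {v | dep v % 3 = 1}, {v | dep v % 3 = 2}] 0 : Set G.V)
            (![{v | dep v % 3 = 0}, {v | dep v % 3 = 1}, {v | dep v % 3 = 2}] 1 : Set G.V)
            (![{v | dep v % 3 = 0}, {v | dep v % 3 = 1}, {v | dep v % 3 = 2}] 2 : Set G.V)
              a b) = fun b a => p b = some a := e2
        rw [e3]
        rfl
      have e4 : (fun i t => svS 3 r
          (![{v | dep v % 3 = 0}, {v | dep v % 3 = 1}, {v | dep v % 3 = 2}] :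
            Fin 3 → Set G.V) mk (svM 3 r i t)) = mk := by
        funext i t
        rw [svS_M, ← hmk' i t]
      have h5 := hmk Fin.elim0
      show Psi (ancF ⟨G.V, ESym.interp G.E (fun x y => p y = some x ∨ p x = some y), G.P⟩
          (svS 3 r ![{v | dep v % 3 = 0}, {v | dep v % 3 = 1}, {v | dep v % 3 = 2}] mk))
        (gQ G.E G.P) (gl k) (fun i t => svS 3 r
          (![{v | dep v % 3 = 0}, {v | dep v % 3 = 1}, {v | dep v % 3 = 2}] :
            Fin 3 → Set G.V) mk (svM 3 r i t)) r G.E G.P φ Fin.elim0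
      rw [e1, e4]
      exact h5

end Run7.h625
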