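import Mathlib
import Pool.Agent.Run7.h625.MDef
import Pool.Agent.Run7.h625.Block
import Pool.Agent.Run7.h625.Colour
import Pool.Agent.Run7.h625.H1

/-!
# Order-invariant first-order logic on near-sparse graphs
-/

namespace Run7.h625

open FirstOrder FirstOrder.Language Relation

section decode

variable {V : Type} {M : ℕ}

/-- the flip of the classes -/
def flipR (T : Fin M → Fin M → Bool) (D : Fin 6 → Fin M → Set V) (x y : V) : Prop :=
  ∃ i ∈ List.finRange M, ∃ j ∈ List.finRange M, T i j = true ∧ x ∈ D 0 i ∧ y ∈ D 0 j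

/-- exceptional pairs -/
def exc (E : V → V → Prop) (T : Fin M → Fin M → Bool) (D : Fin 6 → Fin M → Set V)
    (x y : V) : Prop := ¬ x = y ∧ ¬ (E x y ↔ flipR T D x y)

/-- the decoded orientation -/
def ooR (E : V → V → Prop) (T : Fin M → Fin M → Bool) (D : Fin 6 → Fin M → Set V)
    (v c : V) : Prop :=
  (exc E T D v c ∨ exc E T D c v) ∧ ∃ j ∈ List.finRange M, c ∈ D 1 j ∧ v ∈ D 2 j

/-- the decoded hyperedges -/
def inR (E : V → V → Prop) (T : Fin M → Fin M → Bool) (D : Fin 6 → Fin M → Set V)
    (w x : V) : Prop := w = x ∨ ooR E T D w x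

/-- the decoded block assignment -/
def hrR (E : V → V → Prop) (T : Fin M → Fin M → Bool) (D : Fin 6 → Fin M → Set V)
    (x w : V) : Prop := inR E T D w x ∧ ∃ j ∈ List.finRange M, x ∈ D 3 j ∧ w ∈ D 4 j

/-- comparison of positions -/
def psR (D : Fin 6 → Fin M → Set V) (u v : V) : Prop :=
  ∃ i ∈ List.finRange M, ∃ j ∈ List.finRange M, i < j ∧ u ∈ D 5 i ∧ v ∈ D 5 j

/-- the decoded generating relation -/
def upD (E : V → V → Prop) (T : Fin M → Fin M → Bool) (D : Fin 6 → Fin M → Set V)
    (u v : V) : Prop :=
  ¬ u = v ∧ ∃ b w w', hrR E T D v w' ∧ inR E T D w' b ∧ hrR E T D b w ∧ hrR E T D u w ∧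
    (w = w' → psR D u v)

/-- the decoded forest order -/
def ancD (E : V → V → Prop) (T : Fin M → Fin M → Bool) (D : Fin 6 → Fin M → Set V) :
    V → V → Prop := ancS (upD E T D)

/-- the family of relations between comparable elements -/
def sQ {k : ℕ} (anc E : V → V → Prop) (P : Fin k → V → Prop) (K : Fin M → Set V) :
    Option (Option (Fin k ⊕ Fin M)) → V → V → Prop
  | none => anc
  | some none => fun x y => E x y ∧ (anc x y ∨ anc y x)
  | some (some (Sum.inl c)) => fun x y => x = y ∧ P c x
  | some (some (Sum.inr j)) => fun x y => x = y ∧ x ∈ K j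

/-- all indices -/
def sl (k M : ℕ) : List (Option (Option (Fin k ⊕ Fin M))) :=
  none :: some none :: (((List.finRange k).map fun c => some (some (Sum.inl c))) ++
    (List.finRange M).map fun j => some (some (Sum.inr j)))

theorem mem_sl {k M : ℕ} : ∀ κ, κ ∈ sl k M := by
  intro κ
  match κ with
  | none => simp [sl]
  | some none => simp [sl]
  | some (some (Sum.inl c)) => simp [sl]
  | some (some (Sum.inr j)) => simp [sl]

/-- edges between incomparable elements are given by the flip -/
def FlipOK (anc E : V → V → Prop) (T : Fin M → Fin M → Bool) (D : Fin 6 → Fin M → Set V) :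
    Prop := ∀ x y, ¬ anc x y → ¬ anc y x → (E x y ↔ flipR T D x y)

theorem sQ_comp {k : ℕ} {anc E : V → V → Prop} {P : Fin k → V → Prop} {K : Fin M → Set V}
    (hF : Forest anc) : Comparable anc (sQ anc E P K) := by
  intro κ x y h
  match κ with
  | none => exact Or.inl h
  | some none => exact h.2
  | some (some (Sum.inl c)) =>
    have h' : x = y ∧ P c x := h
    rw [h'.1]; exact Or.inl (hF.refl y)
  | some (some (Sum.inr j)) =>
    have h' : x = y ∧ x ∈ K j := h
    rw [h'.1]; exact Or.inl (hF.refl y)

theorem sQ_detE {k : ℕ} {anc E : V → V → Prop} {P : Fin k → V → Prop}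
    {T : Fin M → Fin M → Bool} {D : Fin 6 → Fin M → Set V} (hflip : FlipOK anc E T D)
    (L : V → V → Prop) : Det (QQ anc L (sQ anc E P (D 0))) E := by
  intro R hR u w u' w' h1 h2
  have a1 : anc u u' ↔ anc w w' := hR u w u' w' h1 h2 (some (some none))
  have a2 : anc u' u ↔ anc w' w := hR u' w' u w h2 h1 (some (some none))
  have a3 : (E u u' ∧ (anc u u' ∨ anc u' u)) ↔ (E w w' ∧ (anc w w' ∨ anc w' w)) :=
    hR u w u' w' h1 h2 (some (some (some none)))
  have a4 : ∀ j, (u ∈ D 0 j ↔ w ∈ D 0 j) := by
    intro j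
    have : (u = u ∧ u ∈ D 0 j) ↔ (w = w ∧ w ∈ D 0 j) :=
      hR u w u w h1 h1 (some (some (some (some (Sum.inr j)))))
    simpa using this
  have a5 : ∀ j, (u' ∈ D 0 j ↔ w' ∈ D 0 j) := by
    intro j
    have : (u' = u' ∧ u' ∈ D 0 j) ↔ (w' = w' ∧ w' ∈ D 0 j) :=
      hR u' w' u' w' h2 h2 (some (some (some (some (Sum.inr j)))))
    simpa using this
  have a6 : flipR T D u u' ↔ flipR T D w w' := by
    unfold flipR
    simp only [a4, a5]
  by_cases hc : anc u u' ∨ anc u' u
  · have hc' : anc w w' ∨ anc w' w := by rw [← a1, ← a2]; exact hc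
    constructor
    · intro h; exact (a3.1 ⟨h, hc⟩).1
    · intro h; exact (a3.2 ⟨h, hc'⟩).1
  · have hc' : ¬ (anc w w' ∨ anc w' w) := by rw [← a1, ← a2]; exact hc
    push Not at hc hc'
    rw [hflip u u' hc.1 hc.2, hflip w w' hc'.1 hc'.2, a6]

theorem sQ_detP {k : ℕ} {anc E : V → V → Prop} {P : Fin k → V → Prop} {K : Fin M → Set V}
    (L : V → V → Prop) (c : Fin k) :
    Det (QQ anc L (sQ anc E P K)) (fun x y => x = y ∧ P c x) :=
  det_Q (Q := sQ anc E P K) (some (some (Sum.inl c)))

end decode

section params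

open Classical in
/-- the sets which code functions -/
noncomputable def codeD {V : Type} (M : ℕ) (κ χ k2 pos : V → ℕ) (Y Λ : V → ℕ → Prop) :
    Fin 6 → Fin M → Set V :=
  ![fun j => {x | κ x = j.val}, fun j => {x | χ x = j.val}, fun j => {x | Y x j.val},
    fun j => {x | k2 x = j.val}, fun j => {x | Λ x j.val}, fun j => {x | pos x = j.val}]

open Classical in
theorem exists_params {k q d : ℕ} (G : ColGraph k) (hG : NearSparse q d G) :
    ∃ (T : Fin (q + 2 * (d * d) + 2 * d + 3) → Fin (q + 2 * (d * d) + 2 * d + 3) → Bool)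
      (D : Fin 6 → Fin (q + 2 * (d * d) + 2 * d + 3) → Set G.V),
      Forest (ancD G.E T D) ∧ FlipOK (ancD G.E T D) G.E T D := by
  have := G.fin
  have := Fintype.ofFinite G.V
  obtain ⟨κ, T0, o, hd, ho⟩ := hG
  set M := q + 2 * (d * d) + 2 * d + 3 with hM
  -- the exceptional pairs
  set ex : G.V → G.V → Prop := fun x y => ¬ x = y ∧ ¬ (G.E x y ↔ T0 (κ x) (κ y)) with hex
  set op : G.V → G.V → Prop := fun v c => (ex v c ∨ ex c v) ∧ o v c with hop
  have hop_or : ∀ v c, (ex v c ∨ ex c v) → op v c ∨ op c v := by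
    intro v c h
    have h1 : o v c ∨ o c v := by
      rcases h with h | h
      · exact ho v c h.1 h.2
      · exact (ho c v h.1 h.2).symm
    rcases h1 with h1 | h1
    · exact Or.inl ⟨h, h1⟩
    · exact Or.inr ⟨h.symm, h1⟩
  have hop_ne : ∀ v c, op v c → v ≠ c := by
    rintro v c ⟨h | h, _⟩
    · exact h.1
    · exact fun e => h.1 e.symm
  have hop_card : ∀ v, (Finset.univ.filter (fun c => op v c)).card ≤ d := by
    intro v
    refine le_trans ?_ (hd v)
    rw [← Set.ncard_coe_finset]
    apply Set.ncard_le_ncard _ (Set.toFinite _)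
    intro c hc
    simp only [Finset.coe_filter, Finset.mem_univ, true_and] at hc
    exact hc.2
  -- the first colouring
  have hcc : ∀ w, (Finset.univ.filter (fun c => ∃ v, op w v ∧ op v c)).card ≤ d * d := by
    intro w
    have hsub : (Finset.univ.filter (fun c => ∃ v, op w v ∧ op v c)) ⊆
        (Finset.univ.filter (fun v => op w v)).biUnion
          (fun v => Finset.univ.filter (fun c => op v c)) := by
      intro c hc
      simp only [Finset.mem_filter, Finset.mem_univ, true_and] at hc
      obtain ⟨v, h1, h2⟩ := hc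
      simp only [Finset.mem_biUnion, Finset.mem_filter, Finset.mem_univ, true_and]
      exact ⟨v, h1, h2⟩
    refine (Finset.card_le_card hsub).trans (Finset.card_biUnion_le.trans ?_)
    refine (Finset.sum_le_card_nsmul _ _ d (fun v _ => hop_card v)).trans ?_
    rw [smul_eq_mul]
    exact Nat.mul_le_mul_right d (hop_card w)
  obtain ⟨χ, hχ1, hχ2⟩ := exists_colouring (fun w c => ∃ v, op w v ∧ op v c) (d * d)
    (fun w => by convert hcc w)
  -- the hyperedges
  set In : G.V → G.V → Prop := fun w x => w = x ∨ op w x with hIn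
  have hIn_card : ∀ w, (Finset.univ.filter (fun x => In w x)).card ≤ d + 1 := by
    intro w
    have hsub : (Finset.univ.filter (fun x => In w x)) ⊆
        insert w (Finset.univ.filter (fun c => op w c)) := by
      intro x hx
      simp only [Finset.mem_filter, Finset.mem_univ, true_and] at hx
      simp only [Finset.mem_insert, Finset.mem_filter, Finset.mem_univ, true_and]
      rcases hx with rfl | hx
      · exact Or.inl rfl
      · exact Or.inr hx
    refine (Finset.card_le_card hsub).trans ((Finset.card_insert_le _ _).trans ?_)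
    have := hop_card w
    omega
  obtain ⟨h, pos, anc, hg⟩ := exists_good (In := In) (d := d) (fun x => Or.inl rfl)
    (fun w => by convert hIn_card w)
    (Finset.univ : Finset G.V).card Finset.univ ∅ le_rfl
    (fun h => absurd h Set.not_nonempty_empty)
  -- the second colouring
  obtain ⟨k2, hk1, hk2⟩ := exists_colouring (fun x b => In (h x) b) (d + 1)
    (fun x => by convert hIn_card (h x))
  set T : Fin M → Fin M → Bool := fun i j =>
    decide (∃ a b : Fin q, a.val = i.val ∧ b.val = j.val ∧ T0 a b) with hT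
  set D : Fin 6 → Fin M → Set G.V := codeD M (fun x => (κ x).val) χ k2 pos
    (fun v j => ∃ c, op v c ∧ χ c = j) (fun w j => ∃ x, h x = w ∧ k2 x = j) with hD
  have hflip : ∀ x y, flipR T D x y ↔ T0 (κ x) (κ y) := by
    intro x y
    constructor
    · rintro ⟨i, _, j, _, h1, h2, h3⟩
      have h2' : (κ x).val = i.val := h2
      have h3' : (κ y).val = j.val := h3
      simp only [hT, decide_eq_true_eq] at h1
      obtain ⟨a, b, ha, hb, hab⟩ := h1
      have e1 : a = κ x := Fin.ext (by omega)
      have e2 : b = κ y := Fin.ext (by omega)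
      rwa [← e1, ← e2]
    · intro h1
      have l1 := (κ x).isLt
      have l2 := (κ y).isLt
      refine ⟨⟨(κ x).val, by omega⟩, List.mem_finRange _, ⟨(κ y).val, by omega⟩,
        List.mem_finRange _, ?_, rfl, rfl⟩
      simp only [hT, decide_eq_true_eq]
      exact ⟨κ x, κ y, rfl, rfl, h1⟩
  have hexc : ∀ x y, exc G.E T D x y ↔ ex x y := by
    intro x y
    unfold exc
    rw [hflip]
  have hoo : ∀ v c, ooR G.E T D v c ↔ op v c := by
    intro v c
    unfold ooR
    rw [hexc, hexc]
    constructor
    · rintro ⟨h1, j, _, h2, c', h3, h4⟩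
      have h2' : χ c = j.val := h2
      by_contra hn
      have hcv : op c v := by
        rcases hop_or v c h1 with h5 | h5
        · exact absurd h5 hn
        · exact h5
      have hne : c ≠ c' := by rintro rfl; exact hn h3
      exact hχ2 c c' hne ⟨v, hcv, h3⟩ (by omega)
    · intro h1
      have l1 := hχ1 c
      exact ⟨h1.1, ⟨χ c, by omega⟩, List.mem_finRange _, rfl, c, h1, rfl⟩
  have hin : ∀ w x, inR G.E T D w x ↔ In w x := by
    intro w x
    unfold inR
    rw [hoo]
  have hhr : ∀ x w, hrR G.E T D x w ↔ h x = w := by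
    intro x w
    unfold hrR
    rw [hin]
    constructor
    · rintro ⟨h1, j, _, h2, x', h3, h4⟩
      have h2' : k2 x = j.val := h2
      by_contra hn
      have hne : x' ≠ x := by rintro rfl; exact hn h3
      exact hk2 x' x hne (by rw [h3]; exact h1) (by omega)
    · rintro rfl
      have l1 := hk1 x
      exact ⟨hg.mem x (Finset.mem_univ x), ⟨k2 x, by omega⟩, List.mem_finRange _, rfl, x,
        rfl, rfl⟩
  have hps : ∀ u v, psR D u v ↔ pos u < pos v := by
    intro u v
    constructor
    · rintro ⟨i, _, j, _, h1, h2, h3⟩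
      have h2' : pos u = i.val := h2
      have h3' : pos v = j.val := h3
      have h1' : i.val < j.val := h1
      omega
    · intro h1
      have l1 := hg.poslt u (Finset.mem_univ u)
      have l2 := hg.poslt v (Finset.mem_univ v)
      exact ⟨⟨pos u, by omega⟩, List.mem_finRange _, ⟨pos v, by omega⟩, List.mem_finRange _,
        h1, rfl, rfl⟩
  have hup : ∀ u v, upD G.E T D u v ↔ upR In h pos Finset.univ u v := by
    intro u v
    unfold upD upR
    simp only [hhr, hin, hps, Finset.mem_univ, true_and, ne_eq]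
    constructor
    · rintro ⟨h1, b, w, w', rfl, h3, rfl, h5, h6⟩
      exact ⟨h1, b, h3, h5, h6⟩
    · rintro ⟨h1, b, h3, h5, h6⟩
      exact ⟨h1, b, h b, h v, rfl, h3, rfl, h5, h6⟩
  have hanc : ancD G.E T D = anc := by
    funext x y
    apply propext
    unfold ancD
    rw [ancS_iff]
    constructor
    · intro hp
      induction hp with
      | refl => exact hg.refl y (Finset.mem_univ y)
      | tail _ hbc ih => exact hg.trans _ _ _ (hg.sound _ _ ((hup _ _).1 hbc)) ih
    · intro hxy
      by_cases hne : x = y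
      · subst hne; exact ReflTransGen.refl
      · have h1 := hg.complete x y hxy hne
        have h2 : ReflTransGen (upR In h pos Finset.univ) x y := h1.to_reflTransGen
        have h3 := h2.swap
        refine ReflTransGen.mono ?_ _ _ h3
        intro a b hab
        exact (hup b a).2 hab
  refine ⟨T, D, ?_, ?_⟩
  · rw [hanc]
    exact ⟨fun x => hg.refl x (Finset.mem_univ x), hg.antisymm, hg.trans, hg.chain⟩
  · rw [hanc]
    intro x y h1 h2
    rw [hflip]
    by_contra hn
    have hne : x ≠ y := by
      rintro rfl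
      exact h1 (hg.refl x (Finset.mem_univ x))
    rcases hop_or x y (Or.inl ⟨hne, hn⟩) with h3 | h3
    · rcases hg.hyper x x (Finset.mem_univ x) y (Finset.mem_univ y) (Or.inl rfl) (Or.inr h3)
        with h4 | h4
      · exact h1 h4
      · exact h2 h4
    · rcases hg.hyper y x (Finset.mem_univ x) y (Finset.mem_univ y) (Or.inr h3) (Or.inl rfl)
        with h4 | h4
      · exact h1 h4
      · exact h2 h4

end params

end Run7.h625
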