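import Mathlib
import Pool.Agent.Run7.h625.Sparse

/-!
# Order-invariant first-order logic is contained in monadic second-order logic on near-sparse
graphs
-/

namespace Run7.h625

open FirstOrder FirstOrder.Language

section sv

variable (α : Type) [Fintype α] (r : ℕ)

/-- The index set of the set variables. -/
abbrev SV' : Type := α ⊕ (Fin (r + 1) × Fin (2 * thr r + 1))

/-- the numbering of the set variables -/
noncomputable def svE' : SV' α r ≃ Fin (Fintype.card (SV' α r)) := Fintype.equivFin _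

/-- the set variable of a mark -/
noncomputable def svM' (i t : ℕ) : Fin (Fintype.card (SV' α r)) :=
  svE' α r (Sum.inr (⟨min i r, by omega⟩, ⟨min t (2 * thr r), by omega⟩))

/-- the set variable of a parameter -/
noncomputable def svA' (i : α) : Fin (Fintype.card (SV' α r)) :=
  svE' α r (Sum.inl i)

/-- the assignment of the set variables -/
noncomputable def svS' {V : Type} (D : α → Set V) (mk : ℕ → ℕ → Set V) :
    Fin (Fintype.card (SV' α r)) → Set V :=
  fun j => Sum.elim D (fun q => mk q.1 q.2) ((svE' α r).symm j)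

theorem svS_A' {V : Type} (D : α → Set V) (mk : ℕ → ℕ → Set V) (i : α) :
    svS' α r D mk (svA' α r i) = D i := by
  simp [svS', svA']

theorem svS_M' {V : Type} (D : α → Set V) (mk : ℕ → ℕ → Set V) (i t : ℕ) :
    svS' α r D mk (svM' α r i t) = mk (min i r) (min t (2 * thr r)) := by
  simp [svS', svM']

end sv

section defs

variable {γ : Type} {M : ℕ} (T : Fin M → Fin M → Bool)

theorem d_flip (n m : ℕ) (ix : Fin 6 → Fin M → Fin m) (i j : Fin n) :
    MDef n m (fun (_ : RStr Unit γ) e s => flipR T (fun a b => s (ix a b)) (e i) (e j)) :=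
  MDef.lex _ (fun _ _ => MDef.lex _ (fun _ _ => MDef.and (MDef.const _)
    (MDef.and (MDef.mem _ _) (MDef.mem _ _))))

theorem d_exc (n m : ℕ) (ix : Fin 6 → Fin M → Fin m) (i j : Fin n) :
    MDef n m (fun (S : RStr Unit γ) e s => exc (S.R ()) T (fun a b => s (ix a b)) (e i) (e j)) :=
  MDef.and (MDef.neg (MDef.eq i j)) (MDef.neg (MDef.iff (MDef.rel () i j) (d_flip T n m ix i j)))

theorem d_oo (n m : ℕ) (ix : Fin 6 → Fin M → Fin m) (i j : Fin n) :
    MDef n m (fun (S : RStr Unit γ) e s => ooR (S.R ()) T (fun a b => s (ix a b)) (e i) (e j)) :=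
  MDef.and (MDef.or (d_exc T n m ix i j) (d_exc T n m ix j i))
    (MDef.lex _ (fun _ _ => MDef.and (MDef.mem _ _) (MDef.mem _ _)))

theorem d_in (n m : ℕ) (ix : Fin 6 → Fin M → Fin m) (i j : Fin n) :
    MDef n m (fun (S : RStr Unit γ) e s => inR (S.R ()) T (fun a b => s (ix a b)) (e i) (e j)) :=
  MDef.or (MDef.eq i j) (d_oo T n m ix i j)

theorem d_hr (n m : ℕ) (ix : Fin 6 → Fin M → Fin m) (i j : Fin n) :
    MDef n m (fun (S : RStr Unit γ) e s => hrR (S.R ()) T (fun a b => s (ix a b)) (e i) (e j)) :=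
  MDef.and (d_in T n m ix j i)
    (MDef.lex _ (fun _ _ => MDef.and (MDef.mem _ _) (MDef.mem _ _)))

theorem d_ps (n m : ℕ) (ix : Fin 6 → Fin M → Fin m) (i j : Fin n) :
    MDef n m (fun (_ : RStr Unit γ) e s => psR (fun a b => s (ix a b)) (e i) (e j)) :=
  MDef.lex _ (fun _ _ => MDef.lex _ (fun _ _ => MDef.and (MDef.const _)
    (MDef.and (MDef.mem _ _) (MDef.mem _ _))))

theorem d_up (n m : ℕ) (ix : Fin 6 → Fin M → Fin m) (i j : Fin n) :
    MDef n m (fun (S : RStr Unit γ) e s => upD (S.R ()) T (fun a b => s (ix a b)) (e i) (e j)) := by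
  refine MDef.and (MDef.neg (MDef.eq i j)) ?_
  refine MDef.exV' (A := fun (S : RStr Unit γ) e s b => ∃ w w',
    hrR (S.R ()) T (fun a b => s (ix a b)) (e j) w' ∧
    inR (S.R ()) T (fun a b => s (ix a b)) w' b ∧
    hrR (S.R ()) T (fun a b => s (ix a b)) b w ∧
    hrR (S.R ()) T (fun a b => s (ix a b)) (e i) w ∧
    (w = w' → psR (fun a b => s (ix a b)) (e i) (e j))) ?_
  refine MDef.exV' (A := fun (S : RStr Unit γ) e s w => ∃ w',
    hrR (S.R ()) T (fun a b => s (ix a b)) (e j.succ) w' ∧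
    inR (S.R ()) T (fun a b => s (ix a b)) w' (e 0) ∧
    hrR (S.R ()) T (fun a b => s (ix a b)) (e 0) w ∧
    hrR (S.R ()) T (fun a b => s (ix a b)) (e i.succ) w ∧
    (w = w' → psR (fun a b => s (ix a b)) (e i.succ) (e j.succ))) ?_
  refine MDef.exV' (A := fun (S : RStr Unit γ) e s w' =>
    hrR (S.R ()) T (fun a b => s (ix a b)) (e j.succ.succ) w' ∧
    inR (S.R ()) T (fun a b => s (ix a b)) w' (e 1) ∧
    hrR (S.R ()) T (fun a b => s (ix a b)) (e 1) (e 0) ∧
    hrR (S.R ()) T (fun a b => s (ix a b)) (e i.succ.succ) (e 0) ∧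
    (e 0 = w' → psR (fun a b => s (ix a b)) (e i.succ.succ) (e j.succ.succ))) ?_
  exact MDef.and (d_hr T _ _ ix _ _) (MDef.and (d_in T _ _ ix _ _) (MDef.and (d_hr T _ _ ix _ _)
    (MDef.and (d_hr T _ _ ix _ _) (MDef.imp (MDef.eq _ _) (d_ps _ _ ix _ _)))))

theorem d_anc (n m : ℕ) (ix : Fin 6 → Fin M → Fin m) (i j : Fin n) :
    MDef n m (fun (S : RStr Unit γ) e s =>
      ancD (S.R ()) T (fun a b => s (ix a b)) (e i) (e j)) :=
  MDef.ancS (β := Unit) (γ := γ) (m := m)
    (par := fun S s => upD (S.R ()) T (fun a b => s (ix a b)))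
    (fun n m' f i j => d_up T n m' (fun a b => f (ix a b)) i j) n m id i j

theorem d_flipOK (n m : ℕ) (ix : Fin 6 → Fin M → Fin m) :
    MDef n m (fun (S : RStr Unit γ) _ s =>
      FlipOK (ancD (S.R ()) T (fun a b => s (ix a b))) (S.R ()) T (fun a b => s (ix a b))) := by
  refine MDef.allV' (A := fun (S : RStr Unit γ) _ s x => ∀ y,
    ¬ ancD (S.R ()) T (fun a b => s (ix a b)) x y → ¬ ancD (S.R ()) T (fun a b => s (ix a b)) y x →
      (S.R () x y ↔ flipR T (fun a b => s (ix a b)) x y)) ?_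
  refine MDef.allV' (A := fun (S : RStr Unit γ) e s y =>
    ¬ ancD (S.R ()) T (fun a b => s (ix a b)) (e 0) y →
    ¬ ancD (S.R ()) T (fun a b => s (ix a b)) y (e 0) →
      (S.R () (e 0) y ↔ flipR T (fun a b => s (ix a b)) (e 0) y)) ?_
  exact MDef.imp (MDef.neg (d_anc T _ _ ix _ _)) (MDef.imp (MDef.neg (d_anc T _ _ ix _ _))
    (MDef.iff (MDef.rel () _ _) (d_flip T _ _ ix _ _)))

end defs

theorem h2_main (q d k : ℕ) (φ : (OGLang k).Sentence) :
    ∃ ψ : MSO Unit (Fin k) 0 0, ∀ G : ColGraph k, NearSparse q d G → InvariantOn G φ →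
      ∀ o : LinearOrder G.V,
        (ψ.Sat (fun _ => G.E) G.P Fin.elim0 Fin.elim0 ↔ Models G o.lt φ) := by
  set r := qd (k := k) (n := 0) φ with hr
  set M := q + 2 * (d * d) + 2 * d + 3 with hM
  -- the set variables
  set m := Fintype.card (SV' (Fin 6 × Fin M) r) with hm
  let ix : Fin 6 → Fin M → Fin m := fun a b => svA' (Fin 6 × Fin M) r (a, b)
  let ancF : (Fin M → Fin M → Bool) → ∀ S : RStr Unit (Fin k), (Fin m → Set S.V) →
      S.V → S.V → Prop := fun T S s => ancD (S.R ()) T (fun a b => s (ix a b))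
  have hone : ∀ T : Fin M → Fin M → Bool, MDef 0 m (fun (S : RStr Unit (Fin k)) e s =>
      FlipOK (ancF T S s) (S.R ()) T (fun a b => s (ix a b)) ∧
      Psi (ancF T S s) (fun κ => sQ (ancF T S s) (S.R ()) S.P (fun b => s (ix 0 b)) κ) (sl k M)
        (fun i t => s (svM' (Fin 6 × Fin M) r i t)) r (S.R ()) S.P φ e) := by
    intro T
    refine MDef.and (d_flipOK T 0 m ix) ?_
    have hanc : (MDef.sys Unit (Fin k) m).D2 (fun S => ancF T S.1 S.2) :=
      fun n i j => d_anc T n m ix i j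
    have hQ : ∀ κ : Option (Option (Fin k ⊕ Fin M)), (MDef.sys Unit (Fin k) m).D2
        (fun S => sQ (ancF T S.1 S.2) (S.1.R ()) S.1.P (fun b => S.2 (ix 0 b)) κ) := by
      intro κ n i j
      match κ with
      | none => exact d_anc T n m ix i j
      | some none => exact MDef.and (MDef.rel () i j) (MDef.or (d_anc T n m ix i j)
          (d_anc T n m ix j i))
      | some (some (Sum.inl c)) => exact MDef.and (MDef.eq i j) (MDef.pred c i)
      | some (some (Sum.inr b)) => exact MDef.and (MDef.eq i j) (MDef.mem i (ix 0 b))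
    have hmk : ∀ i t, (MDef.sys Unit (Fin k) m).D1
        (fun S x => x ∈ S.2 (svM' (Fin 6 × Fin M) r i t)) :=
      fun i t n x => MDef.mem x _
    have hE : (MDef.sys Unit (Fin k) m).D2 (fun S => S.1.R ()) :=
      fun n i j => MDef.rel () i j
    have hP : ∀ c, (MDef.sys Unit (Fin k) m).D1 (fun S => S.1.P c) :=
      fun c n i => MDef.pred c i
    exact Psi.def (𝒟 := MDef.sys Unit (Fin k) m)
      (anc := fun S => ancF T S.1 S.2)
      (Q := fun κ S => sQ (ancF T S.1 S.2) (S.1.R ()) S.1.P (fun b => S.2 (ix 0 b)) κ)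
      (l := sl k M) mem_sl hanc hQ (mk := fun i t S => S.2 (svM' (Fin 6 × Fin M) r i t)) hmk r
      hE hP φ
  obtain ⟨ψ, hψ⟩ := MDef.lex (Finset.univ : Finset (Fin M → Fin M → Bool)).toList
    (fun T _ => MDef.exTuple (hone T))
  refine ⟨ψ, fun G hG hinv o => ?_⟩
  have := G.fin
  rw [hψ ⟨G.V, fun _ => G.E, G.P⟩ Fin.elim0 Fin.elim0]
  constructor
  · rintro ⟨T, _, s, hflip, hs⟩
    obtain ⟨o', ho'⟩ := Psi.sound mem_sl (sQ_detE hflip) sQ_detP le_rfl hs
    exact (hinv o' o).1 ((models_iff G o'.lt φ Fin.elim0).2 (ho' Fin.elim0))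
  · intro ho
    have hall : ∀ (o' : LinearOrder G.V) (v : Fin 0 → G.V),
        relSat G.E o'.lt G.P Set.univ φ v := fun o' v =>
      (models_iff G o'.lt φ v).1 ((hinv o o').1 ho)
    obtain ⟨T, D, hF, hflip⟩ := exists_params G hG
    obtain ⟨mk, hmk, hmk'⟩ := Psi.complete (Q := sQ (ancD G.E T D) G.E G.P (D 0)) mem_sl r hF
      (sQ_comp hF) (sQ_detE hflip) sQ_detP le_rfl hall
    refine ⟨T, by simp, svS' (Fin 6 × Fin M) r (fun p => D p.1 p.2) mk, ?_⟩
    have e1 : (fun a b => svS' (Fin 6 × Fin M) r (fun p => D p.1 p.2) mk (ix a b)) = D := by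
      funext a b
      exact svS_A' _ _ _ _ _
    have e2 : (fun i t => svS' (Fin 6 × Fin M) r (fun p => D p.1 p.2) mk
        (svM' (Fin 6 × Fin M) r i t)) = mk := by
      funext i t
      rw [svS_M', ← hmk' i t]
    have e3 : ancF T ⟨G.V, fun _ => G.E, G.P⟩ (svS' (Fin 6 × Fin M) r (fun p => D p.1 p.2) mk) =
        ancD G.E T D := by
      show ancD G.E T (fun a b => svS' (Fin 6 × Fin M) r (fun p => D p.1 p.2) mk (ix a b)) = _
      rw [e1]
    have e4 : (fun b => svS' (Fin 6 × Fin M) r (fun p => D p.1 p.2) mk (ix 0 b)) = D 0 :=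
      congrFun e1 0
    constructor
    · show FlipOK (ancF T ⟨G.V, fun _ => G.E, G.P⟩ _) G.E T (fun a b =>
        svS' (Fin 6 × Fin M) r (fun p => D p.1 p.2) mk (ix a b))
      rw [e3, e1]
      exact hflip
    · show Psi (ancF T ⟨G.V, fun _ => G.E, G.P⟩ _)
        (fun κ => sQ (ancF T ⟨G.V, fun _ => G.E, G.P⟩ _) G.E G.P
          (fun b => svS' (Fin 6 × Fin M) r (fun p => D p.1 p.2) mk (ix 0 b)) κ) (sl k M)
        (fun i t => svS' (Fin 6 × Fin M) r (fun p => D p.1 p.2) mk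
          (svM' (Fin 6 × Fin M) r i t)) r G.E G.P φ Fin.elim0
      rw [e3, e2, e4]
      exact hmk Fin.elim0

end Run7.h625
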